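import Pool.Agent.MEIS.Defs

set_option autoImplicit false

open MeasureTheory Set Metric

namespace Pool.Agent.MEIS

theorem SH_zero {H : E → ℝ} {R : ℝ} (h : SH H R) : H 0 = 0 := by
  have h0 := h.hom 0 le_rfl 0
  simpa using h0

theorem SH_lower {H : E → ℝ} {R : ℝ} (h : SH H R) (x : E) : (1 - R) * ‖x‖ ≤ H x := by
  have h1 := h.wid x
  have h2 := h.bd (-x)
  rw [norm_neg] at h2
  nlinarith

theorem SH_lip {H : E → ℝ} {R : ℝ} (h : SH H R) (x y : E) : |H x - H y| ≤ R * ‖x - y‖ := by
  have h1 : H x ≤ H y + R * ‖x - y‖ := by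
    have ha := h.sub y (x - y)
    have hb := h.bd (x - y)
    have hc : y + (x - y) = x := by abel
    rw [hc] at ha
    linarith
  have h2 : H y ≤ H x + R * ‖x - y‖ := by
    have ha := h.sub x (y - x)
    have hb := h.bd (y - x)
    have hc : x + (y - x) = y := by abel
    rw [hc] at ha
    rw [norm_sub_rev] at hb
    linarith
  rw [abs_le]
  constructor <;> linarith

/-- The radius is at least one half. -/
theorem SH_half {H : E → ℝ} {R : ℝ} (h : SH H R) : 1 / 2 ≤ R := by
  have hn : ‖(EuclideanSpace.single (0 : Fin 3) (1 : ℝ) : E)‖ = 1 := by simp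
  have h1 := h.wid (EuclideanSpace.single (0 : Fin 3) (1 : ℝ))
  have h2 := h.bd (EuclideanSpace.single (0 : Fin 3) (1 : ℝ))
  have h3 := h.bd (-(EuclideanSpace.single (0 : Fin 3) (1 : ℝ)))
  rw [norm_neg] at h3
  rw [hn] at h1 h2 h3
  linarith

theorem SH_cont {H : E → ℝ} {R : ℝ} (h : SH H R) : Continuous H := by
  have hR : 0 ≤ R := by
    have := SH_half h
    linarith
  have hl : LipschitzWith ⟨R, hR⟩ H := by
    apply LipschitzWith.of_dist_le_mul
    intro x y
    rw [Real.dist_eq, dist_eq_norm]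
    exact SH_lip h x y
  exact hl.continuous

end Pool.Agent.MEIS
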