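import Pool.Agent.MEIS.Defs

set_option autoImplicit false

open MeasureTheory Set Metric

namespace Pool.Agent.MEIS

/-- variance of a weight on finitely many points -/
noncomputable def jfpF {ι : Type} [Fintype ι] (p : ι → E) (m : ι → ℝ) : ℝ :=
  ∑ i, m i * ‖p i‖ ^ 2 - ‖∑ i, m i • p i‖ ^ 2

theorem jfp_cont {ι : Type} [Fintype ι] (p : ι → E) : Continuous (jfpF p) := by
  unfold jfpF
  fun_prop

theorem jfp_shift {ι : Type} [Fintype ι] (p : ι → E) (m : ι → ℝ) (hm : ∑ i, m i = 1) (c : E) :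
    jfpF p m = ∑ i, m i * ‖p i - c‖ ^ 2 - ‖∑ i, m i • p i - c‖ ^ 2 := by
  unfold jfpF
  have h1 : ∀ i, m i * ‖p i - c‖ ^ 2 =
      m i * ‖p i‖ ^ 2 - 2 * inner ℝ (m i • p i) c + m i * ‖c‖ ^ 2 := by
    intro i
    rw [norm_sub_sq_real, real_inner_smul_left]
    ring
  rw [Finset.sum_congr rfl (fun i _ => h1 i), Finset.sum_add_distrib, Finset.sum_sub_distrib,
    ← Finset.mul_sum, ← sum_inner, ← Finset.sum_mul, hm, norm_sub_sq_real]
  ring

theorem jfp_double {ι : Type} [Fintype ι] (p : ι → E) (m : ι → ℝ) (hm : ∑ i, m i = 1) :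
    2 * jfpF p m = ∑ i, ∑ j, m i * m j * ‖p i - p j‖ ^ 2 := by
  have h1 : ∀ i j, m i * m j * ‖p i - p j‖ ^ 2 =
      m j * (m i * ‖p i‖ ^ 2) - 2 * inner ℝ (m i • p i) (m j • p j) + m i * (m j * ‖p j‖ ^ 2) := by
    intro i j
    rw [norm_sub_sq_real, real_inner_smul_left, real_inner_smul_right]
    ring
  have h2 : ∀ i, ∑ j, m i * m j * ‖p i - p j‖ ^ 2 =
      m i * ‖p i‖ ^ 2 - 2 * inner ℝ (m i • p i) (∑ j, m j • p j)
        + m i * ∑ j, m j * ‖p j‖ ^ 2 := by
    intro i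
    rw [Finset.sum_congr rfl (fun j _ => h1 i j), Finset.sum_add_distrib,
      Finset.sum_sub_distrib, ← Finset.sum_mul, hm, ← Finset.mul_sum, ← inner_sum,
      ← Finset.mul_sum, one_mul]
  rw [Finset.sum_congr rfl (fun i _ => h2 i), Finset.sum_add_distrib, Finset.sum_sub_distrib,
    ← Finset.mul_sum, ← sum_inner, ← Finset.sum_mul, hm, real_inner_self_eq_norm_sq]
  unfold jfpF
  ring

/-- Jung's theorem for at most four points. -/
theorem jung_four {ι : Type} [Fintype ι] [Nonempty ι] (hc : Fintype.card ι ≤ 4) (p : ι → E)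
    (hp : ∀ i j, ‖p i - p j‖ ≤ 1) : ∃ c : E, ∀ i, ‖p i - c‖ ^ 2 ≤ 3 / 8 := by
  classical
  obtain ⟨i0⟩ := (inferInstance : Nonempty ι)
  have hne : (stdSimplex ℝ ι).Nonempty := ⟨_, single_mem_stdSimplex ℝ i0⟩
  obtain ⟨l, hl, hmax⟩ := (isCompact_stdSimplex ι (𝕜 := ℝ)).exists_isMaxOn hne (jfp_cont p).continuousOn
  obtain ⟨hl0, hl1⟩ := hl
  have hF : jfpF p l ≤ 3 / 8 := by
    have h2 := jfp_double p l hl1
    have h3 : ∑ i, ∑ j, l i * l j * ‖p i - p j‖ ^ 2 ≤ ∑ i, ∑ j, (l i * l j - if i = j then l i ^ 2 else 0) := by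
      refine Finset.sum_le_sum fun i _ => Finset.sum_le_sum fun j _ => ?_
      have h0 : 0 ≤ l i * l j := mul_nonneg (hl0 i) (hl0 j)
      by_cases hij : i = j
      · subst hij
        simp [pow_two]
      · rw [if_neg hij, sub_zero]
        have : ‖p i - p j‖ ^ 2 ≤ 1 := by
          have := hp i j
          have h' := norm_nonneg (p i - p j)
          nlinarith
        nlinarith
    have h4 : ∑ i, ∑ j, (l i * l j - if i = j then l i ^ 2 else 0) = 1 - ∑ i, l i ^ 2 := by
      have : ∀ i, ∑ j, (l i * l j - if i = j then l i ^ 2 else 0) = l i - l i ^ 2 := by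
        intro i
        rw [Finset.sum_sub_distrib, ← Finset.mul_sum, hl1]
        simp
      rw [Finset.sum_congr rfl (fun i _ => this i), Finset.sum_sub_distrib, hl1]
    have h5 : (∑ i, l i) ^ 2 ≤ (Finset.univ.card : ℝ) * ∑ i, l i ^ 2 :=
      sq_sum_le_card_mul_sum_sq
    rw [hl1, Finset.card_univ] at h5
    have h6 : (Fintype.card ι : ℝ) ≤ 4 := by exact_mod_cast hc
    have h7 : 0 ≤ ∑ i, l i ^ 2 := Finset.sum_nonneg fun i _ => sq_nonneg _
    nlinarith
  refine ⟨∑ i, l i • p i, fun i => ?_⟩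
  set c := ∑ i, l i • p i with hcd
  have hl2 : jfpF p l = ∑ j, l j * ‖p j - c‖ ^ 2 := by
    rw [jfp_shift p l hl1 c]
    simp [← hcd]
  have key : ∀ t : ℝ, 0 < t → t ≤ 1 → (1 - t) * ‖p i - c‖ ^ 2 ≤ jfpF p l := by
    intro t ht ht1
    set m : ι → ℝ := fun j => (1 - t) * l j + t * (if i = j then 1 else 0) with hm
    have hm1 : ∑ j, m j = 1 := by
      rw [hm, Finset.sum_add_distrib, ← Finset.mul_sum, ← Finset.mul_sum, hl1]
      simp
    have hmm : m ∈ stdSimplex ℝ ι := by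
      refine ⟨fun j => ?_, hm1⟩
      have := hl0 j
      have h' : (0:ℝ) ≤ if i = j then 1 else 0 := by split_ifs <;> norm_num
      have h'' : 0 ≤ 1 - t := by linarith
      show 0 ≤ (1 - t) * l j + t * (if i = j then 1 else 0)
      positivity
    have h8 : jfpF p m ≤ jfpF p l := hmax hmm
    have h9 : ∑ j, m j • p j - c = t • (p i - c) := by
      have : ∑ j, m j • p j = (1 - t) • c + t • p i := by
        rw [hcd, Finset.smul_sum]
        simp only [hm, add_smul, Finset.sum_add_distrib, mul_smul]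
        simp
      rw [this, smul_sub, sub_smul, one_smul]
      abel
    have h10 : ∑ j, m j * ‖p j - c‖ ^ 2 = (1 - t) * jfpF p l + t * ‖p i - c‖ ^ 2 := by
      rw [hl2, Finset.mul_sum]
      simp only [hm, add_mul, Finset.sum_add_distrib, mul_assoc]
      simp
    rw [jfp_shift p m hm1 c, h9, h10, norm_smul, Real.norm_of_nonneg ht.le] at h8
    have h11 : t * ((1 - t) * ‖p i - c‖ ^ 2) ≤ t * jfpF p l := by nlinarith
    exact le_of_mul_le_mul_left h11 ht
  refine le_trans ?_ hF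
  by_contra hcon
  push Not at hcon
  set A := ‖p i - c‖ ^ 2 with hA
  have hA0 : 0 ≤ A := by positivity
  have hF0 : 0 ≤ jfpF p l := by
    have := key 1 one_pos le_rfl
    linarith
  have hA1 : 0 < A := lt_of_le_of_lt hF0 hcon
  have h12 := key ((A - jfpF p l) / (2 * A)) (by
    apply div_pos <;> linarith) (by
    rw [div_le_one (by linarith)]
    linarith)
  have h13 : (1 - (A - jfpF p l) / (2 * A)) * A = (A + jfpF p l) / 2 := by
    field_simp
    ring
  rw [h13] at h12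
  linarith

end Pool.Agent.MEIS
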