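import Pool.Agent.MEIS.Defs
import Pool.Agent.MEIS.JFP

set_option autoImplicit false

open MeasureTheory Set Metric

namespace Pool.Agent.MEIS

/-- Jung's theorem in three-space. -/
theorem jung {C : Set E} (hp : ∀ x ∈ C, ∀ y ∈ C, ‖x - y‖ ≤ 1) :
    ∃ c : E, C ⊆ closedBall c (Real.sqrt (3 / 8)) := by
  classical
  have hfin : Module.finrank ℝ E = 3 := by simp [E]
  have key : (⋂ x : C, closedBall (x : E) (Real.sqrt (3 / 8))).Nonempty := by
    refine Convex.helly_theorem_compact' (𝕜 := ℝ) (fun x => convex_closedBall _ _)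
      (fun x => isCompact_closedBall _ _) ?_
    intro I hI
    rcases I.eq_empty_or_nonempty with rfl | hne
    · simp
    · have hneI : Nonempty (I : Type) := ⟨⟨hne.choose, hne.choose_spec⟩⟩
      have hcard : Fintype.card (I : Type) ≤ 4 := by
        rw [Fintype.card_coe]
        rw [hfin] at hI
        exact hI
      obtain ⟨c, hc⟩ := jung_four (ι := (I : Type)) hcard (fun i => ((i : C) : E))
        (fun i j => hp _ (i : C).2 _ (j : C).2)
      refine ⟨c, ?_⟩
      simp only [mem_iInter]
      intro x hx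
      rw [mem_closedBall, dist_comm, dist_eq_norm]
      exact Real.le_sqrt_of_sq_le (hc ⟨x, hx⟩)
  obtain ⟨c, hc⟩ := key
  refine ⟨c, fun x hx => ?_⟩
  have h := mem_iInter.1 hc ⟨x, hx⟩
  rw [mem_closedBall] at h ⊢
  rwa [dist_comm]

end Pool.Agent.MEIS
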