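import Pool.Agent.MEIS.Defs

set_option autoImplicit false

open MeasureTheory Set Metric

namespace Pool.Agent.MEIS

/-- A smooth radial probability density supported in a small ball. -/
structure Ker (φ : E → ℝ) (ε : ℝ) : Prop where
  sm : ContDiff ℝ 3 φ
  nn : ∀ y, 0 ≤ φ y
  supp : ∀ y : E, ε ≤ ‖y‖ → φ y = 0
  one : ∫ y, φ y = 1
  rad : ∀ y z : E, ‖y‖ = ‖z‖ → φ y = φ z

theorem ker_cs_aux {φ : E → ℝ} {ε : ℝ} (h : ∀ y : E, ε ≤ ‖y‖ → φ y = 0) :
    HasCompactSupport φ := by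
  apply HasCompactSupport.intro (isCompact_closedBall (0 : E) ε)
  intro x hx
  apply h
  rw [mem_closedBall_zero_iff, not_le] at hx
  exact hx.le

theorem exists_ker {ε : ℝ} (hε : 0 < ε) : ∃ φ : E → ℝ, Ker φ ε := by
  set g : E → ℝ := fun y => Real.smoothTransition (1 - ‖y‖ ^ 2 / ε ^ 2) with hg
  have hg3 : ContDiff ℝ 3 g := by
    have h1 : ContDiff ℝ 3 (fun y : E => 1 - ‖y‖ ^ 2 / ε ^ 2) :=
      contDiff_const.sub ((contDiff_norm_sq ℝ).div_const _)
    exact (Real.smoothTransition.contDiff (n := 3)).comp h1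
  have hgn : ∀ y, 0 ≤ g y := fun y => Real.smoothTransition.nonneg _
  have hgs : ∀ y : E, ε ≤ ‖y‖ → g y = 0 := by
    intro y hy
    apply Real.smoothTransition.zero_of_nonpos
    have h1 : ε ^ 2 ≤ ‖y‖ ^ 2 := pow_le_pow_left₀ hε.le hy 2
    rw [sub_nonpos, le_div_iff₀ (by positivity), one_mul]
    exact h1
  have hg0 : g 0 = 1 := by
    simp only [hg]
    apply Real.smoothTransition.one_of_one_le
    simp
  have hcs : HasCompactSupport g := ker_cs_aux hgs
  have hpos : 0 < ∫ y, g y :=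
    hg3.continuous.integral_pos_of_hasCompactSupport_nonneg_nonzero hcs hgn
      (x := 0) (by rw [hg0]; norm_num)
  refine ⟨fun y => (∫ z, g z)⁻¹ * g y, ⟨contDiff_const.mul hg3, fun y => ?_, fun y hy => ?_, ?_,
    fun y z hyz => ?_⟩⟩
  · exact mul_nonneg (inv_nonneg.2 hpos.le) (hgn y)
  · rw [hgs y hy, mul_zero]
  · rw [integral_const_mul]
    exact inv_mul_cancel₀ hpos.ne'
  · simp only [hg]
    rw [hyz]

theorem Ker.even {φ : E → ℝ} {ε : ℝ} (h : Ker φ ε) (y : E) : φ (-y) = φ y :=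
  h.rad _ _ (norm_neg y)

theorem Ker.cs {φ : E → ℝ} {ε : ℝ} (h : Ker φ ε) : HasCompactSupport φ :=
  ker_cs_aux h.supp

/-- Integrability of `f φ` for continuous `f`. -/
theorem Ker.integrable {φ : E → ℝ} {ε : ℝ} (h : Ker φ ε) {f : E → ℝ} (hf : Continuous f) :
    Integrable (fun y => f y * φ y) :=
  (hf.mul h.sm.continuous).integrable_of_hasCompactSupport h.cs.mul_left

end Pool.Agent.MEIS
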