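import Pool.Agent.MEIS.Defs
import Pool.Agent.MEIS.KER

set_option autoImplicit false

open MeasureTheory Set Metric

namespace Pool.Agent.MEIS

theorem kco_unit {φ : E → ℝ} {ε : ℝ} (h : Ker φ ε) (e u : E) (he : ‖e‖ = 1) (hu : ‖u‖ = 1) :
    ∫ y, ‖u + y‖ * φ y = ∫ y, ‖e + y‖ * φ y := by
  have heu : ‖e‖ = ‖u‖ := by rw [he, hu]
  set L : E ≃ₗᵢ[ℝ] E := Submodule.reflection (ℝ ∙ (e - u))ᗮ with hL
  have hLe : L e = u := Submodule.reflection_sub heu
  have hmp : MeasurePreserving L (volume : Measure E) volume := L.measurePreserving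
  have h1 := hmp.integral_comp L.toMeasurableEquiv.measurableEmbedding (fun y => ‖u + y‖ * φ y)
  rw [← h1]
  refine integral_congr_ae (Filter.Eventually.of_forall fun y => ?_)
  have h2 : ‖u + L y‖ = ‖e + y‖ := by
    rw [← hLe, ← map_add]
    exact L.norm_map _
  have h3 : φ (L y) = φ y := h.rad _ _ (L.norm_map y)
  show ‖u + L y‖ * φ (L y) = ‖e + y‖ * φ y
  rw [h2, h3]

theorem ker_const {φ : E → ℝ} {ε : ℝ} (hε : 0 < ε) (h : Ker φ ε) : ∃ c : ℝ, 1 ≤ c ∧ c ≤ 1 + ε ∧
    ∀ x : E, ∫ y, ‖x + ‖x‖ • y‖ * φ y = c * ‖x‖ := by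
  have hsingle : ‖(EuclideanSpace.single (0 : Fin 3) (1 : ℝ) : E)‖ = 1 := by simp
  set e : E := EuclideanSpace.single (0 : Fin 3) (1 : ℝ) with he
  have hint : Integrable (fun y => ‖e + y‖ * φ y) := h.integrable (by fun_prop)
  have hint' : Integrable (fun y => ‖e - y‖ * φ y) := h.integrable (by fun_prop)
  have hone : Integrable (fun y : E => φ y) := by
    have := h.integrable (f := fun _ => (1 : ℝ)) (by fun_prop)
    simpa using this
  have hneg : ∫ y, ‖e - y‖ * φ y = ∫ y, ‖e + y‖ * φ y := by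
    rw [← integral_neg_eq_self (fun y => ‖e + y‖ * φ y) (volume : Measure E)]
    refine integral_congr_ae (Filter.Eventually.of_forall fun y => ?_)
    show ‖e - y‖ * φ y = ‖e + -y‖ * φ (-y)
    rw [h.even, sub_eq_add_neg]
  refine ⟨∫ y, ‖e + y‖ * φ y, ?_, ?_, ?_⟩
  · have h2 : ∫ y, 2 * φ y ≤ ∫ y, (‖e + y‖ * φ y + ‖e - y‖ * φ y) := by
      refine integral_mono (hone.const_mul 2) (hint.add hint') fun y => ?_
      have h3 : (2 : ℝ) ≤ ‖e + y‖ + ‖e - y‖ := by
        have h4 : ‖(e + y) + (e - y)‖ ≤ ‖e + y‖ + ‖e - y‖ := norm_add_le _ _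
        have h5 : (e + y) + (e - y) = (2 : ℝ) • e := by
          rw [two_smul]; abel
        rw [h5, norm_smul, hsingle] at h4
        simpa using h4
      have h6 := h.nn y
      show 2 * φ y ≤ ‖e + y‖ * φ y + ‖e - y‖ * φ y
      nlinarith
    rw [integral_add hint hint', hneg, integral_const_mul, h.one] at h2
    linarith
  · have h2 : ∫ y, ‖e + y‖ * φ y ≤ ∫ y, (1 + ε) * φ y := by
      refine integral_mono hint (hone.const_mul _) fun y => ?_
      show ‖e + y‖ * φ y ≤ (1 + ε) * φ y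
      rcases le_or_gt ε ‖y‖ with hy | hy
      · rw [h.supp y hy]; simp
      · have h3 : ‖e + y‖ ≤ 1 + ε := by
          refine (norm_add_le _ _).trans ?_
          rw [hsingle]
          linarith
        exact mul_le_mul_of_nonneg_right h3 (h.nn y)
    rw [integral_const_mul, h.one] at h2
    linarith
  · intro x
    rcases eq_or_ne x 0 with rfl | hx
    · simp
    · have hx0 : (0 : ℝ) < ‖x‖ := norm_pos_iff.mpr hx
      have hu : ‖(‖x‖⁻¹ • x : E)‖ = 1 := by
        rw [norm_smul, norm_inv, norm_norm, inv_mul_cancel₀ hx0.ne']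
      have h1 := kco_unit h e (‖x‖⁻¹ • x) hsingle hu
      rw [← h1, mul_comm, ← integral_const_mul]
      refine integral_congr_ae (Filter.Eventually.of_forall fun y => ?_)
      show ‖x + ‖x‖ • y‖ * φ y = ‖x‖ * (‖(‖x‖⁻¹ • x : E) + y‖ * φ y)
      have h2 : x + ‖x‖ • y = ‖x‖ • ((‖x‖⁻¹ • x : E) + y) := by
        rw [smul_add, smul_smul, mul_inv_cancel₀ hx0.ne', one_smul]
      rw [h2, norm_smul, norm_norm, mul_assoc]

end Pool.Agent.MEIS
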