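import Pool.Agent.MEIS.Defs

set_option autoImplicit false

open MeasureTheory Set Metric

namespace Pool.Agent.MEIS

theorem sm_mono {m n : ℕ} {f : E → ℝ} (hf : Sm n f) (h : m ≤ n) : Sm m f :=
  ContDiffOn.of_le hf (by exact_mod_cast h)

theorem sm_const (n : ℕ) (c : ℝ) : Sm n (fun _ : E => c) :=
  contDiffOn_const

theorem sm_add {n : ℕ} {f g : E → ℝ} (hf : Sm n f) (hg : Sm n g) : Sm n (fun x => f x + g x) :=
  ContDiffOn.add hf hg

theorem sm_sub {n : ℕ} {f g : E → ℝ} (hf : Sm n f) (hg : Sm n g) : Sm n (fun x => f x - g x) :=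
  ContDiffOn.sub hf hg

theorem sm_neg {n : ℕ} {f : E → ℝ} (hf : Sm n f) : Sm n (fun x => - f x) :=
  ContDiffOn.neg hf

theorem sm_mul {n : ℕ} {f g : E → ℝ} (hf : Sm n f) (hg : Sm n g) : Sm n (fun x => f x * g x) :=
  ContDiffOn.mul hf hg

theorem sm_cmul {n : ℕ} {f : E → ℝ} (c : ℝ) (hf : Sm n f) : Sm n (fun x => c * f x) :=
  sm_mul (sm_const n c) hf

theorem sm_pow {n : ℕ} {f : E → ℝ} (hf : Sm n f) (k : ℕ) : Sm n (fun x => (f x) ^ k) :=
  ContDiffOn.pow hf k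

theorem sm_sum {n : ℕ} {ι : Type} (s : Finset ι) {f : ι → E → ℝ} (hf : ∀ i ∈ s, Sm n (f i)) :
    Sm n (fun x => ∑ i ∈ s, f i x) :=
  ContDiffOn.sum hf

theorem sm_norm (n : ℕ) : Sm n (fun x : E => ‖x‖) := by
  intro x hx
  have h : ContDiffAt ℝ n (fun x : E => ‖x‖) x := contDiffAt_norm ℝ (by simpa using hx)
  exact h.contDiffWithinAt

theorem sm_coord (n : ℕ) (i : Fin 3) : Sm n (fun x : E => x i) := by
  have h : ContDiff ℝ n (fun x : E => x i) := (EuclideanSpace.proj (𝕜 := ℝ) i).contDiff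
  exact h.contDiffOn

theorem sm_negarg {n : ℕ} {f : E → ℝ} (hf : Sm n f) : Sm n (fun x => f (-x)) := by
  have h : ContDiff ℝ n (fun x : E => -x) := contDiff_neg
  refine ContDiffOn.comp (g := f) (t := ({0}ᶜ : Set E)) hf h.contDiffOn ?_
  intro x hx
  simpa using hx

theorem sm_contDiffAt {n : ℕ} {f : E → ℝ} (hf : Sm n f) {x : E} (hx : x ≠ 0) :
    ContDiffAt ℝ n f x :=
  ContDiffOn.contDiffAt hf (isOpen_compl_singleton.mem_nhds hx)

theorem sm_differentiableAt {f : E → ℝ} (hf : Sm 1 f) {x : E} (hx : x ≠ 0) :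
    DifferentiableAt ℝ f x :=
  (sm_contDiffAt hf hx).differentiableAt (by norm_num)

theorem sm_pd {n : ℕ} {f : E → ℝ} (hf : Sm (n + 1) f) (i : Fin 3) : Sm n (pd i f) := by
  have h : ContDiffOn ℝ n (fderiv ℝ f) ({0}ᶜ : Set E) :=
    ContDiffOn.fderiv_of_isOpen hf isOpen_compl_singleton (by exact_mod_cast le_refl _)
  exact h.clm_apply contDiffOn_const

theorem sm_lap {n : ℕ} {f : E → ℝ} (hf : Sm (n + 2) f) : Sm n (lap f) :=
  sm_sum _ fun i _ => sm_pd (sm_pd (n := n + 1) hf i) i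

theorem sm_hs {n : ℕ} {f : E → ℝ} (hf : Sm (n + 2) f) : Sm n (hs f) :=
  sm_sum _ fun i _ => sm_sum _ fun j _ => sm_pow (sm_pd (sm_pd (n := n + 1) hf j) i) 2

theorem sm_sg {n : ℕ} {f : E → ℝ} (hf : Sm (n + 2) f) : Sm n (sg f) := by
  have h := sm_mul (sm_sub (sm_pow (sm_lap hf) 2) (sm_hs hf)) (sm_const n (1 / 2))
  have e : sg f = fun x => ((lap f x) ^ 2 - hs f x) * (1 / 2) := by
    funext x
    unfold sg
    ring
  rw [e]
  exact h

theorem sm_gs {n : ℕ} {f : E → ℝ} (hf : Sm (n + 1) f) : Sm n (gs f) :=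
  sm_sum _ fun i _ => sm_pow (sm_pd hf i) 2

end Pool.Agent.MEIS
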