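import Pool.Agent.MEIS.Defs
import Pool.Agent.MEIS.SMA
import Pool.Agent.MEIS.KER
import Pool.Agent.MEIS.SHB

set_option autoImplicit false

open MeasureTheory Set Metric

namespace Pool.Agent.MEIS

/-- The mollified support function (homogeneous version). -/
noncomputable def mol (H φ : E → ℝ) (x : E) : ℝ := ∫ y, H (x + ‖x‖ • y) * φ y

theorem msm_conv {H φ : E → ℝ} {R ε : ℝ} (h : SH H R) (hφ : Ker φ ε) :
    ContDiff ℝ 3 (fun w : E => ∫ y, H (w + y) * φ y) := by
  have hc : Continuous H := SH_cont h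
  have key : (fun w : E => ∫ y, H (w + y) * φ y)
      = convolution H φ (ContinuousLinearMap.mul ℝ ℝ) volume := by
    funext w
    rw [convolution_def]
    have h1 : ∫ y, H (w + y) * φ y = ∫ t, H t * φ (t - w) := by
      have := integral_add_left_eq_self (μ := (volume : Measure E)) (fun t => H t * φ (t - w)) w
      rw [← this]
      refine integral_congr_ae (Filter.Eventually.of_forall fun y => ?_)
      simp
    rw [h1]
    refine integral_congr_ae (Filter.Eventually.of_forall fun t => ?_)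
    have : φ (t - w) = φ (w - t) := by
      rw [← neg_sub, hφ.even]
    simp [this]
  rw [key]
  exact hφ.cs.contDiff_convolution_right _ hc.locallyIntegrable hφ.sm

theorem mol_sm {H φ : E → ℝ} {R ε : ℝ} (h : SH H R) (hφ : Ker φ ε) : Sm 3 (mol H φ) := by
  have hcv := msm_conv h hφ
  have hn : ContDiffOn ℝ 3 (fun x : E => ‖x‖) ({0}ᶜ : Set E) := sm_norm 3
  have hni : ContDiffOn ℝ 3 (fun x : E => ‖x‖⁻¹ • x) ({0}ᶜ : Set E) := by
    refine ContDiffOn.smul (hn.inv ?_) contDiffOn_id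
    intro x hx
    exact norm_ne_zero_iff.mpr hx
  have hmain : ContDiffOn ℝ 3
      (fun x : E => ‖x‖ * (fun w : E => ∫ y, H (w + y) * φ y) (‖x‖⁻¹ • x)) ({0}ᶜ : Set E) :=
    hn.mul (hcv.comp_contDiffOn hni)
  refine ContDiffOn.congr hmain ?_
  intro x hx
  have hx0 : ‖x‖ ≠ 0 := norm_ne_zero_iff.mpr hx
  have hxn : 0 ≤ ‖x‖ := norm_nonneg x
  show mol H φ x = ‖x‖ * ∫ y, H (‖x‖⁻¹ • x + y) * φ y
  unfold mol
  rw [← integral_const_mul]
  refine integral_congr_ae (Filter.Eventually.of_forall fun y => ?_)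
  have e : x + ‖x‖ • y = ‖x‖ • (‖x‖⁻¹ • x + y) := by
    rw [smul_add, smul_smul, mul_inv_cancel₀ hx0, one_smul]
  show H (x + ‖x‖ • y) * φ y = ‖x‖ * (H (‖x‖⁻¹ • x + y) * φ y)
  rw [e, h.hom _ hxn, mul_assoc]

end Pool.Agent.MEIS
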