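import Pool.Agent.MEIS.Defs
import Pool.Agent.MEIS.KER
import Pool.Agent.MEIS.KCO
import Pool.Agent.MEIS.SHB
import Pool.Agent.MEIS.MSM

set_option autoImplicit false

open MeasureTheory Set Metric

namespace Pool.Agent.MEIS

theorem mol_hom {H φ : E → ℝ} {R ε : ℝ} (h : SH H R) (hφ : Ker φ ε) (t : ℝ) (ht : 0 ≤ t) (x : E) :
    mol H φ (t • x) = t * mol H φ x := by
  unfold mol
  rw [← integral_const_mul]
  congr 1
  funext y
  have : t • x + ‖t • x‖ • y = t • (x + ‖x‖ • y) := by
    rw [norm_smul, Real.norm_eq_abs, abs_of_nonneg ht, smul_add, smul_smul]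
  rw [this, h.hom t ht]
  ring

theorem msl_int {H φ : E → ℝ} {R ε : ℝ} (h : SH H R) (hφ : Ker φ ε) (x : E) (a : ℝ) :
    Integrable (fun y => H (x + a • y) * φ y) :=
  hφ.integrable ((SH_cont h).comp (by fun_prop))

theorem msl_negint {φ : E → ℝ} {ε : ℝ} (hφ : Ker φ ε) (f : E → ℝ) :
    ∫ y, f (-y) * φ y = ∫ y, f y * φ y := by
  rw [← integral_neg_eq_self (fun y => f y * φ y)]
  congr 1
  funext y
  rw [hφ.even]

/-- monotonicity in the radius -/
theorem msl_mono {H : E → ℝ} {R : ℝ} (h : SH H R) (z w : E) {a b : ℝ} (ha : 0 ≤ a) (hab : a ≤ b) :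
    H (z + a • w) + H (z - a • w) ≤ H (z + b • w) + H (z - b • w) := by
  rcases ha.eq_or_lt with h0 | h0
  · subst h0
    have h1 : H (z + b • w + (z - b • w)) ≤ H (z + b • w) + H (z - b • w) := h.sub _ _
    have h2 : z + b • w + (z - b • w) = (2 : ℝ) • z := by
      rw [two_smul]; abel
    rw [h2, h.hom 2 (by norm_num)] at h1
    simp only [zero_smul, add_zero, sub_zero]
    linarith
  · have hb : 0 < b := lt_of_lt_of_le h0 hab
    set l : ℝ := (1 + a / b) / 2 with hl
    set m : ℝ := (1 - a / b) / 2 with hm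
    have hq : a / b ≤ 1 := by rw [div_le_one hb]; exact hab
    have hq0 : 0 ≤ a / b := by positivity
    have hl0 : 0 ≤ l := by rw [hl]; linarith
    have hm0 : 0 ≤ m := by rw [hm]; linarith
    have hlm : l + m = 1 := by rw [hl, hm]; ring
    have hlb : (l - m) * b = a := by rw [hl, hm]; field_simp; ring
    have e1 : z + a • w = l • (z + b • w) + m • (z - b • w) := by
      have : l • (z + b • w) + m • (z - b • w) = (l + m) • z + ((l - m) * b) • w := by
        module
      rw [this, hlm, hlb, one_smul]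
    have e2 : z - a • w = m • (z + b • w) + l • (z - b • w) := by
      have : m • (z + b • w) + l • (z - b • w) = (l + m) • z - ((l - m) * b) • w := by
        module
      rw [this, hlm, hlb, one_smul]
    have i1 := h.sub (l • (z + b • w)) (m • (z - b • w))
    have i2 := h.sub (m • (z + b • w)) (l • (z - b • w))
    rw [← e1, h.hom l hl0, h.hom m hm0] at i1
    rw [← e2, h.hom l hl0, h.hom m hm0] at i2
    calc H (z + a • w) + H (z - a • w)
        ≤ (l * H (z + b • w) + m * H (z - b • w)) + (m * H (z + b • w) + l * H (z - b • w)) :=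
          add_le_add i1 i2
      _ = (l + m) * (H (z + b • w) + H (z - b • w)) := by ring
      _ = _ := by rw [hlm, one_mul]

theorem msl_two {H φ : E → ℝ} {R ε : ℝ} (h : SH H R) (hφ : Ker φ ε) (z : E) (a : ℝ) :
    2 * ∫ y, H (z + a • y) * φ y = ∫ y, (H (z + a • y) + H (z - a • y)) * φ y := by
  have e1 : ∫ y, H (z - a • y) * φ y = ∫ y, H (z + a • y) * φ y := by
    rw [← msl_negint hφ (fun y => H (z + a • y))]
    congr 1
    funext y
    rw [smul_neg, sub_eq_add_neg]
  have hi : Integrable (fun y => H (z - a • y) * φ y) := by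
    have := msl_int h hφ z (-a)
    simpa [neg_smul, sub_eq_add_neg] using this
  have : (fun y => (H (z + a • y) + H (z - a • y)) * φ y)
      = fun y => H (z + a • y) * φ y + H (z - a • y) * φ y := by
    funext y; ring
  rw [this, integral_add (msl_int h hφ z a) hi, e1]
  ring

theorem msl_radius {H φ : E → ℝ} {R ε : ℝ} (h : SH H R) (hφ : Ker φ ε) (z : E) {a b : ℝ}
    (ha : 0 ≤ a) (hab : a ≤ b) :
    ∫ y, H (z + a • y) * φ y ≤ ∫ y, H (z + b • y) * φ y := by
  have hi : ∀ c : ℝ, Integrable (fun y => (H (z + c • y) + H (z - c • y)) * φ y) := by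
    intro c
    apply hφ.integrable
    exact ((SH_cont h).comp (by fun_prop)).add ((SH_cont h).comp (by fun_prop))
  have h1 : ∫ y, (H (z + a • y) + H (z - a • y)) * φ y
      ≤ ∫ y, (H (z + b • y) + H (z - b • y)) * φ y := by
    apply integral_mono (hi a) (hi b)
    intro y
    exact mul_le_mul_of_nonneg_right (msl_mono h z y ha hab) (hφ.nn y)
  rw [← msl_two h hφ, ← msl_two h hφ] at h1
  linarith

theorem mol_sub {H φ : E → ℝ} {R ε : ℝ} (h : SH H R) (hφ : Ker φ ε) (x y : E) :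
    mol H φ (x + y) ≤ mol H φ x + mol H φ y := by
  unfold mol
  have h1 := msl_radius h hφ (x + y) (norm_nonneg (x + y)) (norm_add_le x y)
  refine h1.trans ?_
  rw [← integral_add (msl_int h hφ x ‖x‖) (msl_int h hφ y ‖y‖)]
  apply integral_mono (msl_int h hφ (x + y) (‖x‖ + ‖y‖))
    ((msl_int h hφ x ‖x‖).add (msl_int h hφ y ‖y‖))
  intro w
  have e : x + y + (‖x‖ + ‖y‖) • w = (x + ‖x‖ • w) + (y + ‖y‖ • w) := by
    rw [add_smul]; abel
  simp only [Pi.add_apply]
  rw [e, ← add_mul]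
  exact mul_le_mul_of_nonneg_right (h.sub _ _) (hφ.nn w)

theorem mol_wid {H φ : E → ℝ} {R ε : ℝ} (h : SH H R) (hφ : Ker φ ε) (x : E) :
    mol H φ x + mol H φ (-x) = ∫ y, ‖x + ‖x‖ • y‖ * φ y := by
  have e : mol H φ (-x) = ∫ y, H (-(x + ‖x‖ • y)) * φ y := by
    unfold mol
    rw [norm_neg, ← msl_negint hφ (fun y => H (-x + ‖x‖ • y))]
    congr 1
    funext y
    congr 2
    rw [smul_neg]; abel
  have hi : Integrable (fun y => H (-(x + ‖x‖ • y)) * φ y) :=
    hφ.integrable ((SH_cont h).comp (by fun_prop))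
  rw [e]
  unfold mol
  rw [← integral_add (msl_int h hφ x ‖x‖) hi]
  congr 1
  funext y
  rw [← add_mul, h.wid]

theorem mol_le {H φ : E → ℝ} {R ε : ℝ} (h : SH H R) (hR : 0 ≤ R) (hε : 0 < ε) (hφ : Ker φ ε)
    (x : E) : mol H φ x ≤ H x + R * ε * ‖x‖ := by
  have e : H x + R * ε * ‖x‖ = ∫ y, (H x + R * ε * ‖x‖) * φ y := by
    rw [integral_const_mul, hφ.one, mul_one]
  rw [e]
  unfold mol
  apply integral_mono (msl_int h hφ x ‖x‖) (hφ.integrable continuous_const)
  intro y
  show H (x + ‖x‖ • y) * φ y ≤ (H x + R * ε * ‖x‖) * φ y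
  by_cases hy : ε ≤ ‖y‖
  · rw [hφ.supp y hy]; simp
  · push Not at hy
    apply mul_le_mul_of_nonneg_right _ (hφ.nn y)
    have h1 := h.sub x (‖x‖ • y)
    rw [h.hom ‖x‖ (norm_nonneg x)] at h1
    have h2 := h.bd y
    have h3 : ‖x‖ * H y ≤ ‖x‖ * (R * ε) := by
      apply mul_le_mul_of_nonneg_left _ (norm_nonneg x)
      exact h2.trans (mul_le_mul_of_nonneg_left hy.le hR)
    linarith

theorem mol_nonneg {H φ : E → ℝ} {R ε : ℝ} (h : SH H R) (hR : R < 1) (hφ : Ker φ ε) (x : E) :
    0 ≤ mol H φ x := by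
  unfold mol
  apply integral_nonneg
  intro y
  apply mul_nonneg _ (hφ.nn y)
  have := SH_lower h (x + ‖x‖ • y)
  have h2 : 0 ≤ (1 - R) * ‖x + ‖x‖ • y‖ := mul_nonneg (by linarith) (norm_nonneg _)
  linarith

end Pool.Agent.MEIS
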