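import Pool.Agent.MEIS.Defs
import Pool.Agent.MEIS.SMA
import Pool.Agent.MEIS.KER
import Pool.Agent.MEIS.KCO
import Pool.Agent.MEIS.SHB
import Pool.Agent.MEIS.MSM
import Pool.Agent.MEIS.MSL

set_option autoImplicit false

open MeasureTheory Set Metric

namespace Pool.Agent.MEIS

/-- Smooth approximation from above. -/
theorem exists_smooth {H : E → ℝ} {R δ : ℝ} (h : SH H R) (hR : R < 1) (hδ : 0 < δ) :
    ∃ (G : E → ℝ) (τ : ℝ), 0 < τ ∧ SB G (R + δ) τ ∧ ∀ x, G x ≤ H x + δ * ‖x‖ := by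
  have hR2 : 1 / 2 ≤ R := SH_half h
  have hR0 : 0 ≤ R := by linarith
  have hε : 0 < δ / 2 := by linarith
  obtain ⟨φ, hφ⟩ := exists_ker hε
  obtain ⟨c, hc1, hc2, hc⟩ := ker_const hε hφ
  set t : ℝ := min (1 / 2) δ with ht
  have ht0 : 0 < t := lt_min (by norm_num) hδ
  have ht1 : t ≤ 1 / 2 := min_le_left _ _
  have ht2 : t ≤ δ := min_le_right _ _
  have hc0 : 0 < c := by linarith
  have hk0 : 0 ≤ (1 - t) / c := div_nonneg (by linarith) hc0.le
  have hk1 : (1 - t) / c ≤ 1 := by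
    rw [div_le_one hc0]; linarith
  have hub : ∀ x, (1 - t) / c * mol H φ x + t / 2 * ‖x‖ ≤ H x + δ * ‖x‖ := by
    intro x
    have h1 := mol_le h hR0 hε hφ x
    have h2 := mol_nonneg h hR hφ x
    have h3 : (1 - t) / c * mol H φ x ≤ mol H φ x := by
      calc (1 - t) / c * mol H φ x ≤ 1 * mol H φ x := mul_le_mul_of_nonneg_right hk1 h2
        _ = mol H φ x := one_mul _
    have hx := norm_nonneg x
    have h4 : R * (δ / 2) * ‖x‖ ≤ 1 * (δ / 2) * ‖x‖ := by
      apply mul_le_mul_of_nonneg_right _ hx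
      apply mul_le_mul_of_nonneg_right hR.le hε.le
    have h5 : t / 2 * ‖x‖ ≤ δ / 2 * ‖x‖ := by
      apply mul_le_mul_of_nonneg_right _ hx
      linarith
    nlinarith
  refine ⟨fun x => (1 - t) / c * mol H φ x + t / 2 * ‖x‖, t / 2, by linarith, ?_, hub⟩
  refine ⟨?_, ?_, ?_, ?_, ?_⟩
  · exact sm_add (sm_cmul _ (mol_sm h hφ)) (sm_cmul _ (sm_norm 3))
  · intro a ha x
    rw [mol_hom h hφ a ha, norm_smul, Real.norm_eq_abs, abs_of_nonneg ha]
    ring
  · intro x y
    have h1 := mul_le_mul_of_nonneg_left (mol_sub h hφ x y) hk0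
    linarith
  · intro x
    have h1 := mol_wid h hφ x
    rw [hc] at h1
    rw [norm_neg]
    have h2 : mol H φ (-x) = c * ‖x‖ - mol H φ x := by linarith
    rw [h2]
    field_simp
    ring
  · intro x
    have h1 := hub x
    have h2 := h.bd x
    linarith

end Pool.Agent.MEIS
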