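import Pool.Agent.MEIS.Defs

set_option autoImplicit false

open MeasureTheory Set Metric

namespace Pool.Agent.MEIS

open scoped Pointwise in
theorem sca_sub {G H : E → ℝ} {c : ℝ} (hc : 0 < c) (h : ∀ x, G x ≤ c * H x) :
    Body G ⊆ c • Body H := by
  intro y hy
  rw [Set.mem_smul_set_iff_inv_smul_mem₀ hc.ne']
  intro x
  rw [inner_smul_right]
  have h1 : inner ℝ x y ≤ c * H x := le_trans (hy x) (h x)
  rw [inv_mul_le_iff₀ hc]
  exact h1

open scoped Pointwise in
theorem volume_body_scale {G H : E → ℝ} {c : ℝ} (hc : 0 < c) (h : ∀ x, G x ≤ c * H x) :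
    volume (Body G) ≤ ENNReal.ofReal (c ^ 3) * volume (Body H) := by
  calc volume (Body G) ≤ volume (c • Body H) := measure_mono (sca_sub hc h)
    _ = ENNReal.ofReal (c ^ 3) * volume (Body H) := by
      rw [Measure.addHaar_smul]
      have hf : Module.finrank ℝ E = 3 := by simp
      rw [hf, abs_of_pos (pow_pos hc 3)]

end Pool.Agent.MEIS
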