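import Pool.Agent.MEIS.Defs
import Pool.Agent.MEIS.SMA

set_option autoImplicit false

open MeasureTheory Set Metric

namespace Pool.Agent.MEIS

theorem fderiv_pd {f : E → ℝ} (x v : E) :
    fderiv ℝ f x v = ∑ i, v i * pd i f x := by
  have hv : v = ∑ i, v i • (EuclideanSpace.single i (1 : ℝ) : E) := by
    ext j
    simp [Finset.sum_apply, Pi.single_apply]
  conv_lhs => rw [hv]
  rw [map_sum]
  refine Finset.sum_congr rfl fun i _ => ?_
  rw [map_smul, smul_eq_mul]
  rfl

theorem pdr_nhds {x : E} (hx : x ≠ 0) : ({0}ᶜ : Set E) ∈ nhds x :=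
  isOpen_compl_singleton.mem_nhds hx

theorem pd_congr {f g : E → ℝ} (h : ∀ y : E, y ≠ 0 → f y = g y) {x : E} (hx : x ≠ 0) (i : Fin 3) :
    pd i f x = pd i g x := by
  have : f =ᶠ[nhds x] g := Filter.eventually_of_mem (pdr_nhds hx) (fun y hy => h y hy)
  unfold pd
  rw [this.fderiv_eq]

theorem pd_add {f g : E → ℝ} (hf : Sm 1 f) (hg : Sm 1 g) {x : E} (hx : x ≠ 0) (i : Fin 3) :
    pd i (fun y => f y + g y) x = pd i f x + pd i g x := by
  unfold pd
  rw [fderiv_fun_add (sm_differentiableAt hf hx) (sm_differentiableAt hg hx)]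
  rfl

theorem pd_sub {f g : E → ℝ} (hf : Sm 1 f) (hg : Sm 1 g) {x : E} (hx : x ≠ 0) (i : Fin 3) :
    pd i (fun y => f y - g y) x = pd i f x - pd i g x := by
  unfold pd
  rw [fderiv_fun_sub (sm_differentiableAt hf hx) (sm_differentiableAt hg hx)]
  rfl

theorem pd_cmul {f : E → ℝ} (c : ℝ) (hf : Sm 1 f) {x : E} (hx : x ≠ 0) (i : Fin 3) :
    pd i (fun y => c * f y) x = c * pd i f x := by
  unfold pd
  rw [fderiv_const_mul (sm_differentiableAt hf hx)]
  rfl

theorem pd_mul {f g : E → ℝ} (hf : Sm 1 f) (hg : Sm 1 g) {x : E} (hx : x ≠ 0) (i : Fin 3) :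
    pd i (fun y => f y * g y) x = f x * pd i g x + g x * pd i f x := by
  unfold pd
  rw [fderiv_fun_mul (sm_differentiableAt hf hx) (sm_differentiableAt hg hx)]
  simp

theorem pd_sum {ι : Type} (s : Finset ι) {f : ι → E → ℝ} (hf : ∀ k ∈ s, Sm 1 (f k)) {x : E}
    (hx : x ≠ 0) (i : Fin 3) :
    pd i (fun y => ∑ k ∈ s, f k y) x = ∑ k ∈ s, pd i (f k) x := by
  unfold pd
  rw [fderiv_fun_sum (fun k hk => sm_differentiableAt (hf k hk) hx)]
  simp

theorem pd_comm {f : E → ℝ} (hf : Sm 2 f) {x : E} (hx : x ≠ 0) (i j : Fin 3) :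
    pd i (pd j f) x = pd j (pd i f) x := by
  have hs : IsSymmSndFDerivAt ℝ f x :=
    (sm_contDiffAt hf hx).isSymmSndFDerivAt (by simp)
  have hd : DifferentiableAt ℝ (fderiv ℝ f) x := by
    have h1 : ContDiffAt ℝ 1 (fderiv ℝ f) x :=
      (sm_contDiffAt hf hx).fderiv_right (m := 1) (by norm_num)
    exact h1.differentiableAt (by norm_num)
  have key : ∀ a b : Fin 3, pd a (pd b f) x =
      fderiv ℝ (fderiv ℝ f) x (EuclideanSpace.single a 1) (EuclideanSpace.single b 1) := by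
    intro a b
    have e : pd b f = fun y => fderiv ℝ f y (EuclideanSpace.single b (1 : ℝ)) := rfl
    rw [e]
    unfold pd
    rw [fderiv_clm_apply hd (differentiableAt_const _)]
    simp
  rw [key, key]
  exact hs _ _

end Pool.Agent.MEIS
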