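import Pool.Agent.MEIS.Defs
import Pool.Agent.MEIS.SMA
import Pool.Agent.MEIS.PDR

set_option autoImplicit false

open MeasureTheory Set Metric

namespace Pool.Agent.MEIS

theorem hom_mul {k l : ℤ} {f g : E → ℝ} (hf : Hom k f) (hg : Hom l g) :
    Hom (k + l) (fun x => f x * g x) := by
  intro t ht x hx
  simp only
  rw [hf t ht x hx, hg t ht x hx, zpow_add₀ ht.ne']
  ring

theorem hom_add {k : ℤ} {f g : E → ℝ} (hf : Hom k f) (hg : Hom k g) :
    Hom k (fun x => f x + g x) := by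
  intro t ht x hx
  simp only
  rw [hf t ht x hx, hg t ht x hx]
  ring

theorem hom_sub {k : ℤ} {f g : E → ℝ} (hf : Hom k f) (hg : Hom k g) :
    Hom k (fun x => f x - g x) := by
  intro t ht x hx
  simp only
  rw [hf t ht x hx, hg t ht x hx]
  ring

theorem hom_cmul {k : ℤ} {f : E → ℝ} (c : ℝ) (hf : Hom k f) : Hom k (fun x => c * f x) := by
  intro t ht x hx
  simp only
  rw [hf t ht x hx]
  ring

theorem hom_sum {k : ℤ} {ι : Type} (s : Finset ι) {f : ι → E → ℝ} (hf : ∀ i ∈ s, Hom k (f i)) :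
    Hom k (fun x => ∑ i ∈ s, f i x) := by
  intro t ht x hx
  simp only
  rw [Finset.mul_sum]
  exact Finset.sum_congr rfl fun i hi => hf i hi t ht x hx

theorem hom_norm : Hom 1 (fun x : E => ‖x‖) := by
  intro t ht x _
  simp only [zpow_one]
  rw [norm_smul, Real.norm_eq_abs, abs_of_pos ht]

theorem hom_coord (i : Fin 3) : Hom 1 (fun x : E => x i) := by
  intro t _ x _
  simp

theorem hom_pd {k : ℤ} {f : E → ℝ} (hf : Sm 1 f) (hh : Hom k f) (i : Fin 3) :
    Hom (k - 1) (pd i f) := by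
  intro t ht x hx
  have htx : t • x ≠ 0 := smul_ne_zero ht.ne' hx
  have h1 : pd i (fun y => f (t • y)) x = t * pd i f (t • x) := by
    have hd : HasFDerivAt (fun y : E => t • y) (t • ContinuousLinearMap.id ℝ E) x :=
      (hasFDerivAt_id x).const_smul t
    have hc := ((sm_differentiableAt hf htx).hasFDerivAt).comp x hd
    have e : fderiv ℝ (fun y => f (t • y)) x =
        (fderiv ℝ f (t • x)).comp (t • ContinuousLinearMap.id ℝ E) := hc.fderiv
    unfold pd
    rw [e]
    simp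
  have h2 : pd i (fun y => f (t • y)) x = t ^ k * pd i f x := by
    rw [pd_congr (g := fun y => t ^ k * f y) (fun y hy => hh t ht y hy) hx i]
    exact pd_cmul _ hf hx i
  have h3 : t * pd i f (t • x) = t ^ k * pd i f x := h1.symm.trans h2
  rw [zpow_sub_one₀ ht.ne', mul_assoc, mul_comm (t⁻¹), ← mul_assoc, ← h3]
  field_simp

/-- Euler relation. -/
theorem hom_euler {k : ℤ} {f : E → ℝ} (hf : Sm 1 f) (hh : Hom k f) {x : E} (hx : x ≠ 0) :
    ∑ i, x i * pd i f x = k * f x := by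
  rw [← fderiv_pd]
  have hd : HasDerivAt (fun t : ℝ => t • x) x 1 := by
    simpa using (hasDerivAt_id (1 : ℝ)).smul_const x
  have hfd : HasFDerivAt f (fderiv ℝ f x) ((1 : ℝ) • x) := by
    rw [one_smul]
    exact (sm_differentiableAt hf hx).hasFDerivAt
  have h1 : HasDerivAt (fun t : ℝ => f (t • x)) (fderiv ℝ f x x) 1 := hfd.comp_hasDerivAt 1 hd
  have h2 : HasDerivAt (fun t : ℝ => t ^ k * f x) ((k : ℝ) * (1 : ℝ) ^ (k - 1) * f x) 1 :=
    (hasDerivAt_zpow k (1 : ℝ) (Or.inl one_ne_zero)).mul_const (f x)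
  have h3 : (fun t : ℝ => f (t • x)) =ᶠ[nhds 1] fun t : ℝ => t ^ k * f x := by
    filter_upwards [lt_mem_nhds (zero_lt_one' ℝ)] with t ht
    exact hh t ht x hx
  have h4 := h2.congr_of_eventuallyEq h3
  have h5 := h1.unique h4
  rw [h5]
  simp

/-- The Hessian of a function of degree one annihilates the radial direction. -/
theorem euler_two {f : E → ℝ} (hf : Sm 2 f) (hh : Hom 1 f) {x : E} (hx : x ≠ 0) (i : Fin 3) :
    ∑ j, x j * pd i (pd j f) x = 0 := by
  have h1 : Sm 1 (pd i f) := sm_pd (n := 1) hf i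
  have h2 : Hom (1 - 1) (pd i f) := hom_pd (sm_mono hf (by norm_num)) hh i
  have h3 := hom_euler h1 h2 hx
  simp only [sub_self, Int.cast_zero, zero_mul] at h3
  rw [← h3]
  refine Finset.sum_congr rfl fun j _ => ?_
  rw [pd_comm hf hx i j]

theorem hom_pd2 {f : E → ℝ} (hf : Sm 2 f) (hh : Hom 1 f) (i j : Fin 3) :
    Hom (-1) (pd i (pd j f)) := by
  have h1 : Sm 1 (pd j f) := sm_pd (n := 1) hf j
  have h2 : Hom (1 - 1) (pd j f) := hom_pd (sm_mono hf (by norm_num)) hh j
  have h3 := hom_pd h1 h2 i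
  norm_num at h3
  exact h3

theorem hom_lap {f : E → ℝ} (hf : Sm 2 f) (hh : Hom 1 f) : Hom (-1) (lap f) := by
  have : lap f = fun x => ∑ i ∈ Finset.univ, pd i (pd i f) x := rfl
  rw [this]
  exact hom_sum Finset.univ (f := fun i => pd i (pd i f)) fun i _ => hom_pd2 hf hh i i

theorem hom_sq {k : ℤ} {f : E → ℝ} (hf : Hom k f) : Hom (k + k) (fun x => (f x) ^ 2) := by
  have := hom_mul hf hf
  simpa [sq] using this

theorem hom_hs {f : E → ℝ} (hf : Sm 2 f) (hh : Hom 1 f) : Hom (-2) (hs f) := by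
  have : hs f = fun x => ∑ i ∈ Finset.univ, (fun i x => ∑ j ∈ Finset.univ,
    (pd i (pd j f) x) ^ 2) i x := rfl
  rw [this]
  refine hom_sum Finset.univ fun i _ => ?_
  refine hom_sum Finset.univ (f := fun j x => (pd i (pd j f) x) ^ 2) fun j _ => ?_
  have := hom_sq (hom_pd2 hf hh i j)
  norm_num at this
  exact this

theorem hom_sg {f : E → ℝ} (hf : Sm 2 f) (hh : Hom 1 f) : Hom (-2) (sg f) := by
  have h1 : Hom (-2) (fun x => (lap f x) ^ 2) := by
    have := hom_sq (hom_lap hf hh)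
    norm_num at this
    exact this
  have h2 := hom_cmul (1 / 2) (hom_sub h1 (hom_hs hf hh))
  have : sg f = fun x => 1 / 2 * ((lap f x) ^ 2 - hs f x) := by
    funext x
    unfold sg
    ring
  rw [this]
  exact h2

theorem hom_gs {f : E → ℝ} (hf : Sm 1 f) (hh : Hom 1 f) : Hom 0 (gs f) := by
  have : gs f = fun x => ∑ i ∈ Finset.univ, (fun i x => (pd i f x) ^ 2) i x := rfl
  rw [this]
  refine hom_sum Finset.univ fun i _ => ?_
  have := hom_sq (hom_pd hf hh i)
  norm_num at this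
  exact this

end Pool.Agent.MEIS
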