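import Pool.Agent.MEIS.Defs

set_option autoImplicit false

open MeasureTheory Set Metric

namespace Pool.Agent.MEIS

theorem nrm_hasFDerivAt {x : E} (hx : x ≠ 0) :
    HasFDerivAt (fun y : E => ‖y‖) (‖x‖⁻¹ • innerSL ℝ x) x := by
  have h0 : ‖x‖ ≠ 0 := norm_ne_zero_iff.mpr hx
  have h1 : HasFDerivAt (fun y : E => ‖y‖ ^ 2) (2 • innerSL ℝ x) x :=
    (hasStrictFDerivAt_norm_sq x).hasFDerivAt
  have h2 := h1.sqrt (by positivity)
  have e1 : (fun y : E => √(‖y‖ ^ 2)) = fun y : E => ‖y‖ := by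
    funext y
    exact Real.sqrt_sq (norm_nonneg y)
  rw [e1, Real.sqrt_sq (norm_nonneg x)] at h2
  have e2 : (1 / (2 * ‖x‖)) • (2 • innerSL ℝ x) = ‖x‖⁻¹ • (innerSL ℝ x : E →L[ℝ] ℝ) := by
    rw [← Nat.cast_smul_eq_nsmul ℝ, smul_smul]
    congr 1
    push_cast
    field_simp
  rw [e2] at h2
  exact h2

theorem nrm_inner (x : E) (i : Fin 3) :
    innerSL ℝ x (EuclideanSpace.single i (1 : ℝ)) = x i := by
  simp [innerSL_apply_apply, EuclideanSpace.inner_single_right]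

theorem pd_norm {x : E} (hx : x ≠ 0) (i : Fin 3) : pd i (fun y : E => ‖y‖) x = x i / ‖x‖ := by
  unfold pd
  rw [(nrm_hasFDerivAt hx).fderiv, smul_apply, nrm_inner, smul_eq_mul]
  rw [div_eq_inv_mul]

theorem pd2_norm {x : E} (hx : x ≠ 0) (i j : Fin 3) :
    pd i (pd j (fun y : E => ‖y‖)) x =
      ((if i = j then (1 : ℝ) else 0) - x i * x j / ‖x‖ ^ 2) / ‖x‖ := by
  have h0 : ‖x‖ ≠ 0 := norm_ne_zero_iff.mpr hx
  have hev : pd j (fun y : E => ‖y‖) =ᶠ[nhds x] fun y : E => y j * ‖y‖⁻¹ := by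
    have : ({0}ᶜ : Set E) ∈ nhds x := isOpen_compl_singleton.mem_nhds hx
    filter_upwards [this] with y hy
    rw [pd_norm hy, div_eq_mul_inv]
  have hproj : HasFDerivAt (fun y : E => y j) (EuclideanSpace.proj j : E →L[ℝ] ℝ) x :=
    (EuclideanSpace.proj j : E →L[ℝ] ℝ).hasFDerivAt
  have hinv : HasFDerivAt (fun y : E => ‖y‖⁻¹) ((-(‖x‖ ^ 2)⁻¹) • (‖x‖⁻¹ • innerSL ℝ x)) x :=
    (hasDerivAt_inv h0).comp_hasFDerivAt x (nrm_hasFDerivAt hx)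
  have hm : HasFDerivAt (fun y : E => y j * ‖y‖⁻¹)
      (x j • ((-(‖x‖ ^ 2)⁻¹) • (‖x‖⁻¹ • innerSL ℝ x)) + ‖x‖⁻¹ • (EuclideanSpace.proj j : E →L[ℝ] ℝ)) x :=
    hproj.mul hinv
  unfold pd at hev ⊢
  rw [hev.fderiv_eq]
  rw [hm.fderiv]
  simp only [add_apply, smul_apply, nrm_inner, smul_eq_mul]
  have e : (EuclideanSpace.proj j : E →L[ℝ] ℝ) (EuclideanSpace.single i (1 : ℝ))
      = if i = j then (1 : ℝ) else 0 := by
    simp [eq_comm]
  rw [e]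
  field_simp
  ring

end Pool.Agent.MEIS
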