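import Pool.Agent.MEIS.Defs
import Pool.Agent.MEIS.SMA
import Pool.Agent.MEIS.PDR
import Pool.Agent.MEIS.HOM
import Pool.Agent.MEIS.NRM

set_option autoImplicit false

open MeasureTheory Set Metric

namespace Pool.Agent.MEIS

theorem SB_hom {G : E → ℝ} {R τ : ℝ} (h : SB G R τ) : Hom 1 G := by
  intro t ht x _
  rw [h.hom t ht.le x, zpow_one]

theorem grd_inner (x v : E) : inner ℝ x v = ∑ i, v i * x i := by
  rw [PiLp.inner_apply]
  apply Finset.sum_congr rfl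
  intro i _
  simp

theorem grd_norm_fderiv {x : E} (hx : x ≠ 0) (v : E) :
    fderiv ℝ (fun y : E => ‖y‖) x v = inner ℝ x v / ‖x‖ := by
  rw [fderiv_pd, grd_inner, Finset.sum_div]
  apply Finset.sum_congr rfl
  intro i _
  rw [pd_norm hx]
  ring

/-- Supporting hyperplane inequality, strict version. -/
theorem SB_support {G : E → ℝ} {R τ : ℝ} (h : SB G R τ) {x : E} (hx : x ≠ 0) (v : E) :
    (∑ i, v i * pd i G x) + τ * (‖v‖ - inner ℝ x v / ‖x‖) ≤ G v := by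
  have hG : DifferentiableAt ℝ G x := sm_differentiableAt (sm_mono h.sm (by norm_num)) hx
  have hN : DifferentiableAt ℝ (fun y : E => ‖y‖) x := sm_differentiableAt (sm_norm 1) hx
  have hd : HasFDerivAt (fun y : E => G y - τ * ‖y‖)
      (fderiv ℝ G x - τ • fderiv ℝ (fun y : E => ‖y‖) x) x :=
    hG.hasFDerivAt.sub (hN.hasFDerivAt.const_mul τ)
  have hline : HasDerivAt (fun t : ℝ => x + t • v) v 0 := by
    have := ((hasDerivAt_id (0 : ℝ)).smul_const v).const_add x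
    simpa using this
  have hd0 : HasFDerivAt (fun y : E => G y - τ * ‖y‖)
      (fderiv ℝ G x - τ • fderiv ℝ (fun y : E => ‖y‖) x) (x + (0 : ℝ) • v) := by
    simpa using hd
  have hcomp := hd0.comp_hasDerivAt (0 : ℝ) hline
  have hval : (fderiv ℝ G x - τ • fderiv ℝ (fun y : E => ‖y‖) x) v
      = (∑ i, v i * pd i G x) - τ * (inner ℝ x v / ‖x‖) := by
    rw [_root_.sub_apply, _root_.smul_apply, grd_norm_fderiv hx,
      fderiv_pd, smul_eq_mul]
  have ht := (hasDerivAt_iff_tendsto_slope_zero.mp hcomp).mono_left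
    (nhdsWithin_mono (0 : ℝ) (fun t (ht : t ∈ Ioi (0 : ℝ)) => ne_of_gt ht))
  have hle : (fderiv ℝ G x - τ • fderiv ℝ (fun y : E => ‖y‖) x) v ≤ G v - τ * ‖v‖ := by
    refine le_of_tendsto ht ?_
    filter_upwards [self_mem_nhdsWithin] with t ht0
    have ht0' : (0 : ℝ) < t := ht0
    have h1 := h.sub x (t • v)
    rw [h.hom t ht0'.le v, norm_smul, Real.norm_eq_abs, abs_of_pos ht0'] at h1
    simp only [Function.comp, zero_add, zero_smul, add_zero, smul_eq_mul]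
    rw [inv_mul_le_iff₀ ht0']
    nlinarith
  rw [hval] at hle
  linarith

theorem SB_self {G : E → ℝ} {R τ : ℝ} (h : SB G R τ) {x : E} (hx : x ≠ 0) :
    ∑ i, x i * pd i G x = G x := by
  have := hom_euler (sm_mono h.sm (by norm_num)) (SB_hom h) hx
  rw [this]
  simp

theorem SB_gs_le {G : E → ℝ} {R τ : ℝ} (h : SB G R τ) (hτ : 0 ≤ τ) (hR : 0 ≤ R) {x : E}
    (hx : x ≠ 0) : gs G x ≤ R ^ 2 := by
  set v : E := WithLp.toLp 2 (fun i => pd i G x) with hv
  have hvi : ∀ i, v i = pd i G x := fun i => rfl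
  have h1 := SB_support h hx v
  have h2 := h.bd v
  have hxp : 0 < ‖x‖ := norm_pos_iff.mpr hx
  have h3 : inner ℝ x v / ‖x‖ ≤ ‖v‖ := by
    rw [div_le_iff₀ hxp, mul_comm]
    exact real_inner_le_norm x v
  have h4 : 0 ≤ τ * (‖v‖ - inner ℝ x v / ‖x‖) := mul_nonneg hτ (by linarith)
  have h5 : (∑ i, v i * pd i G x) = ‖v‖ ^ 2 := by
    rw [EuclideanSpace.norm_sq_eq]
    apply Finset.sum_congr rfl
    intro i _
    rw [hvi, Real.norm_eq_abs, sq_abs]
    ring
  have h6 : gs G x = ‖v‖ ^ 2 := by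
    rw [← h5]
    unfold gs
    apply Finset.sum_congr rfl
    intro i _
    rw [hvi]; ring
  rw [h5] at h1
  have h7 : ‖v‖ ^ 2 ≤ R * ‖v‖ := by linarith
  have h8 : ‖v‖ ≤ R := by
    rcases (norm_nonneg v).eq_or_lt with h0 | h0
    · rw [← h0]; exact hR
    · nlinarith
  rw [h6]
  exact pow_le_pow_left₀ (norm_nonneg v) h8 2

theorem SB_lower {G : E → ℝ} {R τ : ℝ} (h : SB G R τ) (x : E) : (1 - R) * ‖x‖ ≤ G x := by
  have h1 := h.wid x
  have h2 := h.bd (-x)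
  rw [norm_neg] at h2
  linarith

theorem od_odd {G : E → ℝ} {R τ : ℝ} (h : SB G R τ) (x : E) : od G (-x) = - od G x := by
  have h1 := h.wid x
  unfold od
  rw [norm_neg]
  linarith

theorem grd_od_eq (G : E → ℝ) : od G = fun x => G x - (1 / 2 : ℝ) * ‖x‖ := by
  funext x
  unfold od
  ring

theorem od_sm {G : E → ℝ} {R τ : ℝ} (h : SB G R τ) : Sm 3 (od G) := by
  rw [grd_od_eq]
  exact sm_sub h.sm (sm_cmul _ (sm_norm 3))

theorem od_hom {G : E → ℝ} {R τ : ℝ} (h : SB G R τ) : Hom 1 (od G) := by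
  rw [grd_od_eq]
  exact hom_sub (SB_hom h) (hom_cmul _ hom_norm)

theorem pd_od {G : E → ℝ} {R τ : ℝ} (h : SB G R τ) {x : E} (hx : x ≠ 0) (i : Fin 3) :
    pd i G x = pd i (od G) x + x i / ‖x‖ / 2 := by
  rw [grd_od_eq, pd_sub (sm_mono h.sm (by norm_num)) (sm_cmul _ (sm_norm 1)) hx,
    pd_cmul _ (sm_norm 1) hx, pd_norm hx]
  ring

theorem pd2_od {G : E → ℝ} {R τ : ℝ} (h : SB G R τ) {x : E} (hx : x ≠ 0) (i j : Fin 3) :
    pd i (pd j G) x = pd i (pd j (od G)) x +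
      ((if i = j then (1 : ℝ) else 0) - x i * x j / ‖x‖ ^ 2) / ‖x‖ / 2 := by
  have h1 : ∀ y : E, y ≠ 0 → pd j G y
      = (fun z => pd j (od G) z + (1 / 2 : ℝ) * pd j (fun w : E => ‖w‖) z) y := by
    intro y hy
    simp only
    rw [pd_od h hy, pd_norm hy]
    ring
  rw [pd_congr h1 hx, pd_add (sm_mono (sm_pd (n := 2) (od_sm h) j) (by norm_num))
    (sm_cmul _ (sm_pd (n := 1) (sm_norm 2) j)) hx,
    pd_cmul _ (sm_pd (n := 1) (sm_norm 2) j) hx, pd2_norm hx]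
  ring

end Pool.Agent.MEIS
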