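import Pool.Agent.MEIS.Defs

set_option autoImplicit false

open MeasureTheory Set Metric

namespace Pool.Agent.MEIS

private theorem DET_core (a b c d e f x0 x1 x2 v0 v1 v2 r : ℝ) (hr : r ≠ 0)
    (hx : x0 ^ 2 + x1 ^ 2 + x2 ^ 2 = r ^ 2)
    (h0 : x0 * a + x1 * b + x2 * c = 0) (h1 : x0 * b + x1 * d + x2 * e = 0)
    (h2 : x0 * c + x1 * e + x2 * f = 0) :
    (r * a + v0 * x0 / r) * (r * d + v1 * x1 / r) * (r * f + v2 * x2 / r) -
      (r * a + v0 * x0 / r) * (r * e + v1 * x2 / r) * (r * e + v2 * x1 / r) -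
      (r * b + v0 * x1 / r) * (r * b + v1 * x0 / r) * (r * f + v2 * x2 / r) +
      (r * b + v0 * x1 / r) * (r * e + v1 * x2 / r) * (r * c + v2 * x0 / r) +
      (r * c + v0 * x2 / r) * (r * b + v1 * x0 / r) * (r * e + v2 * x1 / r) -
      (r * c + v0 * x2 / r) * (r * d + v1 * x1 / r) * (r * c + v2 * x0 / r) =
      r * (((a + d + f) ^ 2 - (a ^ 2 + b ^ 2 + c ^ 2 + (b ^ 2 + d ^ 2 + e ^ 2) +
        (c ^ 2 + e ^ 2 + f ^ 2))) / 2) * (x0 * v0 + x1 * v1 + x2 * v2) := by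
  set D : ℝ := a * d * f - a * e * e - b * b * f + b * e * c + c * b * e - c * d * c with hD
  have hDr : D * r ^ 2 = 0 := by
    rw [← hx]
    have e0 : D * x0 = 0 := by
      rw [hD]
      linear_combination (d * f - e * e) * h0 + (c * e - b * f) * h1 + (b * e - c * d) * h2
    have e1 : D * x1 = 0 := by
      rw [hD]
      linear_combination (c * e - b * f) * h0 + (a * f - c * c) * h1 + (b * c - a * e) * h2
    have e2 : D * x2 = 0 := by
      rw [hD]
      linear_combination (b * e - c * d) * h0 + (b * c - a * e) * h1 + (a * d - b * b) * h2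
    linear_combination x0 * e0 + x1 * e1 + x2 * e2
  have hD0 : D = 0 := by
    rcases mul_eq_zero.mp hDr with h | h
    · exact h
    · exact absurd h (pow_ne_zero 2 hr)
  have key : (r * a + v0 * x0 / r) * (r * d + v1 * x1 / r) * (r * f + v2 * x2 / r) -
      (r * a + v0 * x0 / r) * (r * e + v1 * x2 / r) * (r * e + v2 * x1 / r) -
      (r * b + v0 * x1 / r) * (r * b + v1 * x0 / r) * (r * f + v2 * x2 / r) +
      (r * b + v0 * x1 / r) * (r * e + v1 * x2 / r) * (r * c + v2 * x0 / r) +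
      (r * c + v0 * x2 / r) * (r * b + v1 * x0 / r) * (r * e + v2 * x1 / r) -
      (r * c + v0 * x2 / r) * (r * d + v1 * x1 / r) * (r * c + v2 * x0 / r) =
      r ^ 3 * D + r * (v0 * ((d * f - e * e) * x0 + (c * e - b * f) * x1 + (b * e - c * d) * x2) +
        v1 * ((c * e - b * f) * x0 + (a * f - c * c) * x1 + (b * c - a * e) * x2) +
        v2 * ((b * e - c * d) * x0 + (b * c - a * e) * x1 + (a * d - b * b) * x2)) := by
    rw [hD]
    field_simp
    ring
  rw [key, hD0]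
  linear_combination r * v0 * (c * h2 - f * h0 + b * h1 - d * h0) +
    r * v1 * (e * h2 - f * h1 + b * h0 - a * h1) +
    r * v2 * (e * h1 - d * h2 + c * h0 - a * h2)

theorem det_psi (M : Fin 3 → Fin 3 → ℝ) (hM : ∀ i j, M i j = M j i) (x v : Fin 3 → ℝ) {r : ℝ}
    (hr : 0 < r) (hx : ∑ i, x i ^ 2 = r ^ 2) (hMx : ∀ i, ∑ j, x j * M i j = 0) :
    (Matrix.of (fun i j => r * M i j + v i * x j / r)).det =
      r * (((∑ i, M i i) ^ 2 - ∑ i, ∑ j, (M i j) ^ 2) / 2) * ∑ i, x i * v i := by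
  have h10 : M 1 0 = M 0 1 := hM 1 0
  have h20 : M 2 0 = M 0 2 := hM 2 0
  have h21 : M 2 1 = M 1 2 := hM 2 1
  have h0 := hMx 0
  have h1 := hMx 1
  have h2 := hMx 2
  rw [Fin.sum_univ_three] at h0 h1 h2 hx
  rw [h10] at h1
  rw [h20, h21] at h2
  rw [Matrix.det_fin_three]
  simp only [Matrix.of_apply, Fin.sum_univ_three, h10, h20, h21]
  exact DET_core (M 0 0) (M 0 1) (M 0 2) (M 1 1) (M 1 2) (M 2 2) (x 0) (x 1) (x 2)
    (v 0) (v 1) (v 2) r hr.ne' hx h0 h1 h2

end Pool.Agent.MEIS
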