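import Pool.Agent.MEIS.Defs
import Pool.Agent.MEIS.SMA
import Pool.Agent.MEIS.PDR
import Pool.Agent.MEIS.HOM
import Pool.Agent.MEIS.NRM
import Pool.Agent.MEIS.GRD
import Pool.Agent.MEIS.DET

set_option autoImplicit false

open MeasureTheory Set Metric

namespace Pool.Agent.MEIS

/-- The map `x ↦ ‖x‖ ∇G(x)`. -/
noncomputable def Psi (G : E → ℝ) (x : E) : E := WithLp.toLp 2 (fun i => ‖x‖ * pd i G x)

theorem psi_aux_sm {G : E → ℝ} {R τ : ℝ} (h : SB G R τ) (i : Fin 3) :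
    Sm 1 (fun y : E => ‖y‖ * pd i G y) := by
  have h2 : Sm 2 G := sm_mono h.sm (by norm_num)
  exact sm_mul (sm_norm 1) (sm_pd (n := 1) h2 i)

theorem psi_aux_diff {G : E → ℝ} {R τ : ℝ} (h : SB G R τ) {x : E} (hx : x ≠ 0) :
    DifferentiableAt ℝ (Psi G) x := by
  rw [differentiableAt_euclidean]
  intro i
  exact sm_differentiableAt (psi_aux_sm h i) hx

theorem Psi_hasFDerivAt {G : E → ℝ} {R τ : ℝ} (h : SB G R τ) {x : E} (hx : x ≠ 0) :
    HasFDerivAt (Psi G) (fderiv ℝ (Psi G) x) x :=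
  (psi_aux_diff h hx).hasFDerivAt

theorem psi_aux_entry {G : E → ℝ} {R τ : ℝ} (h : SB G R τ) {x : E} (hx : x ≠ 0) (i j : Fin 3) :
    (fderiv ℝ (Psi G) x (EuclideanSpace.single j (1 : ℝ))) i =
      ‖x‖ * pd j (pd i G) x + pd i G x * x j / ‖x‖ := by
  have h1 : HasFDerivAt (fun y : E => Psi G y i)
      ((EuclideanSpace.proj i : E →L[ℝ] ℝ).comp (fderiv ℝ (Psi G) x)) x :=
    ((EuclideanSpace.proj i : E →L[ℝ] ℝ).hasFDerivAt).comp x (Psi_hasFDerivAt h hx)
  have h2 : pd j (fun y : E => ‖y‖ * pd i G y) x =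
      (fderiv ℝ (Psi G) x (EuclideanSpace.single j (1 : ℝ))) i := by
    have h3 : fderiv ℝ (fun y : E => Psi G y i) x =
        (EuclideanSpace.proj i : E →L[ℝ] ℝ).comp (fderiv ℝ (Psi G) x) := h1.fderiv
    have h4 : pd j (fun y : E => ‖y‖ * pd i G y) x = pd j (fun y : E => Psi G y i) x := rfl
    rw [h4]
    unfold pd
    rw [h3]
    rfl
  rw [← h2]
  have hs2 : Sm 2 G := sm_mono h.sm (by norm_num)
  rw [pd_mul (sm_norm 1) (sm_pd (n := 1) hs2 i) hx j, pd_norm hx j]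
  ring

theorem Psi_det {G : E → ℝ} {R τ : ℝ} (h : SB G R τ) {x : E} (hx : x ≠ 0) :
    (fderiv ℝ (Psi G) x).det = ‖x‖ * G x * sg G x := by
  have hs2 : Sm 2 G := sm_mono h.sm (by norm_num)
  have hr : 0 < ‖x‖ := norm_pos_iff.mpr hx
  have hM : ∀ i j : Fin 3, pd j (pd i G) x = pd i (pd j G) x := fun i j => pd_comm hs2 hx j i
  have hdet := det_psi (fun i j => pd j (pd i G) x) (fun i j => hM i j) (fun i => x i)
    (fun i => pd i G x) hr (by rw [EuclideanSpace.real_norm_sq_eq]) (fun i => by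
      have := euler_two hs2 (SB_hom h) hx i
      rw [← this]
      apply Finset.sum_congr rfl
      intro j _
      rw [hM i j])
  have hmat : LinearMap.toMatrix (EuclideanSpace.basisFun (Fin 3) ℝ).toBasis
      (EuclideanSpace.basisFun (Fin 3) ℝ).toBasis ((fderiv ℝ (Psi G) x : E →L[ℝ] E) : E →ₗ[ℝ] E) =
      Matrix.of (fun i j : Fin 3 => ‖x‖ * pd j (pd i G) x + pd i G x * x j / ‖x‖) := by
    ext i j
    rw [LinearMap.toMatrix_apply, Matrix.of_apply, ← psi_aux_entry h hx i j]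
    simp
  have e1 : (fderiv ℝ (Psi G) x).det =
      LinearMap.det ((fderiv ℝ (Psi G) x : E →L[ℝ] E) : E →ₗ[ℝ] E) := rfl
  rw [e1, ← LinearMap.det_toMatrix (EuclideanSpace.basisFun (Fin 3) ℝ).toBasis, hmat, hdet,
    SB_self h hx]
  have e2 : (∑ i, ∑ j, (pd j (pd i G) x) ^ 2) = hs G x := by
    unfold hs
    apply Finset.sum_congr rfl
    intro i _
    apply Finset.sum_congr rfl
    intro j _
    rw [hM i j]
  rw [e2]
  unfold sg lap
  ring

end Pool.Agent.MEIS
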