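import Pool.Agent.MEIS.Defs
import Pool.Agent.MEIS.SMA
import Pool.Agent.MEIS.PDR
import Pool.Agent.MEIS.HOM
import Pool.Agent.MEIS.GRD
import Pool.Agent.MEIS.PSI

set_option autoImplicit false

open MeasureTheory Set Metric

namespace Pool.Agent.MEIS

theorem inj_comp (G : E → ℝ) (x : E) (i : Fin 3) : Psi G x i = ‖x‖ * pd i G x := rfl

theorem inj_inner (G : E → ℝ) (x v : E) :
    inner ℝ v (Psi G x) = ‖x‖ * ∑ i, v i * pd i G x := by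
  rw [PiLp.inner_apply, Finset.mul_sum]
  refine Finset.sum_congr rfl (fun i _ => ?_)
  rw [inj_comp]
  simp only [RCLike.inner_apply, conj_trivial]
  ring

theorem inj_cs {x : E} (hx : x ≠ 0) (v : E) : 0 ≤ ‖v‖ - inner ℝ x v / ‖x‖ := by
  have hn : 0 < ‖x‖ := norm_pos_iff.2 hx
  rw [sub_nonneg, div_le_iff₀ hn, mul_comm]
  exact real_inner_le_norm x v

theorem inj_aux {G : E → ℝ} {R τ : ℝ} (h : SB G R τ) (hτ : 0 < τ) (hR : R < 1) {x y : E}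
    (hx : x ≠ 0) (hy : y ≠ 0) (he : Psi G x = Psi G y) :
    ‖y‖ ≤ ‖x‖ ∧ (‖x‖ = ‖y‖ → inner ℝ x y = ‖x‖ * ‖y‖) := by
  have hn : 0 < ‖x‖ := norm_pos_iff.2 hx
  have hm : 0 < ‖y‖ := norm_pos_iff.2 hy
  have h1 := SB_support h hx y
  have h2 := SB_self h hy
  have h3 := inj_inner G x y
  rw [he, inj_inner G y y, h2] at h3
  have hG : 0 < G y := by
    have := SB_lower h y
    have h4 : 0 < (1 - R) * ‖y‖ := mul_pos (by linarith) hm
    linarith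
  have hcs := inj_cs hx y
  -- ‖x‖ * (h1)
  have h4 : ‖x‖ * ((∑ i, y i * pd i G x) + τ * (‖y‖ - inner ℝ x y / ‖x‖)) ≤ ‖x‖ * G y :=
    mul_le_mul_of_nonneg_left h1 hn.le
  have h5 : ‖y‖ * G y + ‖x‖ * (τ * (‖y‖ - inner ℝ x y / ‖x‖)) ≤ ‖x‖ * G y := by
    rw [h3]; linarith
  have h6 : 0 ≤ ‖x‖ * (τ * (‖y‖ - inner ℝ x y / ‖x‖)) := by positivity
  constructor
  · by_contra hcon
    push Not at hcon
    have : ‖x‖ * G y < ‖y‖ * G y := mul_lt_mul_of_pos_right hcon hG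
    linarith
  · intro hxy
    have h7 : ‖x‖ * (τ * (‖y‖ - inner ℝ x y / ‖x‖)) ≤ 0 := by
      rw [← hxy] at h5
      rw [← hxy]
      linarith
    have h8 : ‖y‖ - inner ℝ x y / ‖x‖ = 0 := by
      by_contra hne
      have h9 : 0 < ‖y‖ - inner ℝ x y / ‖x‖ := lt_of_le_of_ne hcs (Ne.symm hne)
      have : 0 < ‖x‖ * (τ * (‖y‖ - inner ℝ x y / ‖x‖)) := by positivity
      linarith
    have h10 : inner ℝ x y / ‖x‖ = ‖y‖ := by linarith
    rw [div_eq_iff hn.ne'] at h10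
    rw [h10, mul_comm]

theorem Psi_injOn {G : E → ℝ} {R τ : ℝ} (h : SB G R τ) (hτ : 0 < τ) (hR : R < 1) :
    InjOn (Psi G) (ball (0 : E) 1 \ {0}) := by
  intro x hx y hy he
  have hx0 : x ≠ 0 := hx.2
  have hy0 : y ≠ 0 := hy.2
  have h1 := inj_aux h hτ hR hx0 hy0 he
  have h2 := inj_aux h hτ hR hy0 hx0 he.symm
  have h3 : ‖x‖ = ‖y‖ := le_antisymm h2.1 h1.1
  have h4 := h1.2 h3
  have h5 : ‖x - y‖ ^ 2 = 0 := by
    rw [norm_sub_sq_real, h4, h3]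
    ring
  have h6 : ‖x - y‖ = 0 := by
    exact pow_eq_zero_iff (two_ne_zero) |>.1 h5
  exact sub_eq_zero.1 (norm_eq_zero.1 h6)

theorem Psi_image {G : E → ℝ} {R τ : ℝ} (h : SB G R τ) (hτ : 0 ≤ τ) (hR : R < 1) :
    Psi G '' (ball (0 : E) 1 \ {0}) ⊆ Body G := by
  rintro _ ⟨x, ⟨hx1, hx2⟩, rfl⟩ v
  have hx0 : x ≠ 0 := hx2
  rw [mem_ball_zero_iff] at hx1
  rw [inj_inner]
  have h1 := SB_support h hx0 v
  have hcs := inj_cs hx0 v
  have hG : 0 ≤ G v := by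
    have := SB_lower h v
    have h4 : 0 ≤ (1 - R) * ‖v‖ := mul_nonneg (by linarith) (norm_nonneg _)
    linarith
  have h2 : 0 ≤ τ * (‖v‖ - inner ℝ x v / ‖x‖) := mul_nonneg hτ hcs
  have h3 : ∑ i, v i * pd i G x ≤ G v := by linarith
  calc ‖x‖ * ∑ i, v i * pd i G x ≤ ‖x‖ * G v := mul_le_mul_of_nonneg_left h3 (norm_nonneg _)
    _ ≤ 1 * G v := mul_le_mul_of_nonneg_right hx1.le hG
    _ = G v := one_mul _

end Pool.Agent.MEIS
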