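import Pool.Agent.MEIS.Defs

set_option autoImplicit false

open MeasureTheory Set Metric

namespace Pool.Agent.MEIS

/-- Second elementary symmetric function of a `3 × 3` array. -/
noncomputable def s2 (M : Fin 3 → Fin 3 → ℝ) : ℝ := ((∑ i, M i i) ^ 2 - ∑ i, ∑ j, (M i j) ^ 2) / 2

private theorem LIN_expand (M : Fin 3 → Fin 3 → ℝ) (hs : ∀ i j, M i j = M j i) :
    s2 M = (M 0 0 * M 1 1 - M 0 1 ^ 2) + (M 0 0 * M 2 2 - M 0 2 ^ 2) +
      (M 1 1 * M 2 2 - M 1 2 ^ 2) := by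
  unfold s2
  simp only [Fin.sum_univ_three]
  rw [hs 1 0, hs 2 0, hs 2 1]
  ring

theorem s2_nonneg (M : Fin 3 → Fin 3 → ℝ) (hs : ∀ i j, M i j = M j i)
    (hm : ∀ i j, (M i j) ^ 2 ≤ M i i * M j j) : 0 ≤ s2 M := by
  rw [LIN_expand M hs]
  linarith [hm 0 1, hm 0 2, hm 1 2]

private theorem LIN_mixed {a b c d x y : ℝ} (ha : 0 ≤ a) (hb : 0 ≤ b) (hc : 0 ≤ c) (hd : 0 ≤ d)
    (hx : x ^ 2 ≤ a * b) (hy : y ^ 2 ≤ c * d) : 2 * (x * y) ≤ a * d + b * c := by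
  have h0 : 0 ≤ a * d + b * c := by positivity
  have h1 : x ^ 2 * y ^ 2 ≤ (a * b) * (c * d) :=
    mul_le_mul hx hy (sq_nonneg y) (by positivity)
  refine le_of_sq_le_sq_aux h0 ?_
  nlinarith [sq_nonneg (a * d - b * c)]
where
  le_of_sq_le_sq_aux {s t : ℝ} (ht : 0 ≤ t) (h : s ^ 2 ≤ t ^ 2) : s ≤ t := by
    by_contra hcon
    rw [not_le] at hcon
    nlinarith

/-- Mixed discriminants are nonnegative. -/
theorem s2_add_le (M N : Fin 3 → Fin 3 → ℝ) (hMs : ∀ i j, M i j = M j i)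
    (hNs : ∀ i j, N i j = N j i) (hMd : ∀ i, 0 ≤ M i i) (hNd : ∀ i, 0 ≤ N i i)
    (hM : ∀ i j, (M i j) ^ 2 ≤ M i i * M j j) (hN : ∀ i j, (N i j) ^ 2 ≤ N i i * N j j) :
    s2 M + s2 N ≤ s2 (fun i j => M i j + N i j) := by
  rw [LIN_expand M hMs, LIN_expand N hNs,
    LIN_expand (fun i j => M i j + N i j) (fun i j => by rw [hMs i j, hNs i j])]
  have h1 := LIN_mixed (hMd 0) (hMd 1) (hNd 0) (hNd 1) (hM 0 1) (hN 0 1)
  have h2 := LIN_mixed (hMd 0) (hMd 2) (hNd 0) (hNd 2) (hM 0 2) (hN 0 2)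
  have h3 := LIN_mixed (hMd 1) (hMd 2) (hNd 1) (hNd 2) (hM 1 2) (hN 1 2)
  nlinarith

/-- Projection onto the orthogonal complement of a unit vector. -/
theorem s2_proj (u : Fin 3 → ℝ) (hu : ∑ i, u i ^ 2 = 1) :
    s2 (fun i j => (if i = j then (1 : ℝ) else 0) - u i * u j) = 1 := by
  rw [Fin.sum_univ_three] at hu
  unfold s2
  simp only [Fin.sum_univ_three, Fin.isValue, if_true, Fin.reduceEq, if_false]
  linear_combination (-2) * hu

theorem s2_shift (c : ℝ) (m : Fin 3 → Fin 3 → ℝ) (hs : ∀ i j, m i j = m j i) (u : Fin 3 → ℝ)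
    (hu : ∑ i, u i ^ 2 = 1) (hmu : ∀ i, ∑ j, u j * m i j = 0) :
    s2 (fun i j => m i j + c * ((if i = j then (1 : ℝ) else 0) - u i * u j)) =
      c ^ 2 + c * (∑ i, m i i) + s2 m := by
  have h0 := hmu 0
  have h1 := hmu 1
  have h2 := hmu 2
  rw [Fin.sum_univ_three] at hu h0 h1 h2
  unfold s2
  simp only [Fin.sum_univ_three, Fin.isValue, if_true, Fin.reduceEq, if_false]
  linear_combination (-(c * (m 0 0 + m 1 1 + m 2 2)) - 2 * c ^ 2) * hu + c * u 0 * h0 +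
    c * u 1 * h1 + c * u 2 * h2

end Pool.Agent.MEIS
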