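import Pool.Agent.MEIS.Defs

set_option autoImplicit false

open MeasureTheory Set Metric

namespace Pool.Agent.MEIS

/-- Polar coordinates for a product of a radial function and a function of degree zero. -/
theorem polar (χ : ℝ → ℝ) {f : E → ℝ} (hh : Hom 0 f) :
    ∫ x : E, χ ‖x‖ * f x = (∫ r in Ioi (0 : ℝ), r ^ 2 * χ r) * SI f := by
  have hdim : Module.finrank ℝ E - 1 = 2 := by simp
  have hf0 : ∀ x : E, x ≠ 0 → f x = f (‖x‖⁻¹ • x) := by
    intro x hx
    have hn : 0 < ‖x‖ := norm_pos_iff.2 hx
    have h1 := hh ‖x‖⁻¹ (inv_pos.2 hn) x hx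
    rw [zpow_zero, one_mul] at h1
    exact h1.symm
  calc ∫ x : E, χ ‖x‖ * f x
      = ∫ x : ({(0)}ᶜ : Set E), (χ ‖x.1‖ * f x.1) ∂((volume : Measure E).comap (↑)) := by
        rw [integral_subtype_comap (measurableSet_singleton _).compl
          fun x : E ↦ χ ‖x‖ * f x, restrict_compl_singleton]
    _ = ∫ x : (sphere (0 : E) 1) × (Ioi (0 : ℝ)), f (x.1 : E) * χ x.2
          ∂(volume : Measure E).toSphere.prod (.volumeIoiPow (Module.finrank ℝ E - 1)) := by
        have h1 := (volume : Measure E).measurePreserving_homeomorphUnitSphereProd.integral_comp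
          (Homeomorph.measurableEmbedding _)
          (fun z : (sphere (0 : E) 1) × (Ioi (0 : ℝ)) => f (z.1 : E) * χ z.2)
        rw [← h1]
        refine integral_congr_ae (Filter.Eventually.of_forall fun x => ?_)
        have hx : (x : E) ≠ 0 := x.2
        simp only [homeomorphUnitSphereProd_apply_fst_coe, homeomorphUnitSphereProd_apply_snd_coe]
        rw [← hf0 _ hx, mul_comm]
    _ = SI f * ∫ x : Ioi (0 : ℝ), χ x ∂.volumeIoiPow (Module.finrank ℝ E - 1) := by
        rw [SI]
        exact integral_prod_mul (fun u : sphere (0 : E) 1 => f (u : E))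
          (fun r : Ioi (0 : ℝ) => χ r)
    _ = _ := by
        rw [hdim, mul_comm (SI f)]
        congr 1
        simp only [Measure.volumeIoiPow, ENNReal.ofReal]
        rw [integral_withDensity_eq_integral_smul,
          integral_subtype_comap measurableSet_Ioi fun a ↦ Real.toNNReal (a ^ 2) • χ a,
          setIntegral_congr_fun measurableSet_Ioi fun x hx ↦ ?_]
        · rw [NNReal.smul_def, Real.coe_toNNReal _ (pow_nonneg hx.out.le _), smul_eq_mul]
        · exact (measurable_subtype_coe.pow_const _).real_toNNReal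

/-- The same over the punctured unit ball without radial weight. -/
theorem polar_ball {f : E → ℝ} (hh : Hom 0 f) :
    ∫ x in ball (0 : E) 1 \ {0}, f x = (1 / 3) * SI f := by
  have h1 := polar (fun r => if r < 1 then (1 : ℝ) else 0) hh
  have h2 : ∫ x : E, (if ‖x‖ < 1 then (1 : ℝ) else 0) * f x
      = ∫ x in ball (0 : E) 1 \ {0}, f x := by
    have h3 : ∫ x in ball (0 : E) 1 \ {0}, f x = ∫ x in ball (0 : E) 1, f x := by
      apply setIntegral_congr_set
      apply MeasureTheory.sdiff_null_ae_eq_self
      simp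
    rw [h3, ← integral_indicator measurableSet_ball]
    refine integral_congr_ae (Filter.Eventually.of_forall fun x => ?_)
    simp only [Set.indicator, mem_ball_zero_iff]
    split_ifs <;> simp
  have h3 : ∫ r in Ioi (0 : ℝ), r ^ 2 * (if r < 1 then (1 : ℝ) else 0) = 1 / 3 := by
    have h4 : ∫ r in Ioi (0 : ℝ), r ^ 2 * (if r < 1 then (1 : ℝ) else 0)
        = ∫ r in Ioo (0 : ℝ) 1, r ^ 2 := by
      rw [← integral_indicator measurableSet_Ioi, ← integral_indicator measurableSet_Ioo]
      refine integral_congr_ae (Filter.Eventually.of_forall fun x => ?_)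
      simp only [Set.indicator, mem_Ioi, mem_Ioo]
      by_cases hx0 : 0 < x <;> by_cases hx1 : x < 1 <;> simp [hx0, hx1]
    rw [h4, ← integral_Ioc_eq_integral_Ioo, ← intervalIntegral.integral_of_le zero_le_one,
      integral_pow]
    norm_num
  rw [← h2, h1, h3]

end Pool.Agent.MEIS
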