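import Pool.Agent.MEIS.Defs
import Pool.Agent.MEIS.SMA
import Pool.Agent.MEIS.PDR
import Pool.Agent.MEIS.HOM
import Pool.Agent.MEIS.NRM
import Pool.Agent.MEIS.GRD

set_option autoImplicit false

open MeasureTheory Set Metric

namespace Pool.Agent.MEIS

/-- The gradient at another point is a worse functional. -/
theorem psd_aux {G : E → ℝ} {R τ : ℝ} (h : SB G R τ) (hτ : 0 ≤ τ) {x y : E} (hx : x ≠ 0)
    (hy : y ≠ 0) : ∑ i, x i * pd i G y ≤ ∑ i, x i * pd i G x := by
  have h1 := SB_support h hy x
  have h2 := SB_self h hx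
  have hy0 : 0 < ‖y‖ := norm_pos_iff.2 hy
  have h3 : 0 ≤ ‖x‖ - inner ℝ y x / ‖y‖ := by
    rw [sub_nonneg, div_le_iff₀ hy0]
    have := real_inner_le_norm y x
    linarith [mul_comm ‖x‖ ‖y‖]
  have h4 := mul_nonneg hτ h3
  rw [h2]
  linarith

/-- The Hessian of `G` is positive semidefinite. -/
theorem SB_psd {G : E → ℝ} {R τ : ℝ} (h : SB G R τ) (hτ : 0 ≤ τ) {x : E} (hx : x ≠ 0) (v : E) :
    0 ≤ ∑ i, ∑ j, v i * v j * pd i (pd j G) x := by
  have hpd : ∀ j, Sm 2 (pd j G) := fun j => sm_pd h.sm j
  have hpd1 : ∀ j, Sm 1 (pd j G) := fun j => sm_mono (hpd j) (by norm_num)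
  have hD1 : Sm 1 (fun y => ∑ j ∈ (Finset.univ : Finset (Fin 3)), v j * pd j G y) :=
    sm_sum Finset.univ (fun j _ => sm_cmul (v j) (hpd1 j))
  set D : E → ℝ := fun y => ∑ j ∈ (Finset.univ : Finset (Fin 3)), v j * pd j G y with hD
  have hDx : DifferentiableAt ℝ D x := sm_differentiableAt hD1 hx
  have e1 : fderiv ℝ D x v = ∑ i, ∑ j, v i * v j * pd i (pd j G) x := by
    rw [fderiv_pd]
    apply Finset.sum_congr rfl
    intro i _
    have : pd i D x = ∑ j, v j * pd i (pd j G) x := by
      rw [hD, pd_sum Finset.univ (fun j _ => sm_cmul (v j) (hpd1 j)) hx i]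
      apply Finset.sum_congr rfl
      intro j _
      exact pd_cmul (v j) (hpd1 j) hx i
    rw [this, Finset.mul_sum]
    apply Finset.sum_congr rfl
    intro j _
    ring
  rw [← e1]
  -- the function along the line
  have hline : HasDerivAt (fun t : ℝ => x + t • v) v 0 := by
    have h1 : HasDerivAt (fun t : ℝ => t • v) ((1 : ℝ) • v) 0 :=
      (hasDerivAt_id (0 : ℝ)).smul_const v
    rw [one_smul] at h1
    simpa using h1.const_add x
  have hcomp : HasDerivAt (fun t : ℝ => D (x + t • v)) (fderiv ℝ D x v) 0 := by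
    have hF : HasFDerivAt D (fderiv ℝ D x) (x + (0 : ℝ) • v) := by
      simpa using hDx.hasFDerivAt
    exact hF.comp_hasDerivAt (0 : ℝ) hline
  have hslope := hcomp.tendsto_slope_zero_right
  refine ge_of_tendsto hslope ?_
  -- near zero the point is not the origin
  have hne : ∀ᶠ t : ℝ in nhds 0, x + t • v ≠ 0 := by
    have hc : ContinuousAt (fun t : ℝ => x + t • v) 0 := hline.continuousAt
    apply hc.eventually_ne
    simpa using hx
  have hne' : ∀ᶠ t : ℝ in nhdsWithin 0 (Ioi 0), x + t • v ≠ 0 :=
    hne.filter_mono nhdsWithin_le_nhds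
  filter_upwards [hne', self_mem_nhdsWithin] with t ht ht0
  have ht0' : (0 : ℝ) < t := ht0
  have m1 := psd_aux h hτ hx ht
  have m2 := psd_aux h hτ ht hx
  simp only [zero_add, zero_smul, add_zero, smul_eq_mul]
  apply mul_nonneg (inv_nonneg.2 ht0'.le)
  have m3 : ∑ i, (x + t • v) i * pd i G x = ∑ i, x i * pd i G x + t * D x := by
    rw [hD, Finset.mul_sum, ← Finset.sum_add_distrib]
    apply Finset.sum_congr rfl
    intro i _
    simp only [PiLp.add_apply, PiLp.smul_apply, smul_eq_mul]
    ring
  have m4 : ∑ i, (x + t • v) i * pd i G (x + t • v) =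
      ∑ i, x i * pd i G (x + t • v) + t * D (x + t • v) := by
    rw [hD, Finset.mul_sum, ← Finset.sum_add_distrib]
    apply Finset.sum_congr rfl
    intro i _
    simp only [PiLp.add_apply, PiLp.smul_apply, smul_eq_mul]
    ring
  rw [m3, m4] at m2
  have m5 : 0 ≤ t * (D (x + t • v) - D x) := by
    rw [mul_sub]
    linarith
  exact nonneg_of_mul_nonneg_right m5 ht0'

theorem SB_diag {G : E → ℝ} {R τ : ℝ} (h : SB G R τ) (hτ : 0 ≤ τ) {x : E} (hx : x ≠ 0)
    (i : Fin 3) : 0 ≤ pd i (pd i G) x := by
  have h1 := SB_psd h hτ hx (EuclideanSpace.single i (1 : ℝ))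
  have e : ∑ k, ∑ j, (EuclideanSpace.single i (1 : ℝ) : E) k *
      (EuclideanSpace.single i (1 : ℝ) : E) j * pd k (pd j G) x = pd i (pd i G) x := by
    rw [Finset.sum_eq_single i]
    · rw [Finset.sum_eq_single i]
      · simp
      · intro j _ hj
        simp [hj]
      · simp
    · intro k _ hk
      apply Finset.sum_eq_zero
      intro j _
      simp [hk]
    · simp
  rwa [e] at h1

theorem SB_minor {G : E → ℝ} {R τ : ℝ} (h : SB G R τ) (hτ : 0 ≤ τ) {x : E} (hx : x ≠ 0)
    (i j : Fin 3) : (pd i (pd j G) x) ^ 2 ≤ pd i (pd i G) x * pd j (pd j G) x := by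
  have hs : ∀ a b, pd a (pd b G) x = pd b (pd a G) x := fun a b =>
    pd_comm (sm_mono h.sm (by norm_num)) hx a b
  by_cases hij : i = j
  · subst hij
    rw [sq]
  have key : ∀ t : ℝ, 0 ≤ pd i (pd i G) x * (t * t) + (2 * pd i (pd j G) x) * t +
      pd j (pd j G) x := by
    intro t
    have h1 := SB_psd h hτ hx (EuclideanSpace.single i t + EuclideanSpace.single j (1 : ℝ))
    have e : ∀ k, (EuclideanSpace.single i t + EuclideanSpace.single j (1 : ℝ) : E) k =
        (if k = i then t else 0) + (if k = j then 1 else 0) := by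
      intro k
      simp [PiLp.add_apply, Pi.single_apply]
    simp only [e] at h1
    have e2 : ∑ k, ∑ m, ((if k = i then t else 0) + (if k = j then (1 : ℝ) else 0)) *
        ((if m = i then t else 0) + (if m = j then (1 : ℝ) else 0)) * pd k (pd m G) x =
        pd i (pd i G) x * (t * t) + (2 * pd i (pd j G) x) * t + pd j (pd j G) x := by
      have inner_sum : ∀ k, ∑ m, ((if k = i then t else 0) + (if k = j then (1 : ℝ) else 0)) *
          ((if m = i then t else 0) + (if m = j then (1 : ℝ) else 0)) * pd k (pd m G) x =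
          ((if k = i then t else 0) + (if k = j then (1 : ℝ) else 0)) *
            (t * pd k (pd i G) x + pd k (pd j G) x) := by
        intro k
        have : ∀ m, ((if k = i then t else 0) + (if k = j then (1 : ℝ) else 0)) *
          ((if m = i then t else 0) + (if m = j then (1 : ℝ) else 0)) * pd k (pd m G) x =
          (if m = i then ((if k = i then t else 0) + (if k = j then (1 : ℝ) else 0)) * t *
            pd k (pd m G) x else 0) +
          (if m = j then ((if k = i then t else 0) + (if k = j then (1 : ℝ) else 0)) *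
            pd k (pd m G) x else 0) := by
          intro m
          split_ifs <;> ring
        simp only [this]
        rw [Finset.sum_add_distrib, Finset.sum_ite_eq' Finset.univ i,
          Finset.sum_ite_eq' Finset.univ j]
        simp only [Finset.mem_univ, if_true]
        ring
      simp only [inner_sum]
      have : ∀ k, ((if k = i then t else 0) + (if k = j then (1 : ℝ) else 0)) *
            (t * pd k (pd i G) x + pd k (pd j G) x) =
          (if k = i then t * (t * pd k (pd i G) x + pd k (pd j G) x) else 0) +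
          (if k = j then (t * pd k (pd i G) x + pd k (pd j G) x) else 0) := by
        intro k
        split_ifs <;> ring
      simp only [this]
      rw [Finset.sum_add_distrib, Finset.sum_ite_eq' Finset.univ i,
          Finset.sum_ite_eq' Finset.univ j]
      simp only [Finset.mem_univ, if_true]
      rw [hs j i]
      ring
    rw [e2] at h1
    exact h1
  have hd := discrim_le_zero key
  unfold discrim at hd
  nlinarith

end Pool.Agent.MEIS
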