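import Pool.Agent.MEIS.Defs

set_option autoImplicit false

open MeasureTheory Set Metric

namespace Pool.Agent.MEIS

theorem sia_cont {f : E → ℝ} (hf : Sm 0 f) :
    Continuous (fun u : sphere (0 : E) 1 => f (u : E)) := by
  have h : ContinuousOn f ({0}ᶜ : Set E) := hf.continuousOn
  refine h.comp_continuous continuous_subtype_val fun u => ?_
  have hu : ‖(u : E)‖ = 1 := by simp
  intro h0
  rw [mem_singleton_iff] at h0
  rw [h0, norm_zero] at hu
  exact zero_ne_one hu

/-- Functions continuous off the origin are integrable on the sphere. -/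
theorem SI_integrable {f : E → ℝ} (hf : Sm 0 f) :
    Integrable (fun u : sphere (0 : E) 1 => f (u : E)) ((volume : Measure E).toSphere) :=
  (sia_cont hf).integrable_of_hasCompactSupport (HasCompactSupport.of_compactSpace _)

theorem SI_add {f g : E → ℝ} (hf : Sm 0 f) (hg : Sm 0 g) :
    SI (fun x => f x + g x) = SI f + SI g :=
  integral_add (SI_integrable hf) (SI_integrable hg)

theorem SI_sub {f g : E → ℝ} (hf : Sm 0 f) (hg : Sm 0 g) :
    SI (fun x => f x - g x) = SI f - SI g :=
  integral_sub (SI_integrable hf) (SI_integrable hg)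

theorem SI_cmul (c : ℝ) (f : E → ℝ) : SI (fun x => c * f x) = c * SI f :=
  integral_const_mul c _

theorem SI_const (c : ℝ) : SI (fun _ => c) = 4 * Real.pi * c := by
  unfold SI
  rw [integral_const, Measure.toSphere_real_apply_univ, smul_eq_mul, Measure.real,
    EuclideanSpace.volume_ball_fin_three, ENNReal.toReal_mul, ENNReal.toReal_pow,
    ENNReal.toReal_ofReal (by positivity), ENNReal.toReal_ofReal (by positivity),
    finrank_euclideanSpace, Fintype.card_fin]
  push_cast
  ring

theorem SI_nonneg {f : E → ℝ} (h : ∀ x : E, ‖x‖ = 1 → 0 ≤ f x) : 0 ≤ SI f := by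
  refine integral_nonneg fun u => h u ?_
  simp

theorem SI_congr {f g : E → ℝ} (h : ∀ x : E, ‖x‖ = 1 → f x = g x) : SI f = SI g := by
  unfold SI
  congr 1
  funext u
  exact h u (by simp)

end Pool.Agent.MEIS
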