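import Pool.Agent.MEIS.Defs
import Pool.Agent.MEIS.SMA
import Pool.Agent.MEIS.HOM
import Pool.Agent.MEIS.SIA
import Pool.Agent.MEIS.POL
import Pool.Agent.MEIS.GRD
import Pool.Agent.MEIS.PSD
import Pool.Agent.MEIS.LIN
import Pool.Agent.MEIS.PSI
import Pool.Agent.MEIS.INJ

set_option autoImplicit false

open MeasureTheory Set Metric

namespace Pool.Agent.MEIS

theorem cov_hom {G : E → ℝ} {R τ : ℝ} (h : SB G R τ) :
    Hom 0 (fun x : E => ‖x‖ * G x * sg G x) := by
  have h1 : Hom 1 G := SB_hom h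
  have h2 : Sm 2 G := sm_mono h.sm (by norm_num)
  have h3 := hom_mul (hom_mul hom_norm h1) (hom_sg h2 h1)
  norm_num at h3
  exact h3

/-- Lower bound for the volume of the body by the change of variables `Psi`. -/
theorem volume_body_ge {G : E → ℝ} {R τ : ℝ} (h : SB G R τ) (hτ : 0 < τ) (hR : R < 1) :
    ENNReal.ofReal ((1 / 3) * SI (fun x => G x * sg G x)) ≤ volume (Body G) := by
  have hS : MeasurableSet (ball (0 : E) 1 \ {0}) :=
    measurableSet_ball.diff (measurableSet_singleton 0)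
  have e1 : SI (fun x => G x * sg G x) = SI (fun x => ‖x‖ * G x * sg G x) := by
    apply SI_congr
    intro x hx
    rw [hx, one_mul]
  rw [e1, ← polar_ball (cov_hom h)]
  have e2 : ∫⁻ x in ball (0 : E) 1 \ {0}, ENNReal.ofReal |(fderiv ℝ (Psi G) x).det| ∂volume =
      volume (Psi G '' (ball (0 : E) 1 \ {0})) := by
    apply lintegral_abs_det_fderiv_eq_addHaar_image volume hS
    · intro x hx
      exact (Psi_hasFDerivAt h (fun h0 => hx.2 h0)).hasFDerivWithinAt
    · exact Psi_injOn h hτ hR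
  calc ENNReal.ofReal (∫ x in ball (0 : E) 1 \ {0}, ‖x‖ * G x * sg G x)
      ≤ ENNReal.ofReal |∫ x in ball (0 : E) 1 \ {0}, ‖x‖ * G x * sg G x| :=
        ENNReal.ofReal_le_ofReal (le_abs_self _)
    _ = ‖∫ x in ball (0 : E) 1 \ {0}, ‖x‖ * G x * sg G x‖ₑ := by
        rw [← Real.norm_eq_abs, ofReal_norm]
    _ ≤ ∫⁻ x in ball (0 : E) 1 \ {0}, ‖‖x‖ * G x * sg G x‖ₑ :=
        enorm_integral_le_lintegral_enorm _
    _ = ∫⁻ x in ball (0 : E) 1 \ {0}, ENNReal.ofReal |(fderiv ℝ (Psi G) x).det| := by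
        apply setLIntegral_congr_fun hS
        intro x hx
        have hx0 : x ≠ 0 := fun h0 => hx.2 h0
        simp only
        rw [Psi_det h hx0, ← Real.norm_eq_abs, ofReal_norm]
    _ = volume (Psi G '' (ball (0 : E) 1 \ {0})) := e2
    _ ≤ volume (Body G) := measure_mono (Psi_image h hτ.le hR)

end Pool.Agent.MEIS
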