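import Pool.Agent.MEIS.Defs

set_option autoImplicit false

open MeasureTheory Set Metric

namespace Pool.Agent.MEIS

theorem crt_pos {K a z g s q P : ℝ} (ha : 0 < a) (hK1 : K ≤ 1 / 2) (haz : a * K ≤ z)
    (hz : z ≤ 1 / 4)
    (hL : (1 / 2 - 3 * a - 2 * z + a * K) ^ 2 ≤ 36 * a * (z - a * K))
    (h1 : 0 ≤ 1 / 4 + s / 2 + q) (h2 : 0 ≤ 1 / 4 - s / 2 + q) (h3 : q ≤ 1 / 4)
    (h4 : g ^ 2 ≤ P) (h5 : P ≤ K - g) (hg : 0 ≤ g) :
    0 ≤ z - a * (P + g * s - 3 * g ^ 2) + 2 * z * (2 * q - g * s)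
      - a * (4 * P * q - 2 * g ^ 2 * q - g * s * P) + g * s / 2 := by
  have hP : 0 ≤ P := le_trans (sq_nonneg g) h4
  have hgK : g ≤ K := by linarith
  have hK0 : 0 ≤ K := le_trans hg hgK
  have key : 0 ≤ 2 * (z - a * K) - g * (1 / 2 - 3 * a - 2 * z + a * K) + 9 / 2 * a * g ^ 2 := by
    set L := 1 / 2 - 3 * a - 2 * z + a * K with hLd
    have h6 : 0 ≤ 18 * a * (2 * (z - a * K) - g * L + 9 / 2 * a * g ^ 2) := by
      nlinarith [sq_nonneg (9 * a * g - L)]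
    have h7 : 0 < 18 * a := by linarith
    exact nonneg_of_mul_nonneg_right h6 h7
  have hm : 0 ≤ (2 * z - 2 * a * P + 7 / 2 * a * g ^ 2)
      - g * (1 / 2 - a - 2 * z + a * P) := by
    have h8 : 0 ≤ (2 * a + a * g) * (K - g - P) :=
      mul_nonneg (by nlinarith) (by linarith)
    nlinarith
  have hp : 0 ≤ (2 * z - 2 * a * P + 7 / 2 * a * g ^ 2)
      + g * (1 / 2 - a - 2 * z + a * P) := by
    have h8 : 0 ≤ a * (2 - g) * (K - g - P) :=
      mul_nonneg (mul_nonneg ha.le (by linarith)) (by linarith)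
    have h9 : 0 ≤ g * (1 / 2 + a - 2 * z + a * K) := by
      apply mul_nonneg hg
      have : 0 ≤ a * K := mul_nonneg ha.le hK0
      linarith
    have h10 : 0 ≤ a * g ^ 2 := by positivity
    nlinarith
  have e : z - a * (P + g * s - 3 * g ^ 2) + 2 * z * (2 * q - g * s)
      - a * (4 * P * q - 2 * g ^ 2 * q - g * s * P) + g * s / 2 =
      (1 / 4 + s / 2 + q) * ((2 * z - 2 * a * P + 7 / 2 * a * g ^ 2)
      + g * (1 / 2 - a - 2 * z + a * P)) + (1 / 4 - s / 2 + q) *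
      ((2 * z - 2 * a * P + 7 / 2 * a * g ^ 2) - g * (1 / 2 - a - 2 * z + a * P))
      + (1 / 2 - 2 * q) * (5 / 2 * a * g ^ 2) := by ring
  rw [e]
  have t3 : 0 ≤ (1 / 2 - 2 * q) * (5 / 2 * a * g ^ 2) :=
    mul_nonneg (by linarith) (by positivity)
  exact add_nonneg (add_nonneg (mul_nonneg h1 hp) (mul_nonneg h2 hm)) t3

/-- The pointwise certificate. -/
theorem certificate {K a z g s q P : ℝ} (ha : 0 < a) (hK1 : K ≤ 1 / 2) (haz : a * K ≤ z)
    (hz : z ≤ 1 / 4)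
    (hL : (1 / 2 - 3 * a - 2 * z + a * K) ^ 2 ≤ 36 * a * (z - a * K))
    (h1 : 0 ≤ 1 / 4 + s / 2 + q) (h2 : 0 ≤ 1 / 4 - s / 2 + q) (h3 : q ≤ 1 / 4)
    (h4 : g ^ 2 ≤ P) (h5 : P ≤ K - |g|) :
    0 ≤ z - a * (P + g * s - 3 * g ^ 2) + 2 * z * (2 * q - g * s)
      - a * (4 * P * q - 2 * g ^ 2 * q - g * s * P) + g * s / 2 := by
  rcases le_total 0 g with hg | hg
  · rw [abs_of_nonneg hg] at h5
    exact crt_pos ha hK1 haz hz hL h1 h2 h3 h4 h5 hg
  · rw [abs_of_nonpos hg] at h5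
    have := crt_pos (g := -g) (s := -s) (q := q) (P := P) ha hK1 haz hz hL
      (by linarith) (by linarith) h3 (by nlinarith) h5 (by linarith)
    have e : z - a * (P + g * s - 3 * g ^ 2) + 2 * z * (2 * q - g * s)
      - a * (4 * P * q - 2 * g ^ 2 * q - g * s * P) + g * s / 2 =
      z - a * (P + -g * -s - 3 * (-g) ^ 2) + 2 * z * (2 * q - -g * -s)
      - a * (4 * P * q - 2 * (-g) ^ 2 * q - -g * -s * P) + -g * -s / 2 := by ring
    rw [e]
    exact this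

end Pool.Agent.MEIS
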