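import Pool.Agent.MEIS.Defs

set_option autoImplicit false

open MeasureTheory Set Metric

namespace Pool.Agent.MEIS

theorem cut_Ioi {F : ℝ → ℝ} (h1 : ∀ r, r ≤ 1 → F r = 0) (h2 : ∀ r, 2 ≤ r → F r = 0) :
    ∫ r in Ioi (0 : ℝ), F r = ∫ r in (1 : ℝ)..2, F r := by
  rw [intervalIntegral.integral_of_le (by norm_num), ← integral_indicator measurableSet_Ioi,
    ← integral_indicator measurableSet_Ioc]
  refine integral_congr_ae (Filter.Eventually.of_forall fun x => ?_)
  simp only [Set.indicator, mem_Ioi, mem_Ioc]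
  by_cases hx1 : 1 < x
  · by_cases hx2 : x ≤ 2
    · rw [if_pos (by linarith), if_pos ⟨hx1, hx2⟩]
    · rw [if_pos (by linarith), if_neg (by intro h; exact hx2 h.2)]
      exact h2 x (by linarith)
  · rw [h1 x (by linarith)]
    simp

/-- A cut-off on the half line. -/
theorem cutoff (k : ℤ) : ∃ χ : ℝ → ℝ, ContDiff ℝ 1 χ ∧ (∀ r, r ≤ 1 → χ r = 0) ∧
    (∀ r, 2 ≤ r → χ r = 0) ∧
    0 < (∫ r in Ioi (0 : ℝ), r ^ 2 * (χ r * r ^ (k - 1))) ∧
    (∫ r in Ioi (0 : ℝ), r ^ 2 * (deriv χ r * r ^ k)) =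
      - (k + 2) * ∫ r in Ioi (0 : ℝ), r ^ 2 * (χ r * r ^ (k - 1)) := by
  let f : ContDiffBump (3 / 2 : ℝ) := ⟨1 / 4, 1 / 2, by norm_num, by norm_num⟩
  have hcd : ContDiff ℝ 1 (f : ℝ → ℝ) := f.contDiff
  have hz1 : ∀ r, r ≤ 1 → (f : ℝ → ℝ) r = 0 := by
    intro r hr
    apply f.zero_of_le_dist
    show (1 / 2 : ℝ) ≤ dist r (3 / 2)
    rw [Real.dist_eq, abs_of_nonpos (by linarith)]
    linarith
  have hz2 : ∀ r, 2 ≤ r → (f : ℝ → ℝ) r = 0 := by
    intro r hr
    apply f.zero_of_le_dist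
    show (1 / 2 : ℝ) ≤ dist r (3 / 2)
    rw [Real.dist_eq, abs_of_nonneg (by linarith)]
    linarith
  have hdiff : Differentiable ℝ (f : ℝ → ℝ) := hcd.differentiable (by norm_num)
  have hcont : Continuous (f : ℝ → ℝ) := hcd.continuous
  have hdcont : Continuous (deriv (f : ℝ → ℝ)) := hcd.continuous_deriv (by norm_num)
  have hnn : ∀ r, 0 ≤ (f : ℝ → ℝ) r := fun r => f.nonneg
  -- derivative vanishes outside (1,2)
  have hd1 : ∀ r, r ≤ 1 → deriv (f : ℝ → ℝ) r = 0 := by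
    intro r hr
    have hmin : IsLocalMin (f : ℝ → ℝ) r := by
      filter_upwards with y
      rw [hz1 r hr]
      exact hnn y
    exact hmin.deriv_eq_zero
  have hd2 : ∀ r, 2 ≤ r → deriv (f : ℝ → ℝ) r = 0 := by
    intro r hr
    have hmin : IsLocalMin (f : ℝ → ℝ) r := by
      filter_upwards with y
      rw [hz2 r hr]
      exact hnn y
    exact hmin.deriv_eq_zero
  have hcz : ∀ m : ℤ, ContinuousOn (fun r : ℝ => r ^ m) (uIcc (1 : ℝ) 2) := by
    intro m r hr
    rw [uIcc_of_le (by norm_num)] at hr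
    exact (continuousAt_zpow₀ r m (Or.inl (by linarith [hr.1]))).continuousWithinAt
  have hI1 : IntervalIntegrable (fun r : ℝ => r ^ 2 * ((f : ℝ → ℝ) r * r ^ (k - 1))) volume 1 2 := by
    apply ContinuousOn.intervalIntegrable
    exact (continuous_pow 2).continuousOn.mul (hcont.continuousOn.mul (hcz (k - 1)))
  have hI2 : IntervalIntegrable (fun r : ℝ => r ^ 2 * (deriv (f : ℝ → ℝ) r * r ^ k)) volume 1 2 := by
    apply ContinuousOn.intervalIntegrable
    exact (continuous_pow 2).continuousOn.mul (hdcont.continuousOn.mul (hcz k))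
  refine ⟨f, hcd, hz1, hz2, ?_, ?_⟩
  · rw [cut_Ioi (fun r hr => by rw [hz1 r hr]; ring) (fun r hr => by rw [hz2 r hr]; ring)]
    apply intervalIntegral.intervalIntegral_pos_of_pos_on hI1 _ (by norm_num)
    intro r hr
    have hr0 : 0 < r := by linarith [hr.1]
    have hf : 0 < (f : ℝ → ℝ) r := by
      apply f.pos_of_mem_ball
      show dist r (3 / 2) < 1 / 2
      rw [Real.dist_eq, abs_lt]
      constructor <;> linarith [hr.1, hr.2]
    positivity
  · rw [cut_Ioi (F := fun r : ℝ => r ^ 2 * (deriv (f : ℝ → ℝ) r * r ^ k))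
        (fun r hr => by rw [hd1 r hr]; ring) (fun r hr => by rw [hd2 r hr]; ring),
      cut_Ioi (F := fun r : ℝ => r ^ 2 * ((f : ℝ → ℝ) r * r ^ (k - 1)))
        (fun r hr => by rw [hz1 r hr]; ring) (fun r hr => by rw [hz2 r hr]; ring)]
    have hder : ∀ r ∈ uIcc (1 : ℝ) 2, HasDerivAt (fun r : ℝ => (f : ℝ → ℝ) r * r ^ (k + 2))
        (r ^ 2 * (deriv (f : ℝ → ℝ) r * r ^ k)
          + (k + 2) * (r ^ 2 * ((f : ℝ → ℝ) r * r ^ (k - 1)))) r := by
      intro r hr
      rw [uIcc_of_le (by norm_num)] at hr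
      have hr0 : r ≠ 0 := by linarith [hr.1]
      have h1 : HasDerivAt (fun r : ℝ => (f : ℝ → ℝ) r * r ^ (k + 2)) _ r :=
        (hdiff r).hasDerivAt.mul (hasDerivAt_zpow (k + 2) r (Or.inl hr0))
      refine h1.congr_deriv ?_
      have e1 : r ^ (k + 2) = r ^ 2 * r ^ k := by
        rw [zpow_add₀ hr0, mul_comm]; norm_cast
      have e2 : r ^ (k + 2 - 1) = r ^ 2 * r ^ (k - 1) := by
        rw [show k + 2 - 1 = (k - 1) + 2 by ring, zpow_add₀ hr0, mul_comm]; norm_cast
      rw [e1, e2]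
      push_cast
      ring
    have hint := intervalIntegral.integral_eq_sub_of_hasDerivAt hder
      (hI2.add (hI1.const_mul _))
    rw [intervalIntegral.integral_add hI2 (hI1.const_mul _),
      intervalIntegral.integral_const_mul, hz1 1 le_rfl, hz2 2 le_rfl] at hint
    linarith

end Pool.Agent.MEIS
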