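import Pool.Agent.MEIS.Defs

set_option autoImplicit false

open MeasureTheory Set Metric

namespace Pool.Agent.MEIS

/-- Integrability of the partial derivatives of a compactly supported `C^1` function. -/
theorem integrable_pd {f : E → ℝ} (hf : ContDiff ℝ 1 f) (hc : HasCompactSupport f) (i : Fin 3) :
    Integrable (pd i f) := by
  have h1 : Continuous (pd i f) := by
    have := (hf.continuous_fderiv (by norm_num)).clm_apply
      (continuous_const (y := (EuclideanSpace.single i (1 : ℝ) : E)))
    exact this
  have h2 : HasCompactSupport (pd i f) := by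
    exact hc.fderiv_apply ℝ _
  exact h1.integrable_of_hasCompactSupport h2

theorem dvt_single {f : E → ℝ} (hf : ContDiff ℝ 1 f) (hc : HasCompactSupport f) (i : Fin 3) :
    ∫ x : E, pd i f x = 0 := by
  have h := integral_mul_fderiv_eq_neg_fderiv_mul_of_integrable (μ := (volume : Measure E))
    (f := fun _ : E => (1 : ℝ)) (g := f) (v := EuclideanSpace.single i (1 : ℝ))
    (by simp) (by
      have h0 : Integrable (fun x : E => fderiv ℝ f x (EuclideanSpace.single i (1 : ℝ))) :=
        integrable_pd hf hc i
      simpa using h0)
    (by simpa using hf.continuous.integrable_of_hasCompactSupport hc)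
    (fun x _ => by fun_prop) (fun x _ => hf.differentiable (by norm_num) x)
  simpa [pd] using h

/-- Divergence theorem for compactly supported fields on the whole space. -/
theorem integral_div_eq_zero (Y : Fin 3 → E → ℝ) (hY : ∀ i, ContDiff ℝ 1 (Y i))
    (hc : ∀ i, HasCompactSupport (Y i)) :
    ∫ x : E, ∑ i, pd i (Y i) x = 0 := by
  rw [integral_finsetSum _ (fun i _ => integrable_pd (hY i) (hc i) i)]
  exact Finset.sum_eq_zero (fun i _ => dvt_single (hY i) (hc i) i)

end Pool.Agent.MEIS
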