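import Pool.Agent.MEIS.Defs
import Pool.Agent.MEIS.SMA
import Pool.Agent.MEIS.PDR
import Pool.Agent.MEIS.HOM
import Pool.Agent.MEIS.SIA
import Pool.Agent.MEIS.POL
import Pool.Agent.MEIS.CUT
import Pool.Agent.MEIS.DVT
import Pool.Agent.MEIS.NRM

set_option autoImplicit false

open MeasureTheory Set Metric

namespace Pool.Agent.MEIS

/-- Continuity of a radial cut-off times a function continuous off the origin. -/
theorem div_cont {φ : ℝ → ℝ} (hφ : Continuous φ) (h1 : ∀ r, r < 1 → φ r = 0)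
    {f : E → ℝ} (hf : Sm 0 f) : Continuous (fun x : E => φ ‖x‖ * f x) := by
  rw [continuous_iff_continuousAt]
  intro x
  by_cases hx : x = 0
  · subst hx
    have h : (fun x : E => φ ‖x‖ * f x) =ᶠ[nhds 0] fun _ => 0 := by
      have : ∀ᶠ y : E in nhds 0, ‖y‖ < 1 := by
        have := ball_mem_nhds (0 : E) one_pos
        filter_upwards [this] with y hy
        simpa using hy
      filter_upwards [this] with y hy
      rw [h1 _ hy, zero_mul]
    exact continuousAt_const.congr h.symm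
  · exact (hφ.continuousAt.comp continuous_norm.continuousAt).mul
      (sm_contDiffAt hf hx).continuousAt

theorem div_supp {φ : ℝ → ℝ} (h2 : ∀ r, 2 < r → φ r = 0) (f : E → ℝ) :
    HasCompactSupport (fun x : E => φ ‖x‖ * f x) := by
  apply HasCompactSupport.intro (isCompact_closedBall (0 : E) 2)
  intro x hx
  have : 2 < ‖x‖ := by simpa using hx
  rw [h2 _ this, zero_mul]

theorem div_integrable {φ : ℝ → ℝ} (hφ : Continuous φ) (h1 : ∀ r, r < 1 → φ r = 0)
    (h2 : ∀ r, 2 < r → φ r = 0) {f : E → ℝ} (hf : Sm 0 f) :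
    Integrable (fun x : E => φ ‖x‖ * f x) :=
  (div_cont hφ h1 hf).integrable_of_hasCompactSupport (div_supp h2 f)

theorem div_contDiff {χ : ℝ → ℝ} (hχ : ContDiff ℝ 1 χ) (h1 : ∀ r, r < 1 → χ r = 0)
    {f : E → ℝ} (hf : Sm 1 f) : ContDiff ℝ 1 (fun x : E => χ ‖x‖ * f x) := by
  rw [contDiff_iff_contDiffAt]
  intro x
  by_cases hx : x = 0
  · subst hx
    have h : (fun x : E => χ ‖x‖ * f x) =ᶠ[nhds 0] fun _ => 0 := by
      have : ∀ᶠ y : E in nhds 0, ‖y‖ < 1 := by
        have := ball_mem_nhds (0 : E) one_pos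
        filter_upwards [this] with y hy
        simpa using hy
      filter_upwards [this] with y hy
      rw [h1 _ hy, zero_mul]
    exact contDiffAt_const.congr_of_eventuallyEq h
  · exact (hχ.contDiffAt.comp x (contDiffAt_norm ℝ hx)).mul (sm_contDiffAt hf hx)

theorem div_pd_chi {χ : ℝ → ℝ} (hχ : ContDiff ℝ 1 χ) {x : E} (hx : x ≠ 0) (i : Fin 3) :
    pd i (fun y : E => χ ‖y‖) x = deriv χ ‖x‖ * (x i / ‖x‖) := by
  have h1 : HasDerivAt χ (deriv χ ‖x‖) ‖x‖ :=
    (hχ.differentiable (by norm_num) ‖x‖).hasDerivAt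
  have h2 : HasFDerivAt (fun y : E => ‖y‖) (fderiv ℝ (fun y : E => ‖y‖) x) x :=
    ((contDiffAt_norm ℝ hx (n := 1)).differentiableAt (by norm_num)).hasFDerivAt
  have h3 := h1.comp_hasFDerivAt x h2
  have h4 : fderiv ℝ (fun y : E => χ ‖y‖) x = deriv χ ‖x‖ • fderiv ℝ (fun y : E => ‖y‖) x :=
    h3.fderiv
  have h5 := pd_norm hx i
  unfold pd at h5 ⊢
  rw [h4, ← h5]
  simp

theorem div_chi_sm {χ : ℝ → ℝ} (hχ : ContDiff ℝ 1 χ) : Sm 1 (fun y : E => χ ‖y‖) :=
  hχ.comp_contDiffOn (sm_norm 1)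

/-- Divergence identity on the unit sphere for a homogeneous field of degree `k`. -/
theorem div_sphere (k : ℤ) (X : Fin 3 → E → ℝ) (hs : ∀ i, Sm 1 (X i)) (hh : ∀ i, Hom k (X i)) :
    SI (fun x => (∑ i, pd i (X i) x) - (k + 2) * ∑ i, X i x * x i) = 0 := by
  obtain ⟨χ, hχ, hχ1, hχ2, hpos, hcut⟩ := cutoff k
  -- the two homogeneous functions
  have hD : Sm 0 (fun x => ∑ i, pd i (X i) x) := sm_sum _ (fun i _ => sm_pd (hs i) i)
  have hR : Sm 0 (fun x => ∑ i, X i x * x i) :=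
    sm_sum _ (fun i _ => sm_mul (sm_mono (hs i) (by norm_num)) (sm_coord 0 i))
  have hDh : Hom (k - 1) (fun x => ∑ i, pd i (X i) x) :=
    hom_sum _ (fun i _ => hom_pd (hs i) (hh i) i)
  have hRh : Hom (k + 1) (fun x => ∑ i, X i x * x i) :=
    hom_sum _ (fun i _ => hom_mul (hh i) (hom_coord i))
  have hd1 : ∀ r, r < 1 → deriv χ r = 0 := by
    intro r hr
    have : χ =ᶠ[nhds r] fun _ => 0 := by
      filter_upwards [Iio_mem_nhds hr] with y hy
      exact hχ1 y (le_of_lt hy)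
    rw [this.deriv_eq]; simp
  have hd2 : ∀ r, 2 < r → deriv χ r = 0 := by
    intro r hr
    have : χ =ᶠ[nhds r] fun _ => 0 := by
      filter_upwards [Ioi_mem_nhds hr] with y hy
      exact hχ2 y (le_of_lt hy)
    rw [this.deriv_eq]; simp
  -- divergence theorem
  have h0 := integral_div_eq_zero (fun i x => χ ‖x‖ * X i x)
    (fun i => div_contDiff hχ (fun r hr => hχ1 r hr.le) (hs i))
    (fun i => div_supp (fun r hr => hχ2 r hr.le) (X i))
  -- degree zero versions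
  set D0 : E → ℝ := fun x => ‖x‖ ^ (1 - k) * ∑ i, pd i (X i) x with hD0
  set R0 : E → ℝ := fun x => ‖x‖ ^ (-k - 1) * ∑ i, X i x * x i with hR0
  have hD0h : Hom 0 D0 := by
    intro t ht x hx
    have h := hDh t ht x hx
    simp only [hD0] at h ⊢
    rw [h, norm_smul, Real.norm_of_nonneg ht.le, mul_zpow, zpow_zero, one_mul]
    have : t ^ (1 - k) * t ^ (k - 1) = 1 := by
      rw [← zpow_add₀ ht.ne']; norm_num
    linear_combination (‖x‖ ^ (1 - k) * ∑ i, pd i (X i) x) * this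
  have hR0h : Hom 0 R0 := by
    intro t ht x hx
    have h := hRh t ht x hx
    simp only [hR0] at h ⊢
    rw [h, norm_smul, Real.norm_of_nonneg ht.le, mul_zpow, zpow_zero, one_mul]
    have : t ^ (-k - 1) * t ^ (k + 1) = 1 := by
      rw [← zpow_add₀ ht.ne']; norm_num
    linear_combination (‖x‖ ^ (-k - 1) * ∑ i, X i x * x i) * this
  have hp1 := polar (fun r => χ r * r ^ (k - 1)) hD0h
  have hp2 := polar (fun r => deriv χ r * r ^ k) hR0h
  have hS1 : SI D0 = SI (fun x => ∑ i, pd i (X i) x) := by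
    apply SI_congr
    intro x hx
    simp only [hD0, hx, one_zpow, one_mul]
  have hS2 : SI R0 = SI (fun x => ∑ i, X i x * x i) := by
    apply SI_congr
    intro x hx
    simp only [hR0, hx, one_zpow, one_mul]
  have hI1 : Integrable (fun x : E => χ ‖x‖ * ∑ i, pd i (X i) x) :=
    div_integrable hχ.continuous (fun r hr => hχ1 r hr.le) (fun r hr => hχ2 r hr.le) hD
  have hinv : Sm 0 (fun x : E => ‖x‖⁻¹ * ∑ i, X i x * x i) := by
    refine sm_mul ?_ hR
    intro x hx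
    exact (ContDiffAt.inv (contDiffAt_norm ℝ hx) (norm_ne_zero_iff.2 hx)).contDiffWithinAt
  have hI2 : Integrable (fun x : E => deriv χ ‖x‖ * (‖x‖⁻¹ * ∑ i, X i x * x i)) :=
    div_integrable (hχ.continuous_deriv (by norm_num)) hd1 hd2 hinv
  have hsum : ∀ x : E, x ≠ 0 → ∑ i, pd i (fun x => χ ‖x‖ * X i x) x
      = χ ‖x‖ * (∑ i, pd i (X i) x) + deriv χ ‖x‖ * (‖x‖⁻¹ * ∑ i, X i x * x i) := by
    intro x hx
    have : ∀ i, pd i (fun x => χ ‖x‖ * X i x) x
        = χ ‖x‖ * pd i (X i) x + X i x * (deriv χ ‖x‖ * (x i / ‖x‖)) := by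
      intro i
      rw [pd_mul (div_chi_sm hχ) (hs i) hx i, div_pd_chi hχ hx i]
    rw [Finset.sum_congr rfl (fun i _ => this i), Finset.sum_add_distrib, ← Finset.mul_sum]
    congr 1
    rw [Finset.mul_sum, Finset.mul_sum]
    refine Finset.sum_congr rfl (fun i _ => ?_)
    ring
  have hae : ∀ᵐ x : E, x ≠ 0 := by
    rw [ae_iff]; simp
  have hA : ∫ x : E, ∑ i, pd i (fun x => χ ‖x‖ * X i x) x
      = (∫ x : E, χ ‖x‖ * ∑ i, pd i (X i) x)
        + ∫ x : E, deriv χ ‖x‖ * (‖x‖⁻¹ * ∑ i, X i x * x i) := by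
    rw [← integral_add hI1 hI2]
    apply integral_congr_ae
    filter_upwards [hae] with x hx
    exact hsum x hx
  have hB : (∫ x : E, χ ‖x‖ * ∑ i, pd i (X i) x)
      = (∫ r in Ioi (0 : ℝ), r ^ 2 * (χ r * r ^ (k - 1))) * SI (fun x => ∑ i, pd i (X i) x) := by
    rw [← hS1, ← hp1]
    apply integral_congr_ae
    filter_upwards [hae] with x hx
    have hn : ‖x‖ ≠ 0 := norm_ne_zero_iff.2 hx
    have : ‖x‖ ^ (k - 1) * ‖x‖ ^ (1 - k) = 1 := by
      rw [← zpow_add₀ hn]; norm_num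
    simp only [hD0]
    linear_combination (-(χ ‖x‖ * ∑ i, pd i (X i) x)) * this
  have hC : (∫ x : E, deriv χ ‖x‖ * (‖x‖⁻¹ * ∑ i, X i x * x i))
      = (∫ r in Ioi (0 : ℝ), r ^ 2 * (deriv χ r * r ^ k)) * SI (fun x => ∑ i, X i x * x i) := by
    rw [← hS2, ← hp2]
    apply integral_congr_ae
    filter_upwards [hae] with x hx
    have hn : ‖x‖ ≠ 0 := norm_ne_zero_iff.2 hx
    have : ‖x‖ ^ k * ‖x‖ ^ (-k - 1) = ‖x‖⁻¹ := by
      rw [← zpow_add₀ hn, ← zpow_neg_one]; congr 1; ring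
    simp only [hR0]
    linear_combination (-(deriv χ ‖x‖ * ∑ i, X i x * x i)) * this
  have hfin : (∫ r in Ioi (0 : ℝ), r ^ 2 * (χ r * r ^ (k - 1))) *
      (SI (fun x => ∑ i, pd i (X i) x) - (k + 2) * SI (fun x => ∑ i, X i x * x i)) = 0 := by
    have := h0
    rw [hA, hB, hC, hcut] at this
    linear_combination this
  have hfin2 : SI (fun x => ∑ i, pd i (X i) x) - (k + 2) * SI (fun x => ∑ i, X i x * x i) = 0 := by
    rcases mul_eq_zero.1 hfin with h | h
    · exact absurd h hpos.ne'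
    · exact h
  have hcm : Sm 0 (fun x => ((k : ℝ) + 2) * ∑ i, X i x * x i) := sm_cmul _ hR
  rw [SI_sub hD hcm, SI_cmul]
  exact hfin2

end Pool.Agent.MEIS
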