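import Pool.Agent.MEIS.Defs
import Pool.Agent.MEIS.SMA
import Pool.Agent.MEIS.PDR
import Pool.Agent.MEIS.HOM
import Pool.Agent.MEIS.SIA
import Pool.Agent.MEIS.DIV

set_option autoImplicit false

open MeasureTheory Set Metric

namespace Pool.Agent.MEIS

theorem ida_aux_ne {x : E} (hx : ‖x‖ = 1) : x ≠ 0 := by
  intro h
  rw [h, norm_zero] at hx
  exact zero_ne_one hx

/-- Identity `I0`, from the field `g ∇g` (degree one). -/
theorem ident_I0 {g : E → ℝ} (hs : Sm 3 g) (hh : Hom 1 g) :
    SI (fun x => gs g x + g x * lap g x - 3 * (g x) ^ 2) = 0 := by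
  have h1 : Sm 1 g := sm_mono hs (by norm_num)
  have h2 : Sm 2 g := sm_mono hs (by norm_num)
  have hp : ∀ i, Sm 1 (pd i g) := fun i => sm_pd (n := 1) h2 i
  have hX : ∀ i : Fin 3, Sm 1 (fun x => g x * pd i g x) := fun i => sm_mul h1 (hp i)
  have hH : ∀ i : Fin 3, Hom 1 (fun x => g x * pd i g x) := by
    intro i
    have := hom_mul hh (hom_pd h1 hh i)
    simpa using this
  have key := div_sphere 1 (fun i x => g x * pd i g x) hX hH
  rw [← key]
  apply SI_congr
  intro x hx
  have hx0 : x ≠ 0 := ida_aux_ne hx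
  have hpm : ∀ i, pd i (fun y => g y * pd i g y) x = g x * pd i (pd i g) x + pd i g x * pd i g x :=
    fun i => pd_mul h1 (hp i) hx0 i
  have e1 : (∑ i, pd i (fun y => g y * pd i g y) x) = g x * lap g x + gs g x := by
    simp only [hpm, lap, gs, Finset.sum_add_distrib, Finset.mul_sum]
    congr 1
    apply Finset.sum_congr rfl
    intro i _
    ring
  have eu := hom_euler h1 hh hx0
  have e2 : (∑ i, g x * pd i g x * x i) = g x ^ 2 := by
    have : (∑ i, g x * pd i g x * x i) = g x * ∑ i, x i * pd i g x := by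
      rw [Finset.mul_sum]
      apply Finset.sum_congr rfl
      intro i _
      ring
    rw [this, eu]
    push_cast
    ring
  rw [e1, e2]
  push_cast
  ring

end Pool.Agent.MEIS
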