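import Pool.Agent.MEIS.Defs
import Pool.Agent.MEIS.SMA
import Pool.Agent.MEIS.PDR
import Pool.Agent.MEIS.HOM
import Pool.Agent.MEIS.SIA
import Pool.Agent.MEIS.DIV

set_option autoImplicit false

open MeasureTheory Set Metric

namespace Pool.Agent.MEIS

/-- The field `Δg ∇g - D²g ∇g`. -/
noncomputable def fld (g : E → ℝ) (i : Fin 3) (x : E) : ℝ :=
  lap g x * pd i g x - ∑ j, pd i (pd j g) x * pd j g x

theorem idb_sm1 {g : E → ℝ} (hs : Sm 3 g) (i : Fin 3) : Sm 2 (pd i g) := sm_pd hs i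

theorem idb_sm2 {g : E → ℝ} (hs : Sm 3 g) (i j : Fin 3) : Sm 1 (pd i (pd j g)) :=
  sm_pd (idb_sm1 hs j) i

theorem idb_sml {g : E → ℝ} (hs : Sm 3 g) : Sm 1 (lap g) := sm_lap hs

theorem fld_sm {g : E → ℝ} (hs : Sm 3 g) (i : Fin 3) : Sm 1 (fld g i) := by
  have h1 : Sm 1 (fun x => lap g x * pd i g x) :=
    sm_mul (idb_sml hs) (sm_mono (idb_sm1 hs i) (by norm_num))
  have h2 : Sm 1 (fun x => ∑ j, pd i (pd j g) x * pd j g x) :=
    sm_sum _ fun j _ => sm_mul (idb_sm2 hs i j) (sm_mono (idb_sm1 hs j) (by norm_num))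
  exact sm_sub h1 h2

theorem fld_hom {g : E → ℝ} (hs : Sm 3 g) (hh : Hom 1 g) (i : Fin 3) : Hom (-1) (fld g i) := by
  have hg1 : Sm 1 g := sm_mono hs (by norm_num)
  have hg2 : Sm 2 g := sm_mono hs (by norm_num)
  have hp : ∀ j, Hom 0 (pd j g) := fun j => by simpa using hom_pd hg1 hh j
  have hpp : ∀ j, Hom (-1) (pd i (pd j g)) := fun j => by
    simpa using hom_pd (sm_mono (idb_sm1 hs j) (by norm_num)) (hp j) i
  have h1 : Hom (-1) (fun x => lap g x * pd i g x) := by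
    simpa using hom_mul (hom_lap hg2 hh) (hp i)
  have h2 : Hom (-1) (fun x => ∑ j, pd i (pd j g) x * pd j g x) :=
    hom_sum _ fun j _ => by simpa using hom_mul (hpp j) (hp j)
  exact hom_sub h1 h2

/-- Symmetry of third derivatives. -/
theorem idb_third {g : E → ℝ} (hs : Sm 3 g) {x : E} (hx : x ≠ 0) (i j : Fin 3) :
    pd i (pd i (pd j g)) x = pd j (pd i (pd i g)) x := by
  have hg2 : Sm 2 g := sm_mono hs (by norm_num)
  rw [pd_congr (f := pd i (pd j g)) (g := pd j (pd i g)) (fun y hy => pd_comm hg2 hy i j) hx i]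
  exact pd_comm (idb_sm1 hs i) hx i j

/-- The divergence of the field is `2 σ₂(D²g)`. -/
theorem fld_div {g : E → ℝ} (hs : Sm 3 g) {x : E} (hx : x ≠ 0) :
    ∑ i, pd i (fld g i) x = 2 * sg g x := by
  have hpl : ∀ j, Sm 1 (pd j g) := fun j => sm_mono (idb_sm1 hs j) (by norm_num)
  have key : ∀ i, pd i (fld g i) x =
      (lap g x * pd i (pd i g) x + pd i g x * ∑ k, pd i (pd k (pd k g)) x) -
        ∑ j, (pd i (pd j g) x * pd i (pd j g) x + pd j g x * pd i (pd i (pd j g)) x) := by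
    intro i
    have h1 : Sm 1 (fun y => lap g y * pd i g y) := sm_mul (idb_sml hs) (hpl i)
    have h2 : ∀ j ∈ (Finset.univ : Finset (Fin 3)), Sm 1 (fun y => pd i (pd j g) y * pd j g y) :=
      fun j _ => sm_mul (idb_sm2 hs i j) (hpl j)
    have e0 : pd i (fld g i) x =
        pd i (fun y => lap g y * pd i g y) x -
          pd i (fun y => ∑ j, pd i (pd j g) y * pd j g y) x :=
      pd_sub h1 (sm_sum _ h2) hx i
    rw [e0, pd_mul (idb_sml hs) (hpl i) hx i, pd_sum _ h2 hx i]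
    congr 1
    · have e1 : pd i (lap g) x = ∑ k, pd i (pd k (pd k g)) x :=
        pd_sum (Finset.univ : Finset (Fin 3)) (f := fun k => pd k (pd k g))
          (fun k _ => idb_sm2 hs k k) hx i
      rw [e1]
    · refine Finset.sum_congr rfl fun j _ => ?_
      exact pd_mul (idb_sm2 hs i j) (hpl j) hx i
  simp only [key]
  have k3 := idb_third hs hx
  simp only [sg, Pool.Agent.MEIS.hs, lap, Fin.sum_univ_three]
  rw [k3 0 1, k3 0 2, k3 1 0, k3 1 2, k3 2 0, k3 2 1]
  ring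

theorem fld_rad {g : E → ℝ} (hs : Sm 3 g) (hh : Hom 1 g) {x : E} (hx : x ≠ 0) :
    ∑ i, fld g i x * x i = g x * lap g x := by
  have hg1 : Sm 1 g := sm_mono hs (by norm_num)
  have hg2 : Sm 2 g := sm_mono hs (by norm_num)
  have e1 := hom_euler hg1 hh hx
  have e2 : ∀ j, ∑ i, x i * pd j (pd i g) x = 0 := fun j => euler_two hg2 hh hx j
  have e3 := pd_comm hg2 hx
  have a0 := e2 0
  have a1 := e2 1
  have a2 := e2 2
  have c10 := e3 1 0
  have c20 := e3 2 0
  have c21 := e3 2 1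
  simp only [Fin.sum_univ_three, Int.cast_one, one_mul] at e1 a0 a1 a2
  simp only [fld, Fin.sum_univ_three]
  rw [c10] at a1 ⊢
  rw [c20, c21] at a2 ⊢
  linear_combination (lap g x) * e1 - pd 0 g x * a0 - pd 1 g x * a1 - pd 2 g x * a2

/-- Identity `J0`. -/
theorem ident_J0 {g : E → ℝ} (hs : Sm 3 g) (hh : Hom 1 g) :
    SI (fun x => 2 * sg g x - g x * lap g x) = 0 := by
  have h := div_sphere (-1) (fld g) (fld_sm hs) (fld_hom hs hh)
  rw [← h]
  unfold SI
  refine integral_congr_ae (Filter.Eventually.of_forall fun u => ?_)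
  have hu : (u : E) ≠ 0 := by
    intro h0
    have := u.2
    rw [h0] at this
    simp at this
  simp only []
  rw [fld_div hs hu, fld_rad hs hh hu]
  push_cast
  ring

end Pool.Agent.MEIS
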