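import Pool.Agent.MEIS.Defs

set_option autoImplicit false

open MeasureTheory Set Metric

namespace Pool.Agent.MEIS

/-- Scalar form of the Cayley-Hamilton identity. -/
theorem cha_scalar (a b c d e f x y z p q r : ℝ) (hu : x ^ 2 + y ^ 2 + z ^ 2 = 1)
    (h1 : x * a + y * b + z * c = 0) (h2 : x * b + y * d + z * e = 0)
    (h3 : x * c + y * e + z * f = 0) :
    (a + d + f) * (a * p * p + b * q * p + c * r * p + (b * p * q + d * q * q + e * r * q) +
      (c * p * r + e * q * r + f * r * r)) -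
      ((a * p + b * q + c * r) ^ 2 + (b * p + d * q + e * r) ^ 2 + (c * p + e * q + f * r) ^ 2) =
    (((a + d + f) ^ 2 - (a ^ 2 + b ^ 2 + c ^ 2 + (b ^ 2 + d ^ 2 + e ^ 2) +
      (c ^ 2 + e ^ 2 + f ^ 2))) / 2) *
      ((p ^ 2 + q ^ 2 + r ^ 2) - (x * p + y * q + z * r) ^ 2) := by
  have e1 : (d * f - e ^ 2) * y = (c * e - b * f) * x := by
    linear_combination f * h2 - e * h3
  have e2 : (d * f - e ^ 2) * z = (b * e - c * d) * x := by
    linear_combination d * h3 - e * h2
  have e3 : (c * e - b * f) * y = (a * f - c ^ 2) * x := by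
    linear_combination c * h3 - f * h1
  have e4 : (c * e - b * f) * z = (b * c - a * e) * x := by
    linear_combination e * h1 - b * h3
  have e5 : (b * e - c * d) * y = (b * c - a * e) * x := by
    linear_combination e * h1 - c * h2
  have e6 : (b * e - c * d) * z = (a * d - b ^ 2) * x := by
    linear_combination b * h2 - d * h1
  have e7 : (a * f - c ^ 2) * z = (b * c - a * e) * y := by
    linear_combination a * h3 - c * h1
  have e8 : (b * c - a * e) * z = (a * d - b ^ 2) * y := by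
    linear_combination b * h1 - a * h2
  set s : ℝ := (d * f - e ^ 2) + (a * f - c ^ 2) + (a * d - b ^ 2) with hs
  have a11 : d * f - e ^ 2 = s * x ^ 2 := by
    rw [hs]; linear_combination -(d * f - e ^ 2) * hu + y * e1 + x * e3 + z * e2 + x * e6
  have a22 : a * f - c ^ 2 = s * y ^ 2 := by
    rw [hs]; linear_combination -(a * f - c ^ 2) * hu - x * e3 - y * e1 + z * e7 + y * e8
  have a33 : a * d - b ^ 2 = s * z ^ 2 := by
    rw [hs]; linear_combination -(a * d - b ^ 2) * hu - x * e6 - y * e8 - z * e2 - z * e7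
  have a12 : c * e - b * f = s * x * y := by
    rw [hs]; linear_combination -(c * e - b * f) * hu - x * e1 + y * e3 + z * e4 + x * e8
  have a13 : b * e - c * d = s * x * z := by
    rw [hs]; linear_combination -(b * e - c * d) * hu - x * e2 + y * e5 + z * e6 - x * e7
  have a23 : b * c - a * e = s * y * z := by
    rw [hs]; linear_combination -(b * c - a * e) * hu - x * e4 - z * e1 - y * e7 + z * e8
  have hs2 : ((a + d + f) ^ 2 - (a ^ 2 + b ^ 2 + c ^ 2 + (b ^ 2 + d ^ 2 + e ^ 2) +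
      (c ^ 2 + e ^ 2 + f ^ 2))) / 2 = s := by rw [hs]; ring
  rw [hs2]
  have key : (a + d + f) * (a * p * p + b * q * p + c * r * p + (b * p * q + d * q * q + e * r * q) +
      (c * p * r + e * q * r + f * r * r)) -
      ((a * p + b * q + c * r) ^ 2 + (b * p + d * q + e * r) ^ 2 + (c * p + e * q + f * r) ^ 2) =
      s * (p ^ 2 + q ^ 2 + r ^ 2) - ((d * f - e ^ 2) * p ^ 2 + (a * f - c ^ 2) * q ^ 2 +
        (a * d - b ^ 2) * r ^ 2 + 2 * (c * e - b * f) * p * q + 2 * (b * e - c * d) * p * r +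
        2 * (b * c - a * e) * q * r) := by
    rw [hs]; ring
  rw [key, a11, a22, a33, a12, a13, a23]
  ring

/-- Cayley-Hamilton for a symmetric `3 × 3` matrix with kernel containing the unit vector `u`:
for `w` decomposed as `w = (w·u) u + w'`, one has
`(tr M) ⟨M w, w⟩ - ‖M w‖² = σ₂(M) (‖w‖² - (w·u)²)`. -/
theorem cayley (M : Fin 3 → Fin 3 → ℝ) (hM : ∀ i j, M i j = M j i) (u w : Fin 3 → ℝ)
    (hu : ∑ i, u i ^ 2 = 1) (hMu : ∀ i, ∑ j, u j * M i j = 0) :
    (∑ i, M i i) * (∑ i, ∑ j, M i j * w j * w i) - ∑ i, (∑ j, M i j * w j) ^ 2 =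
      (((∑ i, M i i) ^ 2 - ∑ i, ∑ j, (M i j) ^ 2) / 2) *
        ((∑ i, w i ^ 2) - (∑ i, u i * w i) ^ 2) := by
  have m10 := hM 1 0
  have m20 := hM 2 0
  have m21 := hM 2 1
  have h0 := hMu 0
  have h1 := hMu 1
  have h2 := hMu 2
  simp only [Fin.sum_univ_three] at hu h0 h1 h2 ⊢
  rw [m10] at h1 ⊢
  rw [m20, m21] at h2 ⊢
  have := cha_scalar (M 0 0) (M 0 1) (M 0 2) (M 1 1) (M 1 2) (M 2 2) (u 0) (u 1) (u 2)
    (w 0) (w 1) (w 2) hu h0 h1 h2
  linear_combination this

end Pool.Agent.MEIS
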