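import Pool.Agent.MEIS.Defs
import Pool.Agent.MEIS.SMA
import Pool.Agent.MEIS.PDR
import Pool.Agent.MEIS.HOM
import Pool.Agent.MEIS.SIA
import Pool.Agent.MEIS.DIV
import Pool.Agent.MEIS.IDB
import Pool.Agent.MEIS.CHA

set_option autoImplicit false

open MeasureTheory Set Metric

namespace Pool.Agent.MEIS

theorem idc_pd_gs {g : E → ℝ} (hs : Sm 3 g) {x : E} (hx : x ≠ 0) (i : Fin 3) :
    pd i (gs g) x = ∑ k, 2 * (pd k g x * pd i (pd k g) x) := by
  have hpl : ∀ j, Sm 1 (pd j g) := fun j => sm_mono (idb_sm1 hs j) (by norm_num)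
  have e1 : pd i (gs g) x = ∑ k, pd i (fun y => (pd k g y) ^ 2) x :=
    pd_sum (Finset.univ : Finset (Fin 3)) (f := fun k y => (pd k g y) ^ 2)
      (fun k _ => sm_pow (hpl k) 2) hx i
  rw [e1]
  refine Finset.sum_congr rfl fun k _ => ?_
  have e2 : pd i (fun y => (pd k g y) ^ 2) x = pd i (fun y => pd k g y * pd k g y) x :=
    pd_congr (fun y _ => by ring) hx i
  rw [e2, pd_mul (hpl k) (hpl k) hx i]
  ring

theorem idc_div {g : E → ℝ} (hs : Sm 3 g) (hh : Hom 1 g) {x : E} (hx : ‖x‖ = 1) :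
    ∑ i, pd i (fun y => gs g y * fld g i y) x =
      4 * gs g x * sg g x - 2 * (g x) ^ 2 * sg g x := by
  have hx0 : x ≠ 0 := by
    intro h0
    rw [h0] at hx
    simp at hx
  have hg1 : Sm 1 g := sm_mono hs (by norm_num)
  have hg2 : Sm 2 g := sm_mono hs (by norm_num)
  have hgs : Sm 1 (gs g) := sm_mono (sm_gs (n := 2) hs) (by norm_num)
  have e1 : ∀ i, pd i (fun y => gs g y * fld g i y) x =
      gs g x * pd i (fld g i) x + fld g i x * ∑ k, 2 * (pd k g x * pd i (pd k g) x) := by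
    intro i
    rw [pd_mul hgs (fld_sm hs i) hx0 i, idc_pd_gs hs hx0 i]
  have hn : ∑ i, (x i) ^ 2 = 1 := by
    have := EuclideanSpace.real_norm_sq_eq x
    rw [hx] at this
    rw [← this]
    norm_num
  have hc := cayley (fun i j => pd i (pd j g) x) (fun i j => pd_comm hg2 hx0 i j)
    (fun i => x i) (fun i => pd i g x) hn (fun i => euler_two hg2 hh hx0 i)
  have he := hom_euler hg1 hh hx0
  have hd := fld_div hs hx0
  rw [Int.cast_one, one_mul] at he
  simp only [] at hc
  rw [he] at hc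
  rw [Finset.sum_congr rfl fun i _ => e1 i, Finset.sum_add_distrib, ← Finset.mul_sum, hd]
  have hsum : ∑ i, fld g i x * ∑ k, 2 * (pd k g x * pd i (pd k g) x) =
      2 * (lap g x * (∑ i, ∑ j, pd i (pd j g) x * pd j g x * pd i g x) -
        ∑ i, (∑ j, pd i (pd j g) x * pd j g x) ^ 2) := by
    simp only [fld, lap, Fin.sum_univ_three]
    ring
  rw [hsum]
  have hl : lap g x = ∑ i, pd i (pd i g) x := rfl
  have hsg : sg g x = ((∑ i, pd i (pd i g) x) ^ 2 - ∑ i, ∑ j, (pd i (pd j g) x) ^ 2) / 2 := rfl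
  have hgg : gs g x = ∑ i, (pd i g x) ^ 2 := rfl
  rw [hl, hc, ← hsg, ← hgg]
  ring

/-- Identity `J1`, from the field `‖∇g‖² (Δg ∇g - D²g ∇g)` (degree minus one). -/
theorem ident_J1 {g : E → ℝ} (hs : Sm 3 g) (hh : Hom 1 g) :
    SI (fun x => 4 * gs g x * sg g x - 2 * (g x) ^ 2 * sg g x - g x * lap g x * gs g x) = 0 := by
  have hgs : Sm 1 (gs g) := sm_mono (sm_gs (n := 2) hs) (by norm_num)
  have hX : ∀ i, Sm 1 (fun x => gs g x * fld g i x) := fun i => sm_mul hgs (fld_sm hs i)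
  have hH : ∀ i, Hom (-1) (fun x => gs g x * fld g i x) := fun i => by
    simpa using hom_mul (hom_gs (sm_mono hs (by norm_num)) hh) (fld_hom hs hh i)
  have h := div_sphere (-1) (fun i x => gs g x * fld g i x) hX hH
  rw [← h]
  unfold SI
  refine integral_congr_ae (Filter.Eventually.of_forall fun u => ?_)
  have hn : ‖(u : E)‖ = 1 := by
    have := u.2
    simpa using this
  have hu : (u : E) ≠ 0 := by
    intro h0
    rw [h0] at hn
    simp at hn
  simp only []
  rw [idc_div hs hh hn]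
  have hr := fld_rad hs hh hu
  have e2 : ∑ i, gs g (u : E) * fld g i (u : E) * (u : E) i =
      gs g (u : E) * (g (u : E) * lap g (u : E)) := by
    rw [← hr, Finset.mul_sum]
    refine Finset.sum_congr rfl fun i _ => ?_
    ring
  rw [e2]
  push_cast
  ring

end Pool.Agent.MEIS
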