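import Pool.Agent.MEIS.Defs

set_option autoImplicit false

open MeasureTheory Set Metric

namespace Pool.Agent.MEIS

theorem par_neg {f : E → ℝ} (i : Fin 3) (x : E) :
    pd i (fun y => f (-y)) x = - pd i f (-x) := by
  have h : fderiv ℝ (f ∘ (ContinuousLinearEquiv.neg ℝ : E ≃L[ℝ] E)) x = _ :=
    (ContinuousLinearEquiv.neg ℝ : E ≃L[ℝ] E).comp_right_fderiv
  have h2 : (f ∘ (ContinuousLinearEquiv.neg ℝ : E ≃L[ℝ] E)) = fun y => f (-y) := rfl
  rw [h2] at h
  unfold pd
  rw [h]
  simp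

theorem par_negf {f : E → ℝ} (i : Fin 3) (x : E) :
    pd i (fun y => - f y) x = - pd i f x := by
  unfold pd
  rw [fderiv_fun_neg]
  rfl

theorem pd_odd {f : E → ℝ} (ho : ∀ x, f (-x) = - f x) (i : Fin 3) (x : E) :
    pd i f (-x) = pd i f x := by
  have h1 := par_neg (f := f) i x
  have h2 : (fun y => f (-y)) = fun y => - f y := funext ho
  rw [h2, par_negf] at h1
  linarith

theorem pd_even {f : E → ℝ} (he : ∀ x, f (-x) = f x) (i : Fin 3) (x : E) :
    pd i f (-x) = - pd i f x := by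
  have h1 := par_neg (f := f) i x
  have h2 : (fun y => f (-y)) = f := funext he
  rw [h2] at h1
  linarith

theorem pd2_odd {f : E → ℝ} (ho : ∀ x, f (-x) = - f x) (i j : Fin 3) (x : E) :
    pd i (pd j f) (-x) = - pd i (pd j f) x :=
  pd_even (fun y => pd_odd ho j y) i x

theorem lap_odd {f : E → ℝ} (ho : ∀ x, f (-x) = - f x) (x : E) : lap f (-x) = - lap f x := by
  unfold lap
  rw [← Finset.sum_neg_distrib]
  exact Finset.sum_congr rfl (fun i _ => pd2_odd ho i i x)

theorem sg_odd {f : E → ℝ} (ho : ∀ x, f (-x) = - f x) (x : E) : sg f (-x) = sg f x := by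
  unfold sg
  rw [lap_odd ho]
  have : hs f (-x) = hs f x := by
    unfold hs
    refine Finset.sum_congr rfl (fun i _ => Finset.sum_congr rfl (fun j _ => ?_))
    rw [pd2_odd ho i j x]
    ring
  rw [this]
  ring

theorem gs_odd {f : E → ℝ} (ho : ∀ x, f (-x) = - f x) (x : E) : gs f (-x) = gs f x := by
  unfold gs
  refine Finset.sum_congr rfl (fun i _ => ?_)
  rw [pd_odd ho i x]

end Pool.Agent.MEIS
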