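import Pool.Agent.MEIS.Defs
import Pool.Agent.MEIS.SMA
import Pool.Agent.MEIS.PDR
import Pool.Agent.MEIS.HOM
import Pool.Agent.MEIS.PAR
import Pool.Agent.MEIS.NRM
import Pool.Agent.MEIS.GRD
import Pool.Agent.MEIS.PSD
import Pool.Agent.MEIS.LIN

set_option autoImplicit false

open MeasureTheory Set Metric

namespace Pool.Agent.MEIS

theorem ptw_ne {u : E} (hu : ‖u‖ = 1) : u ≠ 0 := by
  intro h
  rw [h, norm_zero] at hu
  exact zero_ne_one hu

theorem ptw_sq {u : E} (hu : ‖u‖ = 1) : ∑ i, u i ^ 2 = 1 := by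
  have h := EuclideanSpace.real_norm_sq_eq u
  rw [hu] at h
  linarith

theorem ptw_sg (f : E → ℝ) (u : E) : sg f u = s2 (fun i j => pd i (pd j f) u) := rfl

theorem ptw_hess {G : E → ℝ} {R τ : ℝ} (h : SB G R τ) {u : E} (hu : ‖u‖ = 1) (i j : Fin 3) :
    pd i (pd j G) u = pd i (pd j (od G)) u +
      1 / 2 * ((if i = j then (1 : ℝ) else 0) - u i * u j) := by
  rw [pd2_od h (ptw_ne hu) i j, hu]
  ring

theorem ptw_symG {G : E → ℝ} {R τ : ℝ} (h : SB G R τ) {u : E} (hu : u ≠ 0) (i j : Fin 3) :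
    pd i (pd j G) u = pd j (pd i G) u :=
  pd_comm (sm_mono h.sm (by norm_num)) hu i j

theorem ptw_symg {G : E → ℝ} {R τ : ℝ} (h : SB G R τ) {u : E} (hu : u ≠ 0) (i j : Fin 3) :
    pd i (pd j (od G)) u = pd j (pd i (od G)) u :=
  pd_comm (sm_mono (od_sm h) (by norm_num)) hu i j

/-- `σ₂` of the Hessian of `G` through the odd part, on the unit sphere. -/
theorem pt_sg {G : E → ℝ} {R τ : ℝ} (h : SB G R τ) {u : E} (hu : ‖u‖ = 1) :
    sg G u = 1 / 4 + lap (od G) u / 2 + sg (od G) u := by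
  have e1 : (fun i j => pd i (pd j G) u) = (fun i j => pd i (pd j (od G)) u +
      1 / 2 * ((if i = j then (1 : ℝ) else 0) - u i * u j)) := by
    funext i j
    exact ptw_hess h hu i j
  rw [ptw_sg G u, e1, s2_shift (1 / 2) (fun i j => pd i (pd j (od G)) u)
    (fun i j => ptw_symg h (ptw_ne hu) i j) (fun i => u i) (ptw_sq hu)
    (fun i => euler_two (sm_mono (od_sm h) (by norm_num)) (od_hom h) (ptw_ne hu) i),
    ← ptw_sg (od G) u]
  unfold lap
  ring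

theorem pt_pos {G : E → ℝ} {R τ : ℝ} (h : SB G R τ) (hτ : 0 ≤ τ) {u : E} (hu : ‖u‖ = 1) :
    0 ≤ 1 / 4 + lap (od G) u / 2 + sg (od G) u := by
  rw [← pt_sg h hu, ptw_sg]
  exact s2_nonneg _ (fun i j => ptw_symG h (ptw_ne hu) i j)
    (fun i j => SB_minor h hτ (ptw_ne hu) i j)

theorem ptw_neg_norm {u : E} (hu : ‖u‖ = 1) : ‖-u‖ = 1 := by rw [norm_neg, hu]

theorem pt_neg {G : E → ℝ} {R τ : ℝ} (h : SB G R τ) (hτ : 0 ≤ τ) {u : E} (hu : ‖u‖ = 1) :
    0 ≤ 1 / 4 - lap (od G) u / 2 + sg (od G) u := by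
  have h1 := pt_pos h hτ (ptw_neg_norm hu)
  rw [lap_odd (fun x => od_odd h x), sg_odd (fun x => od_odd h x)] at h1
  linarith

theorem pt_le {G : E → ℝ} {R τ : ℝ} (h : SB G R τ) (hτ : 0 ≤ τ) {u : E} (hu : ‖u‖ = 1) :
    sg (od G) u ≤ 1 / 4 := by
  have hn := ptw_neg_norm hu
  have h1 := s2_add_le (fun i j => pd i (pd j G) u) (fun i j => pd i (pd j G) (-u))
    (fun i j => ptw_symG h (ptw_ne hu) i j) (fun i j => ptw_symG h (ptw_ne hn) i j)
    (fun i => SB_diag h hτ (ptw_ne hu) i) (fun i => SB_diag h hτ (ptw_ne hn) i)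
    (fun i j => SB_minor h hτ (ptw_ne hu) i j) (fun i j => SB_minor h hτ (ptw_ne hn) i j)
  have e1 : (fun i j => pd i (pd j G) u + pd i (pd j G) (-u)) =
      (fun i j => (if i = j then (1 : ℝ) else 0) - u i * u j) := by
    funext i j
    rw [ptw_hess h hu i j, ptw_hess h hn i j, pd2_odd (fun x => od_odd h x) i j u]
    simp only [PiLp.neg_apply]
    ring
  have e2 : s2 (fun i j => (if i = j then (1 : ℝ) else 0) - u i * u j) = 1 :=
    s2_proj (fun i => u i) (ptw_sq hu)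
  rw [← ptw_sg, ← ptw_sg, pt_sg h hu, pt_sg h hn, lap_odd (fun x => od_odd h x),
    sg_odd (fun x => od_odd h x)] at h1
  have h2 : s2 (fun i j => pd i (pd j G) u + pd i (pd j G) (-u)) = 1 := by rw [e1, e2]
  have h3 : (1 / 4 + lap (od G) u / 2 + sg (od G) u) +
      (1 / 4 + -lap (od G) u / 2 + sg (od G) u) ≤ 1 := h1.trans_eq h2
  linarith

theorem ptw_euler {G : E → ℝ} {R τ : ℝ} (h : SB G R τ) {u : E} (hu : ‖u‖ = 1) :
    ∑ i, u i * pd i (od G) u = od G u := by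
  have := hom_euler (sm_mono (od_sm h) (by norm_num)) (od_hom h) (ptw_ne hu)
  simpa using this

theorem pt_cs {G : E → ℝ} {R τ : ℝ} (h : SB G R τ) {u : E} (hu : ‖u‖ = 1) :
    (od G u) ^ 2 ≤ gs (od G) u := by
  have h1 := Finset.sum_mul_sq_le_sq_mul_sq Finset.univ (fun i => u i)
    (fun i => pd i (od G) u)
  rw [ptw_euler h hu, ptw_sq hu, one_mul] at h1
  exact h1

theorem ptw_gs {G : E → ℝ} {R τ : ℝ} (h : SB G R τ) {u : E} (hu : ‖u‖ = 1) :
    gs G u = gs (od G) u + od G u + 1 / 4 := by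
  have e1 : ∀ i, (pd i G u) ^ 2 = (pd i (od G) u) ^ 2 + u i * pd i (od G) u + u i ^ 2 / 4 := by
    intro i
    rw [pd_od h (ptw_ne hu) i, hu]
    ring
  unfold gs
  rw [Finset.sum_congr rfl (fun i _ => e1 i), Finset.sum_add_distrib, Finset.sum_add_distrib,
    ptw_euler h hu, ← Finset.sum_div, ptw_sq hu]

theorem pt_gs {G : E → ℝ} {R τ : ℝ} (h : SB G R τ) (hτ : 0 ≤ τ) (hR : 0 ≤ R) {u : E}
    (hu : ‖u‖ = 1) : gs (od G) u ≤ R ^ 2 - 1 / 4 - |od G u| := by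
  have hn := ptw_neg_norm hu
  have h1 := SB_gs_le h hτ hR (ptw_ne hu)
  have h2 := SB_gs_le h hτ hR (ptw_ne hn)
  rw [ptw_gs h hu] at h1
  rw [ptw_gs h hn, gs_odd (fun x => od_odd h x), od_odd h] at h2
  have h3 : |od G u| ≤ R ^ 2 - 1 / 4 - gs (od G) u := by
    rw [abs_le]
    constructor <;> linarith
  linarith

end Pool.Agent.MEIS
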