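import Pool.Agent.MEIS.Defs
import Pool.Agent.MEIS.POL

set_option autoImplicit false

open MeasureTheory Set Metric

namespace Pool.Agent.MEIS

theorem sio_rep (f : E → ℝ) :
    (1 / 3) * SI f = ∫ x in ball (0 : E) 1 \ {0}, f (‖x‖⁻¹ • x) := by
  have hh : Hom 0 (fun x : E => f (‖x‖⁻¹ • x)) := by
    intro t ht x hx
    have h0 : ‖x‖ ≠ 0 := norm_ne_zero_iff.mpr hx
    have e : ‖t • x‖⁻¹ • t • x = ‖x‖⁻¹ • x := by
      rw [norm_smul, Real.norm_eq_abs, abs_of_pos ht, smul_smul]
      congr 1
      field_simp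
    simp [e]
  rw [polar_ball hh]
  congr 1
  unfold SI
  refine integral_congr_ae (Filter.Eventually.of_forall fun u => ?_)
  have hu : ‖(u : E)‖ = 1 := by simp
  simp [hu]

/-- The sphere integral is invariant under the antipodal map. -/
theorem SI_negarg (f : E → ℝ) : SI (fun x => f (-x)) = SI f := by
  have h1 := sio_rep f
  have h2 := sio_rep (fun x => f (-x))
  have hs : MeasurableSet (ball (0 : E) 1 \ {0}) :=
    measurableSet_ball.diff (measurableSet_singleton _)
  have h3 : ∫ x in ball (0 : E) 1 \ {0}, f (-(‖x‖⁻¹ • x))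
      = ∫ x in ball (0 : E) 1 \ {0}, f (‖x‖⁻¹ • x) := by
    rw [← integral_indicator hs, ← integral_indicator hs]
    rw [← integral_neg_eq_self (fun x : E =>
      (ball (0 : E) 1 \ {0}).indicator (fun x => f (‖x‖⁻¹ • x)) x) volume]
    refine integral_congr_ae (Filter.Eventually.of_forall fun x => ?_)
    simp only [indicator]
    have : (-x ∈ ball (0 : E) 1 \ {0}) ↔ (x ∈ ball (0 : E) 1 \ {0}) := by
      simp
    by_cases hx : x ∈ ball (0 : E) 1 \ {0}
    · rw [if_pos hx, if_pos (this.mpr hx)]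
      simp
    · rw [if_neg hx, if_neg (fun h => hx (this.mp h))]
  have : (1 / 3 : ℝ) * SI (fun x => f (-x)) = (1 / 3) * SI f := by
    rw [h1, h2]
    exact h3
  linarith

theorem SI_odd {f : E → ℝ} (h : ∀ x : E, ‖x‖ = 1 → f (-x) = - f x) : SI f = 0 := by
  have h1 := SI_negarg f
  have h2 : SI (fun x => f (-x)) = - SI f := by
    unfold SI
    rw [← integral_neg]
    refine integral_congr_ae (Filter.Eventually.of_forall fun u => ?_)
    exact h u (by simp)
  linarith

end Pool.Agent.MEIS
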