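import Pool.Agent.MEIS.Defs
import Pool.Agent.MEIS.SMA
import Pool.Agent.MEIS.PDR
import Pool.Agent.MEIS.HOM
import Pool.Agent.MEIS.PAR
import Pool.Agent.MEIS.SIA
import Pool.Agent.MEIS.SIO
import Pool.Agent.MEIS.IDB
import Pool.Agent.MEIS.GRD
import Pool.Agent.MEIS.PTW

set_option autoImplicit false

open MeasureTheory Set Metric

namespace Pool.Agent.MEIS

/-- Volume functional through the odd part. -/
theorem vol_formula {G : E → ℝ} {R τ : ℝ} (h : SB G R τ) :
    (1 / 3) * SI (fun x => G x * sg G x) =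
      Real.pi / 6 + (1 / 4) * SI (fun x => od G x * lap (od G) x) := by
  have hg3 : Sm 3 (od G) := od_sm h
  have hg0 : Sm 0 (od G) := sm_mono hg3 (by norm_num)
  have hl0 : Sm 0 (lap (od G)) := sm_lap (n := 0) (sm_mono hg3 (by norm_num))
  have hq0 : Sm 0 (sg (od G)) := sm_sg (n := 0) (sm_mono hg3 (by norm_num))
  have hgs : Sm 0 (fun x => od G x * lap (od G) x) := sm_mul hg0 hl0
  have hgq : Sm 0 (fun x => od G x * sg (od G) x) := sm_mul hg0 hq0
  have hJ := ident_J0 hg3 (od_hom h)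
  rw [SI_sub (sm_cmul 2 hq0) hgs, SI_cmul] at hJ
  have h1 : SI (fun x => G x * sg G x) =
      SI (fun x => (1 / 8 + (1 / 2) * sg (od G) x + (1 / 2) * (od G x * lap (od G) x)) +
        ((1 / 4) * od G x + (1 / 4) * lap (od G) x + od G x * sg (od G) x)) := by
    apply SI_congr
    intro x hx
    rw [pt_sg h hx]
    have hGx : G x = od G x + 1 / 2 := by
      unfold od
      rw [hx]
      ring
    rw [hGx]
    ring
  have h2 : SI (fun x => (1 / 4) * od G x + (1 / 4) * lap (od G) x + od G x * sg (od G) x) = 0 := by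
    apply SI_odd
    intro x _
    rw [od_odd h, lap_odd (od_odd h), sg_odd (od_odd h)]
    ring
  have h3 : SI (fun x => 1 / 8 + (1 / 2) * sg (od G) x + (1 / 2) * (od G x * lap (od G) x)) =
      4 * Real.pi * (1 / 8) + (1 / 2) * SI (sg (od G)) +
        (1 / 2) * SI (fun x => od G x * lap (od G) x) := by
    rw [SI_add (sm_add (sm_const 0 (1 / 8)) (sm_cmul (1 / 2) hq0)) (sm_cmul (1 / 2) hgs),
      SI_add (sm_const 0 (1 / 8)) (sm_cmul (1 / 2) hq0), SI_const, SI_cmul, SI_cmul]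
  rw [h1, SI_add (sm_add (sm_add (sm_const 0 (1 / 8)) (sm_cmul (1 / 2) hq0))
    (sm_cmul (1 / 2) hgs)) (sm_add (sm_add (sm_cmul (1 / 4) hg0) (sm_cmul (1 / 4) hl0)) hgq),
    h2, h3]
  linarith

end Pool.Agent.MEIS
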