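import Pool.Agent.MEIS.Defs
import Pool.Agent.MEIS.SMA
import Pool.Agent.MEIS.HOM
import Pool.Agent.MEIS.SIA
import Pool.Agent.MEIS.IDA
import Pool.Agent.MEIS.IDB
import Pool.Agent.MEIS.IDC
import Pool.Agent.MEIS.GRD
import Pool.Agent.MEIS.PTW
import Pool.Agent.MEIS.CRT
import Pool.Agent.MEIS.VFO
import Pool.Agent.MEIS.COV

set_option autoImplicit false

open MeasureTheory Set Metric

namespace Pool.Agent.MEIS

/-- The volume bound in the smooth case. -/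
theorem smooth_bound {G : E → ℝ} {R τ a z : ℝ} (h : SB G R τ) (hτ : 0 < τ) (hR0 : 0 ≤ R)
    (hR : R < 1) (hRK : R ^ 2 - 1 / 4 ≤ 1 / 2) (ha : 0 < a) (haz : a * (R ^ 2 - 1 / 4) ≤ z)
    (hz : z ≤ 1 / 4)
    (hL : (1 / 2 - 3 * a - 2 * z + a * (R ^ 2 - 1 / 4)) ^ 2 ≤
      36 * a * (z - a * (R ^ 2 - 1 / 4))) :
    ENNReal.ofReal (Real.pi / 6 - 2 * Real.pi * z) ≤ volume (Body G) := by
  refine le_trans ?_ (volume_body_ge h hτ hR)
  apply ENNReal.ofReal_le_ofReal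
  rw [vol_formula h]
  have hg3 : Sm 3 (od G) := od_sm h
  have hh : Hom 1 (od G) := od_hom h
  have hg0 : Sm 0 (od G) := sm_mono hg3 (by norm_num)
  have hl0 : Sm 0 (lap (od G)) := sm_lap (n := 0) (sm_mono hg3 (by norm_num))
  have hq0 : Sm 0 (sg (od G)) := sm_sg (n := 0) (sm_mono hg3 (by norm_num))
  have hP0 : Sm 0 (gs (od G)) := sm_gs (n := 0) (sm_mono hg3 (by norm_num))
  have hgs : Sm 0 (fun x => od G x * lap (od G) x) := sm_mul hg0 hl0
  have hI0 := ident_I0 hg3 hh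
  have hJ0 := ident_J0 hg3 hh
  have hJ1 := ident_J1 hg3 hh
  have hsI : Sm 0 (fun x => gs (od G) x + od G x * lap (od G) x - 3 * (od G x) ^ 2) :=
    sm_sub (sm_add hP0 hgs) (sm_cmul 3 (sm_pow hg0 2))
  have hsJ : Sm 0 (fun x => 2 * sg (od G) x - od G x * lap (od G) x) :=
    sm_sub (sm_cmul 2 hq0) hgs
  have hsK : Sm 0 (fun x => 4 * gs (od G) x * sg (od G) x - 2 * (od G x) ^ 2 * sg (od G) x -
      od G x * lap (od G) x * gs (od G) x) :=
    sm_sub (sm_sub (sm_mul (sm_cmul 4 hP0) hq0) (sm_mul (sm_cmul 2 (sm_pow hg0 2)) hq0))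
      (sm_mul hgs hP0)
  have hF : 0 ≤ SI (fun x => (((z - a * (gs (od G) x + od G x * lap (od G) x -
      3 * (od G x) ^ 2)) + 2 * z * (2 * sg (od G) x - od G x * lap (od G) x)) -
      a * (4 * gs (od G) x * sg (od G) x - 2 * (od G x) ^ 2 * sg (od G) x -
      od G x * lap (od G) x * gs (od G) x)) + (1 / 2) * (od G x * lap (od G) x)) := by
    apply SI_nonneg
    intro x hx
    have hc := certificate ha hRK haz hz hL (pt_pos h hτ.le hx) (pt_neg h hτ.le hx)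
      (pt_le h hτ.le hx) (pt_cs h hx) (pt_gs h hτ.le hR0 hx)
    refine le_of_le_of_eq hc ?_
    ring
  rw [SI_add (sm_sub (sm_add (sm_sub (sm_const 0 z) (sm_cmul a hsI)) (sm_cmul (2 * z) hsJ))
      (sm_cmul a hsK)) (sm_cmul (1 / 2) hgs),
    SI_sub (sm_add (sm_sub (sm_const 0 z) (sm_cmul a hsI)) (sm_cmul (2 * z) hsJ))
      (sm_cmul a hsK),
    SI_add (sm_sub (sm_const 0 z) (sm_cmul a hsI)) (sm_cmul (2 * z) hsJ),
    SI_sub (sm_const 0 z) (sm_cmul a hsI), SI_const, SI_cmul, SI_cmul, SI_cmul, SI_cmul,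
    hI0, hJ0, hJ1] at hF
  linarith

end Pool.Agent.MEIS
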