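import Pool.Agent.MEIS.Defs
import Pool.Agent.MEIS.SHB
import Pool.Agent.MEIS.SMV
import Pool.Agent.MEIS.MOL
import Pool.Agent.MEIS.SCA

set_option autoImplicit false

open MeasureTheory Set Metric

namespace Pool.Agent.MEIS

/-- The inequality for one small parameter. -/
theorem gen_step {H : E → ℝ} {R a z δ : ℝ} (h : SH H R) (hR : R < 4 / 5) (ha : 0 < a)
    (haz : a * (R ^ 2 - 1 / 4) ≤ z)
    (hL : (1 / 2 - 3 * a - 2 * z + a * (R ^ 2 - 1 / 4)) ^ 2 ≤
      36 * a * (z - a * (R ^ 2 - 1 / 4)))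
    (hz : z < 1 / 12) (hδ : 0 < δ) (hδ1 : δ < 1 / 20) (hδ2 : a * δ < 1 / 60) :
    ENNReal.ofReal (Real.pi / 6 - 2 * Real.pi * (z + 2 * a * (2 * R * δ + δ ^ 2))) ≤
      ENNReal.ofReal ((1 + δ / (1 - R)) ^ 3) * volume (Body H) := by
  have hRh : 1 / 2 ≤ R := SH_half h
  have hR1 : 0 < 1 - R := by linarith
  obtain ⟨G, τ, hτ, hG, hGH⟩ := exists_smooth h (by linarith) hδ
  have hKe : (R + δ) ^ 2 - 1 / 4 = (R ^ 2 - 1 / 4) + (2 * R * δ + δ ^ 2) := by ring
  have hK0 : 0 ≤ R ^ 2 - 1 / 4 := by nlinarith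
  have he0 : 0 ≤ 2 * R * δ + δ ^ 2 := by positivity
  have he1 : 2 * R * δ + δ ^ 2 ≤ 2 * δ := by nlinarith
  set e : ℝ := 2 * R * δ + δ ^ 2 with he
  set K : ℝ := R ^ 2 - 1 / 4 with hK
  have hae : 0 ≤ a * e := mul_nonneg ha.le he0
  have hb := smooth_bound (a := a) (z := z + 2 * a * e) hG hτ (by linarith) (by linarith)
    (by nlinarith) ha
    (by
      rw [hKe]
      nlinarith)
    (by nlinarith)
    (by
      rw [hKe]
      have hLl : -(3 * a) ≤ 1 / 2 - 3 * a - 2 * z + a * K := by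
        have : 0 ≤ a * K := mul_nonneg ha.le hK0
        linarith
      have e1 : (1 / 2 - 3 * a - 2 * (z + 2 * a * e) + a * (K + e)) =
          (1 / 2 - 3 * a - 2 * z + a * K) - 3 * (a * e) := by ring
      rw [e1]
      set L : ℝ := 1 / 2 - 3 * a - 2 * z + a * K with hLdef
      have e2 : 36 * a * (z + 2 * a * e - a * (K + e)) = 36 * a * (z - a * K) + 36 * a * (a * e) := by
        ring
      rw [e2]
      have e3 : 0 ≤ (a * e) * (L + 3 * a) := mul_nonneg hae (by linarith)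
      have e4 : 0 ≤ (a * e) * (a * (2 - e)) :=
        mul_nonneg hae (mul_nonneg ha.le (by linarith))
      nlinarith)
  refine le_trans hb ?_
  apply volume_body_scale
  · positivity
  · intro x
    have h1 := hGH x
    have h2 := SH_lower h x
    have h3 : δ * ‖x‖ ≤ δ / (1 - R) * H x := by
      have : δ * ‖x‖ = δ / (1 - R) * ((1 - R) * ‖x‖) := by
        field_simp
      rw [this]
      exact mul_le_mul_of_nonneg_left h2 (by positivity)
    linarith

/-- The volume bound for all bodies of constant width one inside a ball of radius `R`. -/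
theorem general_bound {H : E → ℝ} {R a z : ℝ} (h : SH H R) (hR : R < 4 / 5) (ha : 0 < a)
    (haz : a * (R ^ 2 - 1 / 4) ≤ z)
    (hL : (1 / 2 - 3 * a - 2 * z + a * (R ^ 2 - 1 / 4)) ^ 2 ≤
      36 * a * (z - a * (R ^ 2 - 1 / 4))) :
    ENNReal.ofReal (Real.pi / 6 - 2 * Real.pi * z) ≤ volume (Body H) := by
  by_cases hz : z < 1 / 12
  · have hev : ∀ᶠ δ : ℝ in nhdsWithin 0 (Ioi 0),
        ENNReal.ofReal (Real.pi / 6 - 2 * Real.pi * (z + 2 * a * (2 * R * δ + δ ^ 2))) ≤
          ENNReal.ofReal ((1 + δ / (1 - R)) ^ 3) * volume (Body H) := by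
      have hpos : 0 < min (1 / 20 : ℝ) (1 / (60 * a)) := by positivity
      filter_upwards [Ioo_mem_nhdsGT hpos] with δ hδ
      refine gen_step h hR ha haz hL hz hδ.1 (lt_of_lt_of_le hδ.2 (min_le_left _ _)) ?_
      have h1 : δ < 1 / (60 * a) := lt_of_lt_of_le hδ.2 (min_le_right _ _)
      rw [lt_div_iff₀ (by positivity)] at h1
      linarith
    have hl : Filter.Tendsto (fun δ : ℝ =>
        ENNReal.ofReal (Real.pi / 6 - 2 * Real.pi * (z + 2 * a * (2 * R * δ + δ ^ 2))))
        (nhdsWithin 0 (Ioi 0)) (nhds (ENNReal.ofReal (Real.pi / 6 - 2 * Real.pi * z))) := by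
      have hc : Continuous (fun δ : ℝ =>
          ENNReal.ofReal (Real.pi / 6 - 2 * Real.pi * (z + 2 * a * (2 * R * δ + δ ^ 2)))) :=
        ENNReal.continuous_ofReal.comp (by fun_prop)
      have := (hc.tendsto 0).mono_left (nhdsWithin_le_nhds (s := Ioi (0 : ℝ)))
      simpa using this
    have hr : Filter.Tendsto (fun δ : ℝ =>
        ENNReal.ofReal ((1 + δ / (1 - R)) ^ 3) * volume (Body H))
        (nhdsWithin 0 (Ioi 0)) (nhds (volume (Body H))) := by
      have hc : Continuous (fun δ : ℝ => ENNReal.ofReal ((1 + δ / (1 - R)) ^ 3)) :=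
        ENNReal.continuous_ofReal.comp (by fun_prop)
      have h0 := (hc.tendsto 0).mono_left (nhdsWithin_le_nhds (s := Ioi (0 : ℝ)))
      have h1 : ENNReal.ofReal ((1 + 0 / (1 - R)) ^ 3) = 1 := by simp
      rw [h1] at h0
      have h2 := ENNReal.Tendsto.mul_const (b := volume (Body H)) h0 (Or.inl one_ne_zero)
      simpa using h2
    exact le_of_tendsto_of_tendsto hl hr hev
  · have h0 : Real.pi / 6 - 2 * Real.pi * z ≤ 0 := by
      have := Real.pi_pos
      nlinarith
    rw [ENNReal.ofReal_of_nonpos h0]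
    exact bot_le

end Pool.Agent.MEIS
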