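import Pool.Agent.MEIS.Defs

set_option autoImplicit false

open MeasureTheory Set Metric

namespace Pool.Agent.MEIS

/-- A compact convex nonempty set is determined by its support function. -/
theorem body_supp {C : Set E} (h : CW C) : Body (supp C) = C := by
  apply Set.Subset.antisymm
  · intro y hy
    by_contra hyC
    obtain ⟨f, u, h1, h2⟩ := geometric_hahn_banach_closed_point h.cvx h.cpt.isClosed hyC
    set v : E := (InnerProductSpace.toDual ℝ E).symm f with hv
    have hfv : ∀ z : E, f z = inner ℝ v z := by
      intro z
      rw [hv, InnerProductSpace.toDual_symm_apply]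
    have h3 : inner ℝ v y ≤ supp C v := hy v
    have h4 : supp C v ≤ u := by
      apply csSup_le (h.ne.image _)
      rintro _ ⟨c, hc, rfl⟩
      have := h1 c hc
      rw [hfv] at this
      simp only
      rw [real_inner_comm]
      exact this.le
    rw [hfv] at h2
    linarith
  · intro y hy x
    have hb : BddAbove ((fun c : E => inner ℝ c x) '' C) := by
      apply IsCompact.bddAbove
      exact h.cpt.image (by fun_prop)
    rw [real_inner_comm]
    exact le_csSup hb ⟨y, hy, rfl⟩

end Pool.Agent.MEIS
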