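import Pool.Agent.MEIS.Defs

set_option autoImplicit false

open MeasureTheory Set Metric

namespace Pool.Agent.MEIS

theorem num_a : (4105 / 10000 : ℝ) ≤ Real.pi / 6 - 2 * Real.pi * (18 / 1000) := by
  have := Real.pi_gt_d6
  linarith

theorem num_dbl (y z c d : ℝ) (h : c ≤ Real.cos y) (h0 : 0 ≤ c) (hz : z = 2 * y)
    (hd : d ≤ 2 * c ^ 2 - 1) : d ≤ Real.cos z := by
  rw [hz, Real.cos_two_mul]
  nlinarith

theorem num_cos : (1 / 3 : ℝ) ≤ Real.cos (123094 / 100000) := by
  have c0 : (999953759360 / 1000000000000 : ℝ) ≤ Real.cos (123094 / 12800000) := by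
    have := Real.one_sub_sq_div_two_le_cos (x := (123094 / 12800000 : ℝ))
    refine le_trans ?_ this
    norm_num
  have c1 : (999815041716 / 1000000000000 : ℝ) ≤ Real.cos (123094 / 6400000) :=
    num_dbl _ _ _ _ c0 (by norm_num) (by norm_num) (by norm_num)
  have c2 : (999260235283 / 1000000000000 : ℝ) ≤ Real.cos (123094 / 3200000) :=
    num_dbl _ _ _ _ c1 (by norm_num) (by norm_num) (by norm_num)
  have c3 : (997042035635 / 1000000000000 : ℝ) ≤ Real.cos (123094 / 1600000) :=
    num_dbl _ _ _ _ c2 (by norm_num) (by norm_num) (by norm_num)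
  have c4 : (988185641646 / 1000000000000 : ℝ) ≤ Real.cos (123094 / 800000) :=
    num_dbl _ _ _ _ c3 (by norm_num) (by norm_num) (by norm_num)
  have c5 : (953021724710 / 1000000000000 : ℝ) ≤ Real.cos (123094 / 400000) :=
    num_dbl _ _ _ _ c4 (by norm_num) (by norm_num) (by norm_num)
  have c6 : (816500815538 / 1000000000000 : ℝ) ≤ Real.cos (123094 / 200000) :=
    num_dbl _ _ _ _ c5 (by norm_num) (by norm_num) (by norm_num)
  exact num_dbl _ _ _ _ c6 (by norm_num) (by norm_num) (by norm_num)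

theorem num_arccos : (123094 / 100000 : ℝ) ≤ Real.arccos (1 / 3) := by
  have h := Real.arccos_le_arccos num_cos
  rwa [Real.arccos_cos (by norm_num) (by linarith [Real.pi_gt_three])] at h

theorem num_b : (2 / 3 - Real.sqrt 3 / 4 * Real.arccos (1 / 3)) * Real.pi ≤
    Real.pi / 6 - 2 * Real.pi * (16505 / 1000000) := by
  have h3 : (173205 / 100000 : ℝ) ≤ Real.sqrt 3 := by
    apply Real.le_sqrt_of_sq_le
    norm_num
  have ha := num_arccos
  have hm : (173205 / 100000 : ℝ) * (123094 / 100000) ≤ Real.sqrt 3 * Real.arccos (1 / 3) :=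
    mul_le_mul h3 ha (by norm_num) (Real.sqrt_nonneg 3)
  have hk : 2 / 3 - Real.sqrt 3 / 4 * Real.arccos (1 / 3) ≤ 1 / 6 - 2 * (16505 / 1000000) := by
    have e : Real.sqrt 3 / 4 * Real.arccos (1 / 3) = Real.sqrt 3 * Real.arccos (1 / 3) / 4 := by
      ring
    rw [e]
    norm_num at hm ⊢
    linarith
  have := mul_le_mul_of_nonneg_right hk Real.pi_pos.le
  linarith

end Pool.Agent.MEIS
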