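import Pool.Agent.MEIS.Defs

set_option autoImplicit false

open MeasureTheory Set Metric

namespace Pool.Agent.MEIS

theorem sup_bdd {C : Set E} (hC : IsCompact C) (x : E) :
    BddAbove ((fun c : E => @inner ℝ E _ c x) '' C) := by
  have hcont : Continuous (fun c : E => @inner ℝ E _ c x) := by fun_prop
  exact (hC.image hcont).bddAbove

theorem sup_le {C : Set E} (hC : IsCompact C) (x : E) {c : E} (hc : c ∈ C) :
    @inner ℝ E _ c x ≤ supp C x :=
  le_csSup (sup_bdd hC x) ⟨c, hc, rfl⟩

theorem sup_hom {C : Set E} (hne : C.Nonempty) (hC : IsCompact C) (t : ℝ) (ht : 0 ≤ t) (x : E) :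
    supp C (t • x) = t * supp C x := by
  rcases ht.eq_or_lt with h0 | hpos
  · subst h0
    simp only [zero_smul, zero_mul, supp, inner_zero_right]
    rw [hne.image_const]
    exact csSup_singleton 0
  · apply le_antisymm
    · apply csSup_le (hne.image _)
      rintro _ ⟨c, hc, rfl⟩
      simp only [inner_smul_right]
      exact mul_le_mul_of_nonneg_left (sup_le hC x hc) ht
    · rw [← le_div_iff₀' hpos]
      apply csSup_le (hne.image _)
      rintro _ ⟨c, hc, rfl⟩
      rw [le_div_iff₀' hpos]
      have := sup_le hC (t • x) hc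
      rw [inner_smul_right] at this
      exact this

theorem sup_neg {C : Set E} (u : E) :
    sInf ((fun x : E => @inner ℝ E _ x u) '' C) = - supp C (-u) := by
  have h1 : (fun c : E => @inner ℝ E _ c (-u)) '' C
      = -((fun x : E => @inner ℝ E _ x u) '' C) := by
    rw [← Set.image_neg_eq_neg, Set.image_image]
    apply Set.image_congr
    intro a _
    exact inner_neg_right a u
  rw [supp, h1, Real.sInf_def]

theorem supp_SH {C : Set E} {R : ℝ} (h : CW C) (hC : C ⊆ closedBall (0 : E) R) :
    SH (supp C) R := by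
  refine ⟨fun t ht x => sup_hom h.ne h.cpt t ht x, ?_, ?_, ?_⟩
  · intro x y
    apply csSup_le (h.ne.image _)
    rintro _ ⟨c, hc, rfl⟩
    simp only [inner_add_right]
    exact add_le_add (sup_le h.cpt x hc) (sup_le h.cpt y hc)
  · intro x
    by_cases hx : x = 0
    · subst hx
      have h0 := sup_hom h.ne h.cpt 0 le_rfl (0 : E)
      simp only [zero_smul, zero_mul] at h0
      simp [h0]
    · have hpos : 0 < ‖x‖ := norm_pos_iff.mpr hx
      set u : E := (‖x‖)⁻¹ • x with hu
      have hun : ‖u‖ = 1 := by
        rw [hu, norm_smul, norm_inv, norm_norm, inv_mul_cancel₀ hpos.ne']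
      have hxu : x = ‖x‖ • u := by
        rw [hu, smul_smul, mul_inv_cancel₀ hpos.ne', one_smul]
      have hw := h.wid u hun
      rw [sup_neg] at hw
      have h1 : supp C x = ‖x‖ * supp C u := by
        conv_lhs => rw [hxu]
        exact sup_hom h.ne h.cpt _ (norm_nonneg x) u
      have h2 : supp C (-x) = ‖x‖ * supp C (-u) := by
        conv_lhs => rw [hxu, ← smul_neg]
        exact sup_hom h.ne h.cpt _ (norm_nonneg x) (-u)
      have h3 : supp C u - -supp C (-u) = 1 := hw
      rw [h1, h2]
      have : ‖x‖ * supp C u + ‖x‖ * supp C (-u) = ‖x‖ * (supp C u - -supp C (-u)) := by ring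
      rw [this, h3, mul_one]
  · intro x
    apply csSup_le (h.ne.image _)
    rintro _ ⟨c, hc, rfl⟩
    have h1 : @inner ℝ E _ c x ≤ ‖c‖ * ‖x‖ := real_inner_le_norm c x
    have h2 : ‖c‖ ≤ R := by
      have := hC hc
      rwa [mem_closedBall_zero_iff] at this
    exact le_trans h1 (mul_le_mul_of_nonneg_right h2 (norm_nonneg x))

end Pool.Agent.MEIS
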