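import Pool.Agent.MEIS.Defs

set_option autoImplicit false

open MeasureTheory Set Metric

namespace Pool.Agent.MEIS

theorem trn_bdd {C : Set E} (hC : IsCompact C) (u : E) :
    BddAbove ((fun x : E => @inner ℝ E _ x u) '' C) ∧
      BddBelow ((fun x : E => @inner ℝ E _ x u) '' C) := by
  have hcont : Continuous (fun x : E => @inner ℝ E _ x u) := by fun_prop
  exact ⟨(hC.image hcont).bddAbove, (hC.image hcont).bddBelow⟩

/-- Translates of bodies of constant width. -/
theorem CW_translate {C : Set E} (h : CW C) (c : E) : CW ((fun x => x - c) '' C) := by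
  refine ⟨h.ne.image _, h.cpt.image (by fun_prop), ?_, ?_⟩
  · have h1 : (fun x : E => x - c) '' C = (fun x : E => x + (-c)) '' C := by
      simp [sub_eq_add_neg]
    rw [h1]
    have := h.cvx.translate (-c)
    have h2 : (fun x : E => x + (-c)) '' C = (fun z => -c + z) '' C := by
      apply Set.image_congr
      intro a _
      exact add_comm _ _
    rw [h2]
    exact this
  · intro u hu
    have hb := trn_bdd h.cpt u
    have h3 : (fun x : E => @inner ℝ E _ x u) '' ((fun x => x - c) '' C)
        = (fun t : ℝ => t + (-(@inner ℝ E _ c u))) '' ((fun x : E => @inner ℝ E _ x u) '' C) := by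
      rw [Set.image_image, Set.image_image]
      apply Set.image_congr
      intro a _
      simp only [inner_sub_left]
      ring
    have hne : ((fun x : E => @inner ℝ E _ x u) '' C).Nonempty := h.ne.image _
    have hS := (OrderIso.addRight (-(@inner ℝ E _ c u))).map_csSup' hne hb.1
    have hI := (OrderIso.addRight (-(@inner ℝ E _ c u))).map_csInf' hne hb.2
    simp only [OrderIso.addRight_apply] at hS hI
    rw [h3]
    have hS' : sSup ((fun t : ℝ => t + (-(@inner ℝ E _ c u))) '' ((fun x : E => @inner ℝ E _ x u) '' C))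
        = sSup ((fun x : E => @inner ℝ E _ x u) '' C) + (-(@inner ℝ E _ c u)) := hS.symm
    have hI' : sInf ((fun t : ℝ => t + (-(@inner ℝ E _ c u))) '' ((fun x : E => @inner ℝ E _ x u) '' C))
        = sInf ((fun x : E => @inner ℝ E _ x u) '' C) + (-(@inner ℝ E _ c u)) := hI.symm
    rw [hS', hI']
    have hw := h.wid u hu
    linarith

theorem volume_translate (C : Set E) (c : E) : volume ((fun x : E => x - c) '' C) = volume C := by
  have h1 : (fun x : E => x - c) '' C = (fun x : E => x + (-c)) '' C := by
    simp [sub_eq_add_neg]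
  rw [h1]
  simp

/-- Distances in a body of constant width one are at most one. -/
theorem CW_dist {C : Set E} (h : CW C) {x y : E} (hx : x ∈ C) (hy : y ∈ C) : ‖x - y‖ ≤ 1 := by
  by_cases hxy : x = y
  · subst hxy
    simp
  have hpos : 0 < ‖x - y‖ := norm_pos_iff.mpr (sub_ne_zero.mpr hxy)
  set u : E := (‖x - y‖)⁻¹ • (x - y) with hu
  have hun : ‖u‖ = 1 := by
    rw [hu, norm_smul, norm_inv, norm_norm, inv_mul_cancel₀ hpos.ne']
  have hb := trn_bdd h.cpt u
  have h1 : @inner ℝ E _ x u ≤ sSup ((fun x : E => @inner ℝ E _ x u) '' C) :=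
    le_csSup hb.1 ⟨x, hx, rfl⟩
  have h2 : sInf ((fun x : E => @inner ℝ E _ x u) '' C) ≤ @inner ℝ E _ y u :=
    csInf_le hb.2 ⟨y, hy, rfl⟩
  have h3 := h.wid u hun
  have h4 : @inner ℝ E _ x u - @inner ℝ E _ y u = ‖x - y‖ := by
    rw [← inner_sub_left, hu, inner_smul_right, real_inner_self_eq_norm_sq]
    field_simp
  linarith

end Pool.Agent.MEIS
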