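import Pool.Agent.MEIS.Defs
import Pool.Agent.MEIS.GEN
import Pool.Agent.MEIS.SUP
import Pool.Agent.MEIS.HBA
import Pool.Agent.MEIS.TRN
import Pool.Agent.MEIS.JUN
import Pool.Agent.MEIS.NUM

set_option autoImplicit false

open MeasureTheory Set Metric

namespace Pool.Agent.MEIS

/-- Main theorem with an explicit circumradius. -/
theorem main_radius {C : Set E} {c : E} {r a z : ℝ} (h : CW C) (hC : C ⊆ closedBall c r)
    (hr : r < 4 / 5) (ha : 0 < a) (haz : a * (r ^ 2 - 1 / 4) ≤ z)
    (hL : (1 / 2 - 3 * a - 2 * z + a * (r ^ 2 - 1 / 4)) ^ 2 ≤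
      36 * a * (z - a * (r ^ 2 - 1 / 4))) :
    ENNReal.ofReal (Real.pi / 6 - 2 * Real.pi * z) ≤ volume C := by
  have h1 : CW ((fun x => x - c) '' C) := CW_translate h c
  have h2 : ((fun x => x - c) '' C) ⊆ closedBall (0 : E) r := by
    rintro _ ⟨x, hx, rfl⟩
    have h3 := hC hx
    rw [mem_closedBall, dist_eq_norm] at h3
    rw [mem_closedBall, dist_zero_right]
    exact h3
  have h3 := general_bound (supp_SH h1 h2) hr ha haz hL
  rw [body_supp h1, volume_translate] at h3
  exact h3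

theorem main_all {C : Set E} (h : CW C) : ENNReal.ofReal (4105 / 10000) ≤ volume C := by
  obtain ⟨c, hc⟩ := jung (fun x hx y hy => CW_dist h hx hy)
  have hs : Real.sqrt (3 / 8) ^ 2 = 3 / 8 := Real.sq_sqrt (by norm_num)
  have hlt : Real.sqrt (3 / 8) < 4 / 5 := by
    rw [Real.sqrt_lt' (by norm_num)]
    norm_num
  refine le_trans (ENNReal.ofReal_le_ofReal num_a) ?_
  refine main_radius (a := 1299 / 10000) (z := 18 / 1000) h hc hlt (by norm_num) ?_ ?_
  · rw [hs]; norm_num
  · rw [hs]; norm_num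

theorem main_small {C : Set E} {c : E} (h : CW C) (hC : C ⊆ closedBall c (6027 / 10000)) :
    ENNReal.ofReal ((2 / 3 - Real.sqrt 3 / 4 * Real.arccos (1 / 3)) * Real.pi) ≤ volume C := by
  refine le_trans (ENNReal.ofReal_le_ofReal num_b) ?_
  refine main_radius (a := 1326 / 10000) (z := 16505 / 1000000) h hC (by norm_num)
    (by norm_num) ?_ ?_
  · norm_num
  · norm_num

end Pool.Agent.MEIS
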