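import Mathlib

/-!
# MEIS: volume of bodies of constant width in three-space (problem MP_f10237_gt)
Definitions shared by all modules.
-/

set_option autoImplicit false

open MeasureTheory Set Metric

namespace Pool.Agent.MEIS

/-- Euclidean three-space. -/
abbrev E := EuclideanSpace ℝ (Fin 3)

/-- Partial derivative in the `i`-th coordinate direction. -/
noncomputable def pd (i : Fin 3) (f : E → ℝ) (x : E) : ℝ :=
  fderiv ℝ f x (EuclideanSpace.single i (1 : ℝ))

/-- Integral over the unit sphere (surface measure, total mass `4 * π`). -/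
noncomputable def SI (f : E → ℝ) : ℝ :=
  ∫ u : sphere (0 : E) 1, f (u : E) ∂((volume : Measure E).toSphere)

/-- Positively homogeneous of degree `k` off the origin. -/
def Hom (k : ℤ) (f : E → ℝ) : Prop :=
  ∀ t : ℝ, 0 < t → ∀ x : E, x ≠ 0 → f (t • x) = t ^ k * f x

/-- `n` times continuously differentiable off the origin. -/
def Sm (n : ℕ) (f : E → ℝ) : Prop := ContDiffOn ℝ n f ({0}ᶜ : Set E)

/-- Laplacian. -/
noncomputable def lap (f : E → ℝ) (x : E) : ℝ := ∑ i, pd i (pd i f) x

/-- Sum of the squares of all second partial derivatives. -/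
noncomputable def hs (f : E → ℝ) (x : E) : ℝ := ∑ i, ∑ j, (pd i (pd j f) x) ^ 2

/-- Second elementary symmetric function of the Hessian (sum of the principal `2 × 2` minors). -/
noncomputable def sg (f : E → ℝ) (x : E) : ℝ := ((lap f x) ^ 2 - hs f x) / 2

/-- Squared norm of the gradient. -/
noncomputable def gs (f : E → ℝ) (x : E) : ℝ := ∑ i, (pd i f x) ^ 2

/-- Sublinear function `H` with `H x + H (-x) = ‖x‖` and `H x ≤ R ‖x‖`: the support function of a
body of constant width one inside the ball of radius `R` about the origin. -/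
structure SH (H : E → ℝ) (R : ℝ) : Prop where
  hom : ∀ t : ℝ, 0 ≤ t → ∀ x : E, H (t • x) = t * H x
  sub : ∀ x y : E, H (x + y) ≤ H x + H y
  wid : ∀ x : E, H x + H (-x) = ‖x‖
  bd : ∀ x : E, H x ≤ R * ‖x‖

/-- Smooth version of `SH`, with a quantitative form of strict sublinearity. -/
structure SB (G : E → ℝ) (R τ : ℝ) : Prop where
  sm : Sm 3 G
  hom : ∀ t : ℝ, 0 ≤ t → ∀ x : E, G (t • x) = t * G x
  sub : ∀ x y : E, G (x + y) + τ * (‖x‖ + ‖y‖ - ‖x + y‖) ≤ G x + G y
  wid : ∀ x : E, G x + G (-x) = ‖x‖
  bd : ∀ x : E, G x ≤ R * ‖x‖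

/-- The convex set with support function `G`. -/
def Body (G : E → ℝ) : Set E := {y | ∀ x : E, inner ℝ x y ≤ G x}

/-- The odd part of a function with `G x + G (-x) = ‖x‖`. -/
noncomputable def od (G : E → ℝ) (x : E) : ℝ := G x - ‖x‖ / 2

/-- Support function of a set. -/
noncomputable def supp (C : Set E) (x : E) : ℝ := sSup ((fun c : E => inner ℝ c x) '' C)

/-- `C` is a (nonempty, compact, convex) body of constant width one. -/
structure CW (C : Set E) : Prop where
  ne : C.Nonempty
  cpt : IsCompact C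
  cvx : Convex ℝ C
  wid : ∀ u : E, ‖u‖ = 1 →
    sSup ((fun x : E => @inner ℝ E _ x u) '' C) - sInf ((fun x : E => @inner ℝ E _ x u) '' C) = 1

end Pool.Agent.MEIS
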